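import Pool.Agent.INS.Pin

/-! INS/Nums.  The list of the numerical facts (statement only; proofs in NumA .. NumD). -/

set_option autoImplicit false

open Finset

namespace Pool.Agent.INS

/-- the number of edges `M_k(n) = ⌊(1/2 + ε) k (ln k) n⌋` -/
noncomputable def Mk (ε : ℝ) (k n : ℕ) : ℕ := ⌊(1 / 2 + ε) * k * Real.log k * n⌋₊

/-- fraction of new vertices -/
noncomputable def be (ε : ℝ) : ℝ := ε / (2 * (1 + 2 * ε))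

/-- `n ln k / k` -/
noncomputable def yy (k n : ℕ) : ℝ := n * Real.log k / k

/-- number of steps -/
noncomputable def KK (ε : ℝ) : ℕ := ⌈6 / (be ε * ε)⌉₊

/-- facts A: sizes -/
structure NA (ε : ℝ) (k n : ℕ) : Prop where
  k2 : 3 ≤ k
  n2 : 3 ≤ n
  M1 : (k : ℝ) ≤ Mk ε k n
  MN : 2 * Mk ε k n ≤ NN n
  x4 : 4 ≤ (n : ℝ) / k
  y0 : 0 < yy k n
  My : (Mk ε k n : ℝ) ≤ (1 / 2 + ε) * k ^ 2 * yy k n
  yM : yy k n ≤ Mk ε k n
  inj : 22 * (KK ε : ℝ) * (Mk ε k n : ℝ) ^ 2 / NN n ≤ yy k n / 80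

/-- facts B: the main term -/
def NB (ε : ℝ) (k n : ℕ) : Prop :=
  ∀ b : ℕ, be ε * ((n : ℝ) / k) ≤ b → (b : ℝ) < 2 * (be ε * ((n : ℝ) / k)) →
    (n.choose b : ℝ) * Real.exp (-((Mk ε k n : ℝ) / NN n) * (b * ((n : ℝ) / k - ((b : ℝ) + 1) / 2))) ≤
      Real.exp (-(be ε * ε) * yy k n)

/-- facts C: large stable sets, number of small sets, decorrelation -/
structure NC (ε : ℝ) (k n : ℕ) : Prop where
  big : (n.choose ⌈3 * ((n : ℝ) / k)⌉₊ : ℝ) *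
    Real.exp (-((Mk ε k n : ℝ) / NN n) * ((⌈3 * ((n : ℝ) / k)⌉₊).choose 2 : ℝ)) ≤
      Real.exp (-yy k n)
  small : (((univ : Finset (Finset (Fin n))).filter
    (fun I => I.card ≤ ⌊3 * ((n : ℝ) / k)⌋₊)).card : ℝ) ≤ (n + 1) * Real.exp (3 * yy k n)
  dec : (2 : ℝ) ^ (KK ε * ⌊3 * ((n : ℝ) / k)⌋₊) *
    Real.exp (-(((Mk ε k n + 1) / 2 : ℕ) : ℝ) / NN n * ((⌈(n : ℝ) / k / 2⌉₊).choose 2 : ℝ)) ≤
      Real.exp (-yy k n / 32)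

/-- facts D: the sum of all exceptional probabilities -/
def ND (ε : ℝ) (k n : ℕ) : Prop :=
  ∀ T τ : ℕ, T ≤ 10 * KK ε * Mk ε k n → τ ≤ 10 * KK ε * Mk ε k n →
    ((τ : ℝ) + 1) * (1 / 2) ^ (3 * Mk ε k n) + (T + 1) * Real.exp (-yy k n) +
      KK ε * ((T : ℝ) + 1) ^ (KK ε) * Real.exp (-yy k n / 32) +
      ((T : ℝ) + 1) ^ (KK ε + 1) * (((n : ℝ) + 1) * Real.exp (3 * yy k n) *
        ((2 : ℝ) ^ (KK ε * ⌊3 * ((n : ℝ) / k)⌋₊) * ((n + 1) *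
          Real.exp (-(be ε * ε) * yy k n))) ^ (KK ε)) ≤
    Real.exp (-yy k n / 40)

end Pool.Agent.INS
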