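import Mathlib

/-!
# INS: every algorithm for large stable sets is unstable. Definitions

Project for `MP_f583e4_lc`.  `n` vertices, `M` independent uniform samples `ω i` of pairs of vertices (the graph has the
edges `ω i`); a micro move replaces one sample.  `stf ω μ s` is the state after the moves `μ 0, ..., μ (s-1)`.
`cur`, `vs`: the same process written with independent values: `Sum.inl i` is the index of the initial value of the sample `i`,
`Sum.inr r` the index of the value drawn in the move `r`; `cur idx s i` is the index of the value which the sample `i` has at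
time `s` when the moves change the samples `idx 0, idx 1, ...`.
-/

set_option autoImplicit false

open Finset

namespace Pool.Agent.INS

/-- unordered pairs of vertices -/
abbrev Pr (n : ℕ) : Type := {p : Fin n × Fin n // p.1 < p.2}

/-- the pairs inside `J` -/
def pin {n : ℕ} (J : Finset (Fin n)) : Finset (Pr n) :=
  univ.filter fun e => e.1.1 ∈ J ∧ e.1.2 ∈ J

/-- the pairs inside `I` which are not inside `U` -/
def Qs {n : ℕ} (I U : Finset (Fin n)) : Finset (Pr n) := pin I \ pin U

/-- states: `M` samples -/
abbrev Om (n M : ℕ) : Type := Fin M → Pr n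

/-- micro moves -/
abbrev Mv (n M : ℕ) : Type := Fin M × Pr n

/-- a micro move: the sample `μ.1` gets the value `μ.2` -/
def stp {n M : ℕ} (ω : Om n M) (μ : Mv n M) : Om n M := Function.update ω μ.1 μ.2

/-- the state after the first `s` moves -/
def stf {n M τ : ℕ} (ω : Om n M) (μ : Fin τ → Mv n M) : ℕ → Om n M
  | 0 => ω
  | s + 1 => if h : s < τ then stp (stf ω μ s) (μ ⟨s, h⟩) else stf ω μ s

/-- the index of the current value of the sample `i` at time `s` -/
def cur {M τ : ℕ} (idx : Fin τ → Fin M) : ℕ → Fin M → Fin M ⊕ Fin τ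
  | 0, i => Sum.inl i
  | s + 1, i => if h : s < τ then (if idx ⟨s, h⟩ = i then Sum.inr ⟨s, h⟩ else cur idx s i)
      else cur idx s i

/-- the values -/
abbrev Val (n M τ : ℕ) : Type := Fin M ⊕ Fin τ → Pr n

/-- the state at time `s` in terms of the values -/
def vs {n M τ : ℕ} (idx : Fin τ → Fin M) (X : Val n M τ) (s : ℕ) : Om n M :=
  fun i => X (cur idx s i)

/-- `J` is stable in the graph with the edges `ω i` -/
def St {n M : ℕ} (ω : Om n M) (J : Finset (Fin n)) : Prop := ∀ i, ω i ∉ pin J

/-- values drawn before time `s` -/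
def Bef {M τ : ℕ} (s : ℕ) : Fin M ⊕ Fin τ → Prop
  | Sum.inl _ => True
  | Sum.inr r => r.1 < s

/-- the samples changed in the `w` moves from time `s` on -/
def upd {M τ : ℕ} (idx : Fin τ → Fin M) (s w : ℕ) : Finset (Fin M) :=
  (univ.filter fun r : Fin τ => s ≤ r.1 ∧ r.1 < s + w).image idx

/-- lists of pairs (time, set), last one first; union of the sets -/
def UU {n : ℕ} : List (ℕ × Finset (Fin n)) → Finset (Fin n)
  | [] => ∅
  | p :: l => p.2 ∪ UU l

/-- total number of the new pairs -/
def Qsum {n : ℕ} : List (ℕ × Finset (Fin n)) → ℕ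
  | [] => 0
  | p :: l => (Qs p.2 (UU l)).card + Qsum l

/-- the number of all pairs -/
abbrev NN (n : ℕ) : ℕ := Fintype.card (Pr n)

/-- `Φ ω` is stable and has at least `x` elements, and the samples are different -/
def OK {n M : ℕ} (Φ : Om n M → Finset (Fin n)) (x : ℝ) (ω : Om n M) : Prop :=
  Function.Injective ω ∧ St ω (Φ ω) ∧ x ≤ (Φ ω).card

/-- size of the symmetric difference -/
def sd {n : ℕ} (A B : Finset (Fin n)) : ℕ := (A \ B).card + (B \ A).card

/-- good pairs of states -/
def Gd {n M : ℕ} (Φ : Om n M → Finset (Fin n)) (x h : ℝ) (ω ω' : Om n M) : Prop :=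
  OK Φ x ω ∧ OK Φ x ω' ∧ (sd (Φ ω) (Φ ω') : ℝ) ≤ h

end Pool.Agent.INS
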