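import Pool.Agent.INS.Gap

/-! INS/Graph.  Graphs and sets of pairs; the theorem for graphs.

PLAN.  `eE G = {e | G.Adj e.1.1 e.1.2}`; inverse: `SimpleGraph.fromRel`.  `edgeSet` is in bijection with `eE G` by `e ↦ s(e.1.1, e.1.2)`
(injective on `Pr n`, image = the non-diagonal elements of `Sym2`), also for differences.  `graph_gap`: transport `gap` along the bijection `g ↦ eE ∘ g`
with the algorithm `S ↦ F (eE⁻¹ S)`. -/

set_option autoImplicit false

open Finset

namespace Pool.Agent.INS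

variable {n : ℕ}

open Classical in
/-- the edges as pairs -/
noncomputable def eE (G : SimpleGraph (Fin n)) : Finset (Pr n) :=
  univ.filter fun e => G.Adj e.1.1 e.1.2

open Classical in
private theorem mem_eE (G : SimpleGraph (Fin n)) (e : Pr n) : e ∈ eE G ↔ G.Adj e.1.1 e.1.2 := by
  unfold eE
  rw [mem_filter]
  exact ⟨fun h => h.2, fun h => ⟨mem_univ _, h⟩⟩

theorem eE_bij : Function.Bijective (eE (n := n)) := by
  constructor
  · intro G G' h
    have key : ∀ e : Pr n, G.Adj e.1.1 e.1.2 ↔ G'.Adj e.1.1 e.1.2 := fun e => by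
      rw [← mem_eE, ← mem_eE, h]
    ext u v
    rcases lt_trichotomy u v with huv | huv | huv
    · exact key ⟨(u, v), huv⟩
    · subst huv
      exact ⟨fun h' => absurd h' (G.loopless.irrefl _), fun h' => absurd h' (G'.loopless.irrefl _)⟩
    · rw [G.adj_comm, G'.adj_comm]
      exact key ⟨(v, u), huv⟩
  · intro S
    refine ⟨⟨fun u v => (∃ h : u < v, (⟨(u, v), h⟩ : Pr n) ∈ S) ∨
      (∃ h : v < u, (⟨(v, u), h⟩ : Pr n) ∈ S), ⟨fun u v h => h.symm⟩, ⟨fun u h => ?_⟩⟩, ?_⟩
    · rcases h with ⟨h, _⟩ | ⟨h, _⟩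
      · exact lt_irrefl _ h
      · exact lt_irrefl _ h
    · ext e
      rw [mem_eE]
      obtain ⟨⟨u, v⟩, huv⟩ := e
      constructor
      · rintro (⟨_, h⟩ | ⟨h', _⟩)
        · exact h
        · exact absurd h' (lt_asymm huv)
      · intro h
        exact Or.inl ⟨huv, h⟩

private def toS (e : Pr n) : Sym2 (Fin n) := s(e.1.1, e.1.2)

private theorem toS_inj : Function.Injective (toS (n := n)) := by
  rintro ⟨⟨u, v⟩, h⟩ ⟨⟨u', v'⟩, h'⟩ he
  have he' : s(u, v) = s(u', v') := he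
  rw [Sym2.eq_iff] at he'
  rcases he' with ⟨rfl, rfl⟩ | ⟨rfl, rfl⟩
  · rfl
  · exact absurd h (lt_asymm h')

private theorem mem_edge (G : SimpleGraph (Fin n)) (e : Pr n) : toS e ∈ G.edgeSet ↔ e ∈ eE G := by
  rw [mem_eE]
  exact SimpleGraph.mem_edgeSet G

private theorem edge_toS (G : SimpleGraph (Fin n)) (z : Sym2 (Fin n)) (hz : z ∈ G.edgeSet) :
    ∃ e, toS e = z := by
  revert hz
  refine Sym2.inductionOn z ?_
  intro u v h
  have hadj : G.Adj u v := (SimpleGraph.mem_edgeSet G).1 h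
  rcases lt_trichotomy u v with huv | huv | huv
  · exact ⟨⟨(u, v), huv⟩, rfl⟩
  · subst huv
    exact absurd hadj (G.loopless.irrefl _)
  · exact ⟨⟨(v, u), huv⟩, Sym2.eq_swap⟩

theorem eE_card (G : SimpleGraph (Fin n)) : G.edgeSet.ncard = (eE G).card := by
  have h : G.edgeSet = toS '' (eE G : Set (Pr n)) := by
    ext z
    constructor
    · intro hz
      obtain ⟨e, rfl⟩ := edge_toS G z hz
      exact ⟨e, mem_coe.2 ((mem_edge G e).1 hz), rfl⟩
    · rintro ⟨e, he, rfl⟩
      exact (mem_edge G e).2 (mem_coe.1 he)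
  rw [h, Set.ncard_image_of_injective _ toS_inj, Set.ncard_coe_finset]

theorem eE_sdiff (G G' : SimpleGraph (Fin n)) :
    (G.edgeSet \ G'.edgeSet).ncard = (eE G \ eE G').card := by
  have h : G.edgeSet \ G'.edgeSet = toS '' ((eE G \ eE G' : Finset (Pr n)) : Set (Pr n)) := by
    ext z
    constructor
    · rintro ⟨hz, hz'⟩
      obtain ⟨e, rfl⟩ := edge_toS G z hz
      exact ⟨e, mem_coe.2 (mem_sdiff.2 ⟨(mem_edge G e).1 hz, fun h => hz' ((mem_edge G' e).2 h)⟩),
        rfl⟩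
    · rintro ⟨e, he, rfl⟩
      have he' := mem_sdiff.1 (mem_coe.1 he)
      exact ⟨(mem_edge G e).2 he'.1, fun h => he'.2 ((mem_edge G' e).1 h)⟩
  rw [h, Set.ncard_image_of_injective _ toS_inj, Set.ncard_coe_finset]

/-- `F G` is a stable set of `G` with at least `n / k` vertices -/
def Finds (F : SimpleGraph (Fin n) → Finset (Fin n)) (k : ℕ) (G : SimpleGraph (Fin n)) : Prop :=
  (∀ u ∈ F G, ∀ v ∈ F G, ¬ G.Adj u v) ∧ (n : ℝ) / k ≤ (F G).card

/-- the walks of `m` steps on the graphs with `M` edges, each step replaces one edge -/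
def Walks (n M m : ℕ) : Set (Fin (m + 1) → SimpleGraph (Fin n)) :=
  {g | (∀ i, (g i).edgeSet.ncard = M) ∧
    ∀ i : Fin m, ((g i.castSucc).edgeSet \ (g i.succ).edgeSet).ncard = 1}

private theorem ncard_equiv {α β : Type} (h : α ≃ β) (A : Set α) (B : Finset β)
    (hh : ∀ g, g ∈ A ↔ h g ∈ B) : A.ncard = B.card := by
  have h1 : h '' A = (B : Set β) := by
    ext b
    constructor
    · rintro ⟨a, ha, rfl⟩
      exact mem_coe.2 ((hh a).1 ha)
    · intro hb
      refine ⟨h.symm b, (hh _).2 ?_, h.apply_symm_apply b⟩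
      rw [h.apply_symm_apply]
      exact mem_coe.1 hb
  rw [← Set.ncard_image_of_injective A h.injective, h1, Set.ncard_coe_finset]

private noncomputable def E (n : ℕ) : SimpleGraph (Fin n) ≃ Finset (Pr n) :=
  Equiv.ofBijective eE eE_bij

private theorem E_apply (G : SimpleGraph (Fin n)) : E n G = eE G := rfl

private theorem suc_iff (F : SimpleGraph (Fin n) → Finset (Fin n)) (k : ℕ)
    (G : SimpleGraph (Fin n)) :
    Finds F k G ↔ Suc (fun S => F ((E n).symm S)) ((n : ℝ) / k) (E n G) := by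
  unfold Finds Suc
  simp only [Equiv.symm_apply_apply]
  refine and_congr ?_ Iff.rfl
  rw [E_apply, Finset.disjoint_left]
  constructor
  · intro h e he he'
    unfold pin at he'
    rw [mem_filter] at he'
    exact h _ he'.2.1 _ he'.2.2 ((mem_eE G e).1 he)
  · intro h u hu v hv hadj
    rcases lt_trichotomy u v with huv | huv | huv
    · refine h (a := ⟨(u, v), huv⟩) ((mem_eE G _).2 hadj) ?_
      unfold pin
      exact mem_filter.2 ⟨mem_univ _, hu, hv⟩
    · subst huv
      exact G.loopless.irrefl _ hadj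
    · refine h (a := ⟨(v, u), huv⟩) ((mem_eE G _).2 hadj.symm) ?_
      unfold pin
      exact mem_filter.2 ⟨mem_univ _, hv, hu⟩

private theorem walks_iff (M m : ℕ) (g : Fin (m + 1) → SimpleGraph (Fin n)) :
    g ∈ Walks n M m ↔ JW M m (fun i => E n (g i)) := by
  unfold Walks JW
  rw [Set.mem_setOf_eq]
  refine and_congr (forall_congr' fun i => ?_) (forall_congr' fun i => ?_)
  · rw [eE_card]
    rfl
  · rw [eE_sdiff]
    rfl

theorem graph_gap {ε : ℝ} (hε : 0 < ε) : ∃ k0 : ℕ, ∀ k : ℕ, k0 ≤ k → ∃ n0 : ℕ, ∀ n : ℕ, n0 ≤ n →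
    ∀ (F : SimpleGraph (Fin n) → Finset (Fin n)) (m : ℕ), 1 ≤ m → m ≤ Mk ε k n →
    ({g | g ∈ Walks n (Mk ε k n) m ∧ Finds F k (g 0) ∧ Finds F k (g (Fin.last m)) ∧
        (sd (F (g 0)) (F (g (Fin.last m))) : ℝ) ≤ cc ε * ((n : ℝ) / k)}.ncard : ℝ) ≤
      Real.exp (-(cc ε * m / k ^ 2)) * (Walks n (Mk ε k n) m).ncard := by
  classical
  obtain ⟨k0, hk⟩ := gap hε
  refine ⟨k0, fun k hkk => ?_⟩
  obtain ⟨n0, hn⟩ := hk k hkk
  refine ⟨n0, fun n hnn F m hm1 hm2 => ?_⟩
  have h := hn n hnn (fun S => F ((E n).symm S)) m hm1 hm2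
  have e1 := ncard_equiv (Equiv.piCongrRight (fun _ : Fin (m + 1) => E n))
    {g | g ∈ Walks n (Mk ε k n) m ∧ Finds F k (g 0) ∧ Finds F k (g (Fin.last m)) ∧
        (sd (F (g 0)) (F (g (Fin.last m))) : ℝ) ≤ cc ε * ((n : ℝ) / k)}
    (univ.filter (fun w : Fin (m + 1) → Finset (Pr n) => JW (Mk ε k n) m w ∧
      (Suc (fun S => F ((E n).symm S)) ((n : ℝ) / k) (w 0) ∧
        Suc (fun S => F ((E n).symm S)) ((n : ℝ) / k) (w (Fin.last m)) ∧
        (sd ((fun S => F ((E n).symm S)) (w 0)) ((fun S => F ((E n).symm S)) (w (Fin.last m))) : ℝ) ≤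
          cc ε * ((n : ℝ) / k)))) (fun g => by
      rw [Set.mem_setOf_eq, mem_filter]
      simp only [mem_univ, true_and]
      refine and_congr (walks_iff _ _ _) (and_congr (suc_iff _ _ _) (and_congr (suc_iff _ _ _) ?_))
      simp only [Equiv.piCongrRight_apply, Pi.map_apply, Equiv.symm_apply_apply])
  have e2 := ncard_equiv (Equiv.piCongrRight (fun _ : Fin (m + 1) => E n))
    (Walks n (Mk ε k n) m)
    (univ.filter (fun w : Fin (m + 1) → Finset (Pr n) => JW (Mk ε k n) m w)) (fun g => by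
      rw [mem_filter]
      simp only [mem_univ, true_and]
      exact walks_iff _ _ _)
  rw [e1, e2]
  exact h

end Pool.Agent.INS
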