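import Pool.Agent.INS.Defs

/-! INS/CurL.  The bookkeeping of the current values.

PLAN.  Inductions on `s`.  `cur_inj`: the value `inr s` is new at time `s + 1` (`cur_bef`).  `stf_eq`: `stp` changes only the sample
`(μ s).1`.  `cur_fresh`: the last move in `[s, s')` changing `i`; induction on `s'`. -/

set_option autoImplicit false

open Finset

namespace Pool.Agent.INS

variable {n M τ : ℕ}

private theorem bef_mono {s s' : ℕ} (h : s ≤ s') {a : Fin M ⊕ Fin τ} (ha : Bef s a) :
    Bef s' a := by
  rcases a with i | r
  · exact trivial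
  · exact lt_of_lt_of_le (show r.1 < s from ha) h

private theorem cur_succ (idx : Fin τ → Fin M) (s : ℕ) (i : Fin M) :
    cur idx (s + 1) i = if h : s < τ then (if idx ⟨s, h⟩ = i then Sum.inr ⟨s, h⟩ else cur idx s i)
      else cur idx s i := rfl

theorem cur_bef (idx : Fin τ → Fin M) (s : ℕ) (i : Fin M) : Bef s (cur idx s i) := by
  induction s with
  | zero => exact trivial
  | succ s ih =>
    rw [cur_succ]
    split_ifs with h h'
    · exact Nat.lt_succ_self s
    · exact bef_mono (Nat.le_succ s) ih
    · exact bef_mono (Nat.le_succ s) ih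

theorem cur_inj (idx : Fin τ → Fin M) (s : ℕ) : Function.Injective (cur idx s) := by
  induction s with
  | zero =>
    intro i j h
    exact Sum.inl_injective h
  | succ s ih =>
    intro i j h
    rw [cur_succ, cur_succ] at h
    by_cases hs : s < τ
    · rw [dif_pos hs, dif_pos hs] at h
      by_cases h1 : idx ⟨s, hs⟩ = i
      · by_cases h2 : idx ⟨s, hs⟩ = j
        · rw [← h1, h2]
        · rw [if_pos h1, if_neg h2] at h
          have h3 := cur_bef idx s j
          rw [← h] at h3
          exact absurd (show s < s from h3) (lt_irrefl _)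
      · by_cases h2 : idx ⟨s, hs⟩ = j
        · rw [if_neg h1, if_pos h2] at h
          have h3 := cur_bef idx s i
          rw [h] at h3
          exact absurd (show s < s from h3) (lt_irrefl _)
        · rw [if_neg h1, if_neg h2] at h
          exact ih h
    · rw [dif_neg hs, dif_neg hs] at h
      exact ih h

theorem Bef.mono {s s' : ℕ} (h : s ≤ s') {a : Fin M ⊕ Fin τ} (ha : Bef s a) : Bef s' a :=
  bef_mono h ha

theorem stf_eq (ω : Om n M) (μ : Fin τ → Mv n M) (s : ℕ) :
    stf ω μ s = vs (fun r => (μ r).1) (Sum.elim ω (fun r => (μ r).2)) s := by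
  induction s with
  | zero => rfl
  | succ s ih =>
    have h0 : stf ω μ (s + 1) = if h : s < τ then stp (stf ω μ s) (μ ⟨s, h⟩) else stf ω μ s := rfl
    funext i
    rw [h0]
    have h1 : vs (fun r => (μ r).1) (Sum.elim ω (fun r => (μ r).2)) (s + 1) i =
      Sum.elim ω (fun r => (μ r).2) (cur (fun r => (μ r).1) (s + 1) i) := rfl
    rw [h1, cur_succ]
    by_cases hs : s < τ
    · rw [dif_pos hs, dif_pos hs]
      unfold stp
      by_cases h2 : (μ ⟨s, hs⟩).1 = i
      · rw [if_pos h2, ← h2, Function.update_self]
        rfl
      · rw [if_neg h2, Function.update_of_ne (Ne.symm h2), ih]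
        rfl
    · rw [dif_neg hs, dif_neg hs, ih]
      rfl

/-- a sample changed between the times `s` and `s + w ≤ τ` has a value drawn at time `≥ s` -/
theorem cur_fresh (idx : Fin τ → Fin M) {s w : ℕ} {i : Fin M}
    (hi : i ∈ upd idx s w) {s' : ℕ} (hs : s + w ≤ s') : ¬ Bef s (cur idx s' i) := by
  unfold upd at hi
  obtain ⟨r, hr, hri⟩ := mem_image.1 hi
  obtain ⟨-, hr1, hr2⟩ := mem_filter.1 hr
  have key : ∀ t : ℕ, r.1 < t → ¬ Bef s (cur idx t i) := by
    intro t
    induction t with
    | zero => exact fun h => absurd h (Nat.not_lt_zero _)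
    | succ t ih =>
      intro hrt
      rw [cur_succ]
      by_cases ht : t < τ
      · rw [dif_pos ht]
        by_cases h2 : idx ⟨t, ht⟩ = i
        · rw [if_pos h2]
          intro h3
          have h4 : t < s := h3
          omega
        · rw [if_neg h2]
          refine ih ?_
          by_contra h3
          have h4 : t = r.1 := by omega
          apply h2
          subst h4
          exact hri
      · rw [dif_neg ht]
        have := r.2
        exact ih (by omega)
  exact key s' (by omega)

/-- the number of the pairs (initial state, moves) with a property of the process of states -/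
theorem rep (P : (ℕ → Om n M) → Prop) [DecidablePred fun p : Om n M × (Fin τ → Mv n M) => P (stf p.1 p.2)]
    [DecidablePred fun p : (Fin τ → Fin M) × Val n M τ => P (vs p.1 p.2)] :
    (univ.filter (fun p : Om n M × (Fin τ → Mv n M) => P (stf p.1 p.2))).card =
      (univ.filter (fun p : (Fin τ → Fin M) × Val n M τ => P (vs p.1 p.2))).card := by
  let e : Om n M × (Fin τ → Mv n M) → (Fin τ → Fin M) × Val n M τ := fun p =>
    (fun r => (p.2 r).1, Sum.elim p.1 (fun r => (p.2 r).2))
  have he : Function.Bijective e := by
    refine Function.bijective_iff_has_inverse.2 ⟨fun q =>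
      (fun i => q.2 (Sum.inl i), fun r => (q.1 r, q.2 (Sum.inr r))), ?_, ?_⟩
    · intro p
      rfl
    · intro q
      refine Prod.ext rfl ?_
      funext a
      rcases a with i | r
      · rfl
      · rfl
  refine card_bijective e he fun p => ?_
  have h1 : stf p.1 p.2 = vs (e p).1 (e p).2 := by
    funext s
    exact stf_eq p.1 p.2 s
  rw [mem_filter, mem_filter, h1]
  exact ⟨fun h => ⟨mem_univ _, h.2⟩, fun h => ⟨mem_univ _, h.2⟩⟩

end Pool.Agent.INS
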