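import Pool.Agent.INS.Pin
import Pool.Agent.INS.CurL

/-! INS/Avoid.  First moment: probability that given sets are stable at given times.

PLAN (`avoid`).  `B p := ` for the list `l` the forbidden set `B l a : Finset (Pr n)` of the value `a`: `B [] a = ∅`,
`B (p :: l) a = (if a ∈ range (cur idx p.1) then Qs p.2 (UU l) else ∅) ∪ B l a`.  By induction `B l a ⊆ pin (UU l)`, so the
union is disjoint and `∑ a, #(B l a) = M * Qsum l` (`cur_inj`).  If all sets of `l` are stable then `X a ∉ B l a` for all `a`.
The number of the `X` with `X a ∉ B l a` for all `a` is `∏ a, (NN n - #(B l a))` (`Fintype.card_piFinset`) and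
`NN - b ≤ NN * exp (-b/NN)` (`Real.add_one_le_exp`).  For `NN n = 0` the left hand side is `0` or `M + τ = 0` (then `M = 0`). -/

set_option autoImplicit false

open Finset

namespace Pool.Agent.INS

variable {n M τ : ℕ}

open Classical in
/-- the forbidden values -/
private noncomputable def BB (idx : Fin τ → Fin M) : List (ℕ × Finset (Fin n)) → (Fin M ⊕ Fin τ) → Finset (Pr n)
  | [], _ => ∅
  | p :: l, a => (if a ∈ (univ : Finset (Fin M)).image (cur idx p.1) then Qs p.2 (UU l) else ∅) ∪ BB idx l a

private theorem BB_sub (idx : Fin τ → Fin M) (l : List (ℕ × Finset (Fin n))) (a : Fin M ⊕ Fin τ) :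
    BB idx l a ⊆ pin (UU l) := by
  induction l with
  | nil => simp [BB]
  | cons p l ih =>
    rw [BB]
    apply Finset.union_subset
    · split_ifs
      · intro e he
        have h1 : e ∈ pin p.2 := (Finset.mem_sdiff.mp he).1
        exact pin_mono (by rw [UU]; exact Finset.subset_union_left) h1
      · exact Finset.empty_subset _
    · exact ih.trans (pin_mono (by rw [UU]; exact Finset.subset_union_right))

open Classical in
private theorem BB_sum (idx : Fin τ → Fin M) (l : List (ℕ × Finset (Fin n))) :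
    ∑ a, (BB idx l a).card = M * Qsum l := by
  induction l with
  | nil => simp [BB, Qsum]
  | cons p l ih =>
    have h1 : ∀ a, (BB idx (p :: l) a).card =
        (if a ∈ (univ : Finset (Fin M)).image (cur idx p.1) then (Qs p.2 (UU l)).card else 0) + (BB idx l a).card := by
      intro a
      rw [BB, Finset.card_union_of_disjoint]
      · split_ifs <;> simp
      · split_ifs
        · rw [Finset.disjoint_left]
          intro e he hb
          exact (Finset.mem_sdiff.mp he).2 (BB_sub idx l a hb)
        · exact Finset.disjoint_empty_left _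
    simp_rw [h1]
    rw [Finset.sum_add_distrib, ih, ← Finset.sum_filter, Finset.sum_const, Finset.filter_mem_eq_inter,
      Finset.univ_inter, Finset.card_image_of_injective _ (cur_inj idx p.1), Finset.card_univ, Fintype.card_fin,
      smul_eq_mul, Qsum]
    ring

private theorem BB_avoid (idx : Fin τ → Fin M) (X : Val n M τ) (l : List (ℕ × Finset (Fin n)))
    (h : ∀ p ∈ l, St (vs idx X p.1) p.2) (a : Fin M ⊕ Fin τ) : X a ∉ BB idx l a := by
  induction l with
  | nil => simp [BB]
  | cons p l ih =>
    rw [BB, Finset.mem_union, not_or]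
    refine ⟨?_, ih fun q hq => h q (List.mem_cons_of_mem _ hq)⟩
    split_ifs with h1
    · obtain ⟨i, -, hi⟩ := Finset.mem_image.mp h1
      intro h2
      have h3 := h p List.mem_cons_self i
      apply h3
      have h4 : vs idx X p.1 i = X a := by rw [vs, hi]
      rw [h4]
      exact (Finset.mem_sdiff.mp h2).1
    · exact Finset.notMem_empty _

open Classical in
theorem avoid (idx : Fin τ → Fin M) (l : List (ℕ × Finset (Fin n))) :
    ((univ.filter (fun X : Val n M τ => ∀ p ∈ l, St (vs idx X p.1) p.2)).card : ℝ) ≤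
      (NN n : ℝ) ^ (M + τ) * Real.exp (-((M : ℝ) / NN n) * Qsum l) := by
  have hsub : (univ.filter (fun X : Val n M τ => ∀ p ∈ l, St (vs idx X p.1) p.2)) ⊆
      Fintype.piFinset (fun a => univ \ BB idx l a) := by
    intro X hX
    rw [Fintype.mem_piFinset]
    intro a
    rw [Finset.mem_sdiff]
    exact ⟨Finset.mem_univ _, BB_avoid idx X l (Finset.mem_filter.mp hX).2 a⟩
  have hcard : ((univ.filter (fun X : Val n M τ => ∀ p ∈ l, St (vs idx X p.1) p.2)).card : ℝ) ≤
      ∏ a, ((univ \ BB idx l a).card : ℝ) := by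
    have := Finset.card_le_card hsub
    rw [Fintype.card_piFinset] at this
    exact_mod_cast this
  refine hcard.trans ?_
  have hfac : ∀ a ∈ (univ : Finset (Fin M ⊕ Fin τ)), ((univ \ BB idx l a).card : ℝ) ≤
      (NN n : ℝ) * Real.exp (-((BB idx l a).card : ℝ) / NN n) := by
    intro a _
    have hle : (BB idx l a).card ≤ NN n := Finset.card_le_univ _
    have hc : ((univ \ BB idx l a).card : ℝ) = (NN n : ℝ) - (BB idx l a).card := by
      rw [Finset.card_sdiff_of_subset (Finset.subset_univ _), Finset.card_univ, Nat.cast_sub hle]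
    rw [hc]
    rcases Nat.eq_zero_or_pos (NN n) with h0 | h0
    · rw [h0] at hle ⊢
      have : (BB idx l a).card = 0 := by omega
      rw [this]; simp
    · have hN : (0 : ℝ) < (NN n : ℝ) := by exact_mod_cast h0
      have h1 := Real.add_one_le_exp (-((BB idx l a).card : ℝ) / NN n)
      have h2 : (NN n : ℝ) * (-((BB idx l a).card : ℝ) / NN n + 1) = (NN n : ℝ) - (BB idx l a).card := by
        field_simp
        ring
      rw [← h2]
      exact mul_le_mul_of_nonneg_left h1 hN.le
  refine (Finset.prod_le_prod (fun a _ => Nat.cast_nonneg _) hfac).trans (le_of_eq ?_)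
  rw [Finset.prod_mul_distrib, Finset.prod_const, Finset.card_univ, Fintype.card_sum, Fintype.card_fin,
    Fintype.card_fin, ← Real.exp_sum]
  congr 2
  have h3 : ∑ a, (-((BB idx l a).card : ℝ) / NN n) = -(((∑ a, (BB idx l a).card : ℕ) : ℝ)) / NN n := by
    rw [Nat.cast_sum, ← Finset.sum_neg_distrib, Finset.sum_div]
  rw [h3, BB_sum]
  push_cast
  ring

open Classical in
/-- a set with more than `t` elements contains one with `⌈t⌉₊` elements; union over these -/
theorem big (idx : Fin τ → Fin M) (s : ℕ) (t : ℝ) (ht : 0 ≤ t) :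
    ((univ.filter (fun X : Val n M τ => ∃ J : Finset (Fin n), t < J.card ∧ St (vs idx X s) J)).card : ℝ) ≤
      (NN n : ℝ) ^ (M + τ) * ((n.choose ⌈t⌉₊ : ℝ) *
        Real.exp (-((M : ℝ) / NN n) * (⌈t⌉₊.choose 2 : ℝ))) := by
  have hsub : (univ.filter (fun X : Val n M τ => ∃ J : Finset (Fin n), t < J.card ∧ St (vs idx X s) J)) ⊆
      (Finset.powersetCard ⌈t⌉₊ (univ : Finset (Fin n))).biUnion
        (fun J' => univ.filter (fun X : Val n M τ => ∀ p ∈ [(s, J')], St (vs idx X p.1) p.2)) := by
    intro X hX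
    obtain ⟨J, hJ, hst⟩ := (Finset.mem_filter.mp hX).2
    have h1 : ⌈t⌉₊ ≤ J.card := Nat.ceil_le.mpr hJ.le
    obtain ⟨J', hJ', hc⟩ := Finset.exists_subset_card_eq h1
    rw [Finset.mem_biUnion]
    refine ⟨J', Finset.mem_powersetCard.mpr ⟨Finset.subset_univ _, hc⟩, Finset.mem_filter.mpr ⟨Finset.mem_univ _, ?_⟩⟩
    intro p hp
    rw [List.mem_singleton] at hp
    subst hp
    intro i hi
    exact hst i (pin_mono hJ' hi)
  have h0 : pin (∅ : Finset (Fin n)) = ∅ := by
    ext e; simp [mem_pin]
  have hQ : ∀ J' ∈ Finset.powersetCard ⌈t⌉₊ (univ : Finset (Fin n)),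
      Qsum [((s, J') : ℕ × Finset (Fin n))] = ⌈t⌉₊.choose 2 := by
    intro J' hJ'
    rw [Qsum, Qsum, UU, Qs, h0, Finset.sdiff_empty, card_pin, (Finset.mem_powersetCard.mp hJ').2, Nat.add_zero]
  calc ((univ.filter (fun X : Val n M τ => ∃ J : Finset (Fin n), t < J.card ∧ St (vs idx X s) J)).card : ℝ)
      ≤ (((Finset.powersetCard ⌈t⌉₊ (univ : Finset (Fin n))).biUnion
        (fun J' => univ.filter (fun X : Val n M τ => ∀ p ∈ [(s, J')], St (vs idx X p.1) p.2))).card : ℝ) := by
        exact_mod_cast Finset.card_le_card hsub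
    _ ≤ ∑ J' ∈ Finset.powersetCard ⌈t⌉₊ (univ : Finset (Fin n)),
        ((univ.filter (fun X : Val n M τ => ∀ p ∈ [(s, J')], St (vs idx X p.1) p.2)).card : ℝ) := by
        exact_mod_cast Finset.card_biUnion_le
    _ ≤ ∑ J' ∈ Finset.powersetCard ⌈t⌉₊ (univ : Finset (Fin n)),
        (NN n : ℝ) ^ (M + τ) * Real.exp (-((M : ℝ) / NN n) * (⌈t⌉₊.choose 2 : ℝ)) := by
        apply Finset.sum_le_sum
        intro J' hJ'
        have := avoid idx [((s, J') : ℕ × Finset (Fin n))]
        rw [hQ J' hJ'] at this
        exact this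
    _ = (NN n : ℝ) ^ (M + τ) * ((n.choose ⌈t⌉₊ : ℝ) *
        Real.exp (-((M : ℝ) / NN n) * (⌈t⌉₊.choose 2 : ℝ))) := by
        rw [Finset.sum_const, Finset.card_powersetCard, Finset.card_univ, Fintype.card_fin, nsmul_eq_mul]
        ring

end Pool.Agent.INS
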