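import Pool.Agent.INS.Nums

/-! INS/NumA.  Sizes.

PLAN.  `C = (1/2 + ε) k ln k`, `C n - 1 < Mk ≤ C n` (`Nat.floor_le`, `Nat.lt_floor_add_one`), `NN n = n(n-1)/2` (`NN_eq`,
`Nat.choose_two_right`); `yy = n ln k / k`; all statements hold for `k ≥ 3` (`ln k ≥ 1`) and `n` large depending on `k`. -/

set_option autoImplicit false

open Finset

namespace Pool.Agent.INS

theorem be_pos {ε : ℝ} (hε : 0 < ε) : 0 < be ε ∧ be ε < 1 / 4 ∧ 0 < KK ε ∧ 6 ≤ be ε * ε * KK ε := by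
  have h1 : 0 < be ε := by
    unfold be
    positivity
  have h2 : be ε < 1 / 4 := by
    unfold be
    rw [div_lt_div_iff₀ (by positivity) (by norm_num)]
    linarith
  have h3 : 0 < be ε * ε := by positivity
  have h4 : 6 / (be ε * ε) ≤ KK ε := Nat.le_ceil _
  have h5 : 0 < 6 / (be ε * ε) := by positivity
  refine ⟨h1, h2, ?_, ?_⟩
  · have h6 : (0 : ℝ) < KK ε := lt_of_lt_of_le h5 h4
    exact_mod_cast h6
  · rw [div_le_iff₀ h3] at h4
    linarith

private theorem log_ge {k : ℕ} (hk : 3 ≤ k) : 1 ≤ Real.log k := by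
  have h1 : (3 : ℝ) ≤ k := by exact_mod_cast hk
  rw [Real.le_log_iff_exp_le (by linarith)]
  have := Real.exp_one_lt_d9
  linarith

theorem numA {ε : ℝ} (hε : 0 < ε) {k : ℕ} (hk : 3 ≤ k) : ∃ n0 : ℕ, ∀ n : ℕ, n0 ≤ n → NA ε k n := by
  have hk3 : (3 : ℝ) ≤ k := by exact_mod_cast hk
  have hk0 : (0 : ℝ) < k := by linarith
  have hl := log_ge hk
  obtain ⟨C, hC⟩ : ∃ C : ℝ, C = (1 / 2 + ε) * k * Real.log k := ⟨_, rfl⟩
  have hC1 : k / 2 ≤ C := by
    rw [hC]
    have h1 : (k : ℝ) / 2 * 1 ≤ (1 / 2 + ε) * k * Real.log k := by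
      refine mul_le_mul ?_ hl zero_le_one (by positivity)
      have : 0 < ε * k := by positivity
      linarith
    linarith
  have hC0 : 0 < C := by linarith
  have hKK := (be_pos hε).2.2.1
  have hKKr : (0 : ℝ) < KK ε := by exact_mod_cast hKK
  obtain ⟨Q, hQ⟩ : ∃ Q : ℝ, Q = 4 * C + 1 + (4 * k + 4) + 5280 * k * KK ε * C ^ 2 := ⟨_, rfl⟩
  have hQ1 : 0 ≤ 5280 * k * KK ε * C ^ 2 := by positivity
  refine ⟨⌈Q⌉₊, fun n hn => ?_⟩
  have hn1 : Q ≤ n := (Nat.le_ceil Q).trans (by exact_mod_cast hn)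
  have hnC : 4 * C + 1 ≤ n := by linarith
  have hnk : 4 * (k : ℝ) + 4 ≤ n := by linarith
  have hnK : 5280 * k * KK ε * C ^ 2 ≤ (n : ℝ) := by linarith
  have hn0 : (0 : ℝ) < n := by linarith
  have hn3 : (3 : ℝ) ≤ n := by linarith
  have hM : Mk ε k n = ⌊C * n⌋₊ := by
    unfold Mk
    rw [hC]
  have hM1 : (Mk ε k n : ℝ) ≤ C * n := by
    rw [hM]
    exact Nat.floor_le (by positivity)
  have hM2 : C * n - 1 < Mk ε k n := by
    rw [hM]
    have := Nat.lt_floor_add_one (C * n)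
    linarith
  have hNN : (NN n : ℝ) = n * (n - 1) / 2 := by
    have h1 : NN n = n.choose 2 := NN_eq
    rw [h1, Nat.cast_choose_two]
  have hy : yy k n = n * Real.log k / k := rfl
  have hy0 : 0 < yy k n := by
    rw [hy]
    positivity
  have hkn : (k : ℝ) * n ≤ 2 * (C * n) := by
    have := mul_le_mul_of_nonneg_right hC1 hn0.le
    linarith
  refine ⟨hk, by exact_mod_cast hn3, ?_, ?_, ?_, hy0, ?_, ?_, ?_⟩
  · -- M1
    have h1 : (k : ℝ) * 4 ≤ k * n := mul_le_mul_of_nonneg_left (by linarith) hk0.le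
    have h2 : (k : ℝ) < Mk ε k n := by linarith
    exact h2.le
  · -- MN
    have h1 : (2 : ℝ) * Mk ε k n ≤ NN n := by
      rw [hNN]
      have h2 : 4 * C * n ≤ (n - 1) * n := mul_le_mul_of_nonneg_right (by linarith) hn0.le
      linarith
    exact_mod_cast h1
  · rw [le_div_iff₀ hk0]
    linarith
  · -- My
    have h1 : (1 / 2 + ε) * (k : ℝ) ^ 2 * yy k n = C * n := by
      rw [hy, hC]
      field_simp
    rw [h1]
    exact hM1
  · -- yM
    have h1 : yy k n ≤ C * n / 4 := by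
      rw [hy, hC, div_le_iff₀ hk0]
      have h2 : 1 * (n * Real.log k) ≤ (1 / 2 + ε) * k * k / 4 * (n * Real.log k) := by
        refine mul_le_mul_of_nonneg_right ?_ (by positivity)
        have h3 : 9 ≤ (k : ℝ) * k := by nlinarith
        have h4 : 0 < ε * (k * k) := by positivity
        linarith
      linarith
    have h5 : (3 : ℝ) * 3 ≤ k * n := mul_le_mul hk3 hn3 (by norm_num) hk0.le
    linarith
  · -- inj
    have hNN1 : (n : ℝ) ^ 2 / 3 ≤ NN n := by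
      rw [hNN]
      nlinarith
    have hNN0 : (0 : ℝ) < NN n := lt_of_lt_of_le (by positivity) hNN1
    rw [div_le_iff₀ hNN0]
    have h1 : (Mk ε k n : ℝ) ^ 2 ≤ (C * n) ^ 2 := pow_le_pow_left₀ (Nat.cast_nonneg _) hM1 2
    have h2 : 22 * (KK ε : ℝ) * (Mk ε k n : ℝ) ^ 2 ≤ 22 * (KK ε : ℝ) * (C * n) ^ 2 :=
      mul_le_mul_of_nonneg_left h1 (by positivity)
    have h3 : (n : ℝ) / k ≤ yy k n := by
      rw [hy]
      refine div_le_div_of_nonneg_right ?_ hk0.le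
      exact le_mul_of_one_le_right hn0.le hl
    have h4 : 66 * (KK ε : ℝ) * C ^ 2 ≤ yy k n / 80 := by
      have h5 : 5280 * (KK ε : ℝ) * C ^ 2 ≤ n / k := by
        rw [le_div_iff₀ hk0]
        linarith
      linarith
    calc 22 * (KK ε : ℝ) * (Mk ε k n : ℝ) ^ 2 ≤ 22 * (KK ε : ℝ) * (C * n) ^ 2 := h2
      _ = 66 * (KK ε : ℝ) * C ^ 2 * ((n : ℝ) ^ 2 / 3) := by ring
      _ ≤ yy k n / 80 * NN n := mul_le_mul h4 hNN1 (by positivity) (by positivity)

end Pool.Agent.INS
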