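import Pool.Agent.INS.Defs

/-! INS/Pin.  Counting pairs.

PLAN.  `card_pin`: `pin J` is in bijection with the 2-element subsets of `J` (`Finset.card_powersetCard`); for instance the
map `(a, b) ↦ {a, b}`; or `2 * card = card (offDiag)` by the involution `(a, b) ↦ (b, a)` of `J.offDiag` (`Finset.offDiag_card`).
`NN_eq`: `J = univ`.  `pin_inter`, `pin_mono`: membership.  `card_Qs`: `pin I ∩ pin U = pin (I ∩ U)` and
`choose_two` for `s = #I`, `a = #(I ∩ U)`: `(s(s-1) - a(a-1))/2 = (s-a)(s+a-1)/2`. -/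

set_option autoImplicit false

open Finset

namespace Pool.Agent.INS

variable {n : ℕ}

theorem mem_pin (J : Finset (Fin n)) (e : Pr n) : e ∈ pin J ↔ e.1.1 ∈ J ∧ e.1.2 ∈ J := by
  simp [pin]

theorem card_pin (J : Finset (Fin n)) : (pin J).card = J.card.choose 2 := by
  rw [← Finset.card_powersetCard]
  refine Finset.card_bij (fun e _ => ({e.1.1, e.1.2} : Finset (Fin n))) ?_ ?_ ?_
  · rintro ⟨⟨a, b⟩, hab⟩ he
    rw [mem_pin] at he
    rw [Finset.mem_powersetCard]
    refine ⟨?_, Finset.card_pair (ne_of_lt hab)⟩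
    intro x hx
    simp only [Finset.mem_insert, Finset.mem_singleton] at hx
    rcases hx with rfl | rfl
    · exact he.1
    · exact he.2
  · rintro ⟨⟨a, b⟩, hab⟩ _ ⟨⟨c, d⟩, hcd⟩ _ h
    simp only at h hab hcd
    have hac : a = c ∧ b = d := by
      have h1 : a ∈ ({c, d} : Finset (Fin n)) := h ▸ Finset.mem_insert_self _ _
      have h2 : b ∈ ({c, d} : Finset (Fin n)) := h ▸ (by simp)
      have h3 : c ∈ ({a, b} : Finset (Fin n)) := h ▸ Finset.mem_insert_self _ _
      have h4 : d ∈ ({a, b} : Finset (Fin n)) := h ▸ (by simp)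
      simp only [Finset.mem_insert, Finset.mem_singleton] at h1 h2 h3 h4
      rcases h1 with h1 | h1
      · refine ⟨h1, ?_⟩
        rcases h2 with h2 | h2
        · exfalso
          rw [h1, h2] at hab
          exact lt_irrefl _ hab
        · exact h2
      · exfalso
        rcases h3 with h3 | h3
        · rw [← h3] at h1
          rw [h1] at hcd
          exact lt_irrefl _ hcd
        · rw [h1, ← h3] at hab
          exact lt_asymm hab hcd
    rcases hac with ⟨rfl, rfl⟩
    rfl
  · intro s hs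
    rw [Finset.mem_powersetCard] at hs
    obtain ⟨hs, h2⟩ := hs
    obtain ⟨a, b, hab, rfl⟩ := Finset.card_eq_two.1 h2
    have ha : a ∈ J := hs (by simp)
    have hb : b ∈ J := hs (by simp)
    rcases lt_or_gt_of_ne hab with h | h
    · exact ⟨⟨(a, b), h⟩, (mem_pin _ _).2 ⟨ha, hb⟩, rfl⟩
    · exact ⟨⟨(b, a), h⟩, (mem_pin _ _).2 ⟨hb, ha⟩, Finset.pair_comm _ _⟩

theorem NN_eq : NN n = n.choose 2 := by
  have h := card_pin (Finset.univ : Finset (Fin n))
  rw [Finset.card_univ, Fintype.card_fin] at h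
  rw [← h]
  have h2 : pin (Finset.univ : Finset (Fin n)) = Finset.univ := by
    ext e
    simp [mem_pin]
  rw [h2, Finset.card_univ]

theorem pin_mono {J J' : Finset (Fin n)} (h : J ⊆ J') : pin J ⊆ pin J' := by
  intro e he
  rw [mem_pin] at he ⊢
  exact ⟨h he.1, h he.2⟩

theorem pin_inter (I U : Finset (Fin n)) : pin (I ∩ U) = pin I ∩ pin U := by
  ext e
  simp only [mem_pin, Finset.mem_inter]
  tauto

/-- the number of new pairs: with `b` new vertices out of `s`: `b (s - (b+1)/2)` -/
theorem card_Qs (I U : Finset (Fin n)) : ((Qs I U).card : ℝ) =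
    ((I \ U).card : ℝ) * ((I.card : ℝ) - (((I \ U).card : ℝ) + 1) / 2) := by
  have h1 : (Qs I U).card + (pin (I ∩ U)).card = (pin I).card := by
    rw [pin_inter, Qs]
    exact Finset.card_sdiff_add_card_inter _ _
  have h2 : (I \ U).card + (I ∩ U).card = I.card := Finset.card_sdiff_add_card_inter _ _
  rw [card_pin, card_pin] at h1
  have h3 : ((Qs I U).card : ℝ) + (((I ∩ U).card.choose 2 : ℕ) : ℝ) = ((I.card.choose 2 : ℕ) : ℝ) := by
    exact_mod_cast h1
  have h4 : ((I \ U).card : ℝ) + ((I ∩ U).card : ℝ) = (I.card : ℝ) := by exact_mod_cast h2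
  rw [Nat.cast_choose_two, Nat.cast_choose_two] at h3
  have h5 : ((I ∩ U).card : ℝ) = (I.card : ℝ) - ((I \ U).card : ℝ) := by linarith
  rw [h5] at h3
  linarith [h3]

end Pool.Agent.INS
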