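import Pool.Agent.INS.Graph
import Pool.Agent.INS.NumA
import Pool.Agent.INS.Pin

/-! INS/Cert.  Consequences: jumps, average sensitivity, certificates.

PLAN.  `C = cc ε ≤ 1/4`, `c = C/6`, `M = Mk ε k n`, `N = NN n`, `𝒢` the set of the graphs with `M` edges, `#𝒢 = C(N,M) > 0` and
`0 < M < N` for large `n` (`numA`).  Steps (`m = 1`): ordered pairs `(G, G')`; for every `G` there are `M (N - M)` of them (`jw_count`-like), also for every `G'`
(symmetry).  `jump`: by `graph_gap` (`m = 1`) at most `exp (-C/k²) ≤ 1 - C/(2k²)` of the steps are successful on both sides with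
`sd ≤ C n/k`; at most `c/k²` of the steps have an unsuccessful start, at most `c/k²` an unsuccessful end; the other steps have `sd > c n/k`: fraction
`≥ C/(2k²) - 2c/k² = c/k²`.
`cert`: if `v` is in exactly one of `F G`, `F G'` then the pair `e ∈ E(G) \ E(G')` or the pair `e' ∈ E(G') \ E(G)` is in `P v G`.  So
`∑_(steps) sd ≤ ∑_G ∑_v (#(P v G ∩ E(G)) (N - M) + #(P v G \ E(G)) M)` (for given `G`, `v`: the steps with `e ∈ P v G` are
`#(P v G ∩ E(G)) (N - M)`, those with `e' ∈ P v G` at most `#(P v G \ E(G)) M`).  By `jump` the left hand side is at least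
`(c n/k)(c/k²) #𝒢 M (N - M)`. -/

set_option autoImplicit false

open Finset

namespace Pool.Agent.INS

private lemma exch {α : Type} [DecidableEq α] {S S' : Finset α} (hc : S'.card = S.card)
    (h1 : (S \ S').card = 1) : ∃ e ∈ S, ∃ e', e' ∉ S ∧ S' = insert e' (S.erase e) := by
  have h2 : (S' \ S).card = 1 := by
    have e1 := Finset.card_sdiff_add_card_inter S S'
    have e2 := Finset.card_sdiff_add_card_inter S' S
    rw [Finset.inter_comm S' S] at e2
    omega
  obtain ⟨e, he⟩ := Finset.card_eq_one.mp h1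
  obtain ⟨e', he'⟩ := Finset.card_eq_one.mp h2
  have a1 : ∀ x, (x ∈ S ∧ x ∉ S') ↔ x = e := fun x => by
    rw [← Finset.mem_sdiff, he, Finset.mem_singleton]
  have a2 : ∀ x, (x ∈ S' ∧ x ∉ S) ↔ x = e' := fun x => by
    rw [← Finset.mem_sdiff, he', Finset.mem_singleton]
  refine ⟨e, ((a1 e).mpr rfl).1, e', ((a2 e').mpr rfl).2, ?_⟩
  ext x
  rw [Finset.mem_insert, Finset.mem_erase]
  have b1 := a1 x
  have b2 := a2 x
  tauto

private lemma exch_card {α : Type} [DecidableEq α] {S : Finset α} {e e' : α} (he : e ∈ S)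
    (he' : e' ∉ S) : (insert e' (S.erase e)).card = S.card := by
  rw [Finset.card_insert_of_notMem (fun h => he' (Finset.mem_of_mem_erase h)),
    Finset.card_erase_of_mem he]
  have := Finset.card_pos.mpr ⟨e, he⟩
  omega

private lemma exch_sdiff {α : Type} [DecidableEq α] {S : Finset α} {e e' : α} (he : e ∈ S)
    (he' : e' ∉ S) : S \ insert e' (S.erase e) = {e} := by
  ext x
  rw [Finset.mem_sdiff, Finset.mem_insert, Finset.mem_erase, Finset.mem_singleton]
  constructor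
  · rintro ⟨h1, h2⟩
    by_contra h3
    exact h2 (Or.inr ⟨h3, h1⟩)
  · rintro rfl
    refine ⟨he, ?_⟩
    rintro (h | h)
    · exact he' (h ▸ he)
    · exact h.1 rfl

private lemma exch_sdiff' {α : Type} [DecidableEq α] {S : Finset α} {e e' : α}
    (he' : e' ∉ S) : insert e' (S.erase e) \ S = {e'} := by
  ext x
  rw [Finset.mem_sdiff, Finset.mem_insert, Finset.mem_erase, Finset.mem_singleton]
  constructor
  · rintro ⟨h1 | h1, h2⟩
    · exact h1
    · exact absurd h1.2 h2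
  · rintro rfl
    exact ⟨Or.inl rfl, he'⟩

/-- steps -/
def Stp {n : ℕ} (M : ℕ) (G G' : SimpleGraph (Fin n)) : Prop :=
  G.edgeSet.ncard = M ∧ G'.edgeSet.ncard = M ∧ (G.edgeSet \ G'.edgeSet).ncard = 1

private lemma stp_iff {n M : ℕ} (G G' : SimpleGraph (Fin n)) :
    Stp M G G' ↔ (eE G).card = M ∧ (eE G').card = M ∧ (eE G \ eE G').card = 1 := by
  rw [Stp, eE_card, eE_card, eE_sdiff]

private lemma stp_symm {n M : ℕ} {G G' : SimpleGraph (Fin n)} (h : Stp M G G') :
    Stp M G' G := by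
  rw [stp_iff] at h ⊢
  refine ⟨h.2.1, h.1, ?_⟩
  have e1 := Finset.card_sdiff_add_card_inter (eE G) (eE G')
  have e2 := Finset.card_sdiff_add_card_inter (eE G') (eE G)
  rw [Finset.inter_comm (eE G') (eE G)] at e2
  omega

/-- the graph with given set of pairs -/
private noncomputable def gr {n : ℕ} (S : Finset (Pr n)) : SimpleGraph (Fin n) :=
  (Equiv.ofBijective _ (eE_bij (n := n))).symm S

private lemma eE_gr {n : ℕ} (S : Finset (Pr n)) : eE (gr S) = S :=
  (Equiv.ofBijective _ (eE_bij (n := n))).apply_symm_apply S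

open Classical in
private lemma nbrs {n M : ℕ} {G : SimpleGraph (Fin n)} (hG : G.edgeSet.ncard = M) :
    (univ.filter (fun G' : SimpleGraph (Fin n) => Stp M G G')).card = M * (NN n - M) := by
  have hS : (eE G).card = M := by rw [← eE_card, hG]
  have h1 : univ.filter (fun G' : SimpleGraph (Fin n) => Stp M G G') =
      ((eE G) ×ˢ (eE G)ᶜ).image fun p => gr (insert p.2 ((eE G).erase p.1)) := by
    ext G'
    rw [Finset.mem_filter, Finset.mem_image, stp_iff]
    constructor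
    · rintro ⟨-, -, h2, h3⟩
      obtain ⟨e, he, e', he', h4⟩ := exch (h2.trans hS.symm) h3
      refine ⟨(e, e'), Finset.mem_product.mpr ⟨he, Finset.mem_compl.mpr he'⟩, ?_⟩
      apply eE_bij.1
      rw [eE_gr, h4]
    · rintro ⟨⟨e, e'⟩, he, rfl⟩
      have he1 := (Finset.mem_product.mp he).1
      have he2 := Finset.mem_compl.mp (Finset.mem_product.mp he).2
      refine ⟨Finset.mem_univ _, hS, ?_, ?_⟩
      · rw [eE_gr, exch_card he1 he2, hS]
      · rw [eE_gr, exch_sdiff he1 he2, Finset.card_singleton]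
  rw [h1, Finset.card_image_of_injOn, Finset.card_product, Finset.card_compl, hS]
  rintro ⟨e, e'⟩ he ⟨d, d'⟩ hd h
  have he1 := (Finset.mem_product.mp he).1
  have he2 := Finset.mem_compl.mp (Finset.mem_product.mp he).2
  have hd1 := (Finset.mem_product.mp hd).1
  have hd2 := Finset.mem_compl.mp (Finset.mem_product.mp hd).2
  simp only at he1 he2 hd1 hd2 h
  have h2 : insert e' ((eE G).erase e) = insert d' ((eE G).erase d) := by
    rw [← eE_gr (insert e' ((eE G).erase e)), h, eE_gr]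
  have h3 : ({e} : Finset (Pr n)) = {d} := by
    rw [← exch_sdiff he1 he2, h2, exch_sdiff hd1 hd2]
  have h4 : ({e'} : Finset (Pr n)) = {d'} := by
    rw [← exch_sdiff' (e := e) he2, h2, exch_sdiff' hd2]
  rw [Finset.singleton_inj.mp h3, Finset.singleton_inj.mp h4]

private lemma ncard_filter {α : Type} [Fintype α] (P : α → Prop) [DecidablePred P] :
    {x | P x}.ncard = (univ.filter P).card := by
  rw [← Set.ncard_coe_finset]
  congr 1
  ext x
  simp

/-- number of the steps with `P` -/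
private noncomputable def cnt {n : ℕ} (M : ℕ)
    (P : SimpleGraph (Fin n) → SimpleGraph (Fin n) → Prop) : ℕ :=
  {p : SimpleGraph (Fin n) × SimpleGraph (Fin n) | Stp M p.1 p.2 ∧ P p.1 p.2}.ncard

/-- number of the graphs with `Q` -/
private noncomputable def cg {n : ℕ} (M : ℕ) (Q : SimpleGraph (Fin n) → Prop) : ℕ :=
  {G : SimpleGraph (Fin n) | G.edgeSet.ncard = M ∧ Q G}.ncard

private lemma walk_pairs {n M : ℕ} (P : SimpleGraph (Fin n) → SimpleGraph (Fin n) → Prop) :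
    {g | g ∈ Walks n M 1 ∧ P (g 0) (g 1)}.ncard = cnt M P := by
  unfold cnt
  refine Set.ncard_congr (fun g _ => (g 0, g 1)) ?_ ?_ ?_
  · rintro g ⟨⟨h1, h2⟩, h3⟩
    exact ⟨⟨h1 0, h1 1, h2 0⟩, h3⟩
  · intro g g' _ _ h
    have h1 := congrArg Prod.fst h
    have h2 := congrArg Prod.snd h
    simp only at h1 h2
    funext i
    fin_cases i
    · exact h1
    · exact h2
  · rintro ⟨G, G'⟩ ⟨⟨h1, h2, h3⟩, h4⟩
    refine ⟨![G, G'], ⟨⟨?_, ?_⟩, h4⟩, rfl⟩
    · intro i
      fin_cases i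
      · exact h1
      · exact h2
    · intro i
      fin_cases i
      exact h3

/-- counting steps by their start -/
private lemma count_start {n M : ℕ} (Q : SimpleGraph (Fin n) → Prop) :
    cnt M (fun a _ => Q a) = cg M Q * (M * (NN n - M)) := by
  classical
  unfold cnt cg
  rw [ncard_filter, ncard_filter, Finset.card_filter, Fintype.sum_prod_type, Finset.card_filter,
    Finset.sum_mul]
  refine Finset.sum_congr rfl fun G _ => ?_
  by_cases h : G.edgeSet.ncard = M ∧ Q G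
  · rw [if_pos h, one_mul, ← nbrs h.1, Finset.card_filter]
    refine Finset.sum_congr rfl fun G' _ => ?_
    simp only [h.2, and_true]
  · rw [if_neg h, zero_mul]
    refine Finset.sum_eq_zero fun G' _ => if_neg ?_
    rintro ⟨h1, h2⟩
    exact h ⟨h1.1, h2⟩

private lemma count_end {n M : ℕ} (Q : SimpleGraph (Fin n) → Prop) :
    cnt M (fun _ b => Q b) = cg M Q * (M * (NN n - M)) := by
  rw [← count_start]
  unfold cnt
  refine Set.ncard_congr (fun p _ => (p.2, p.1)) ?_ ?_ ?_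
  · rintro p ⟨h1, h2⟩
    exact ⟨stp_symm h1, h2⟩
  · rintro ⟨a, b⟩ ⟨c, d⟩ _ _ h
    have h1 := congrArg Prod.fst h
    have h2 := congrArg Prod.snd h
    simp only at h1 h2
    rw [h1, h2]
  · rintro ⟨a, b⟩ ⟨h1, h2⟩
    exact ⟨(b, a), ⟨stp_symm h1, h2⟩, rfl⟩

private lemma cg_compl {n M : ℕ} (Q : SimpleGraph (Fin n) → Prop) :
    cg M Q + cg M (fun G => ¬ Q G) = {G : SimpleGraph (Fin n) | G.edgeSet.ncard = M}.ncard := by
  classical
  unfold cg
  rw [ncard_filter, ncard_filter, ncard_filter, ← Finset.filter_filter, ← Finset.filter_filter]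
  exact Finset.card_filter_add_card_filter_not _

private lemma cnt_le {n M : ℕ} {P Q R : SimpleGraph (Fin n) → SimpleGraph (Fin n) → Prop}
    (h : ∀ a b, Stp M a b → P a b → Q a b ∨ R a b) : cnt M P ≤ cnt M Q + cnt M R := by
  unfold cnt
  refine (Set.ncard_le_ncard (t := {p : SimpleGraph (Fin n) × SimpleGraph (Fin n) |
    Stp M p.1 p.2 ∧ Q p.1 p.2} ∪ {p | Stp M p.1 p.2 ∧ R p.1 p.2}) ?_ (Set.toFinite _)).trans
    (Set.ncard_union_le _ _)
  rintro p ⟨h1, h2⟩
  rcases h _ _ h1 h2 with h3 | h3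
  · exact Or.inl ⟨h1, h3⟩
  · exact Or.inr ⟨h1, h3⟩

/-- the number of steps from and to every graph -/
theorem walks_one {n M : ℕ} (G : SimpleGraph (Fin n)) (hG : G.edgeSet.ncard = M) :
    {g | g ∈ Walks n M 1 ∧ g 0 = G}.ncard = M * (NN n - M) ∧
    {g | g ∈ Walks n M 1 ∧ g 1 = G}.ncard = M * (NN n - M) := by
  have h1 : cg M (fun a => a = G) = 1 := by
    unfold cg
    rw [Set.ncard_eq_one]
    refine ⟨G, ?_⟩
    ext G'
    rw [Set.mem_singleton_iff]
    constructor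
    · exact fun h => h.2
    · rintro rfl
      exact ⟨hG, rfl⟩
  constructor
  · rw [walk_pairs fun a _ => a = G, count_start fun a => a = G, h1, one_mul]
  · rw [walk_pairs fun _ b => b = G, count_end fun b => b = G, h1, one_mul]

private lemma be_facts {ε : ℝ} (hε : 0 < ε) : 0 < cc ε ∧ cc ε ≤ 1 := by
  have h1 := be_pos hε
  unfold cc
  constructor
  · refine lt_min h1.1 ?_
    have : (0 : ℝ) < KK ε := by exact_mod_cast h1.2.2.1
    positivity
  · exact (min_le_left _ _).trans (by linarith [h1.2.1])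

private lemma exp_half {x : ℝ} (h0 : 0 ≤ x) (h1 : x ≤ 1) : Real.exp (-x) ≤ 1 - x / 2 := by
  have h2 : Real.exp (-x) ≤ 1 / (1 + x) := by
    rw [Real.exp_neg, ← one_div]
    exact one_div_le_one_div_of_le (by linarith) (by linarith [Real.add_one_le_exp x])
  refine h2.trans ?_
  rw [div_le_iff₀ (by linarith)]
  nlinarith

private lemma walks_card (n M : ℕ) : (Walks n M 1).ncard =
    {G : SimpleGraph (Fin n) | G.edgeSet.ncard = M}.ncard * (M * (NN n - M)) := by
  have e1 : Walks n M 1 = {g | g ∈ Walks n M 1 ∧ (fun _ _ => True) (g 0) (g 1)} := by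
    ext g
    simp
  rw [e1, walk_pairs (fun _ _ => True), count_start fun _ => True]
  unfold cg
  simp only [and_true]

theorem jump {ε : ℝ} (hε : 0 < ε) : ∃ k0 : ℕ, ∀ k : ℕ, k0 ≤ k → ∃ n0 : ℕ, ∀ n : ℕ, n0 ≤ n →
    ∀ F : SimpleGraph (Fin n) → Finset (Fin n),
    (1 - cc ε / 6 / k ^ 2) * ({G : SimpleGraph (Fin n) | G.edgeSet.ncard = Mk ε k n}.ncard : ℝ) ≤
      ({G : SimpleGraph (Fin n) | G.edgeSet.ncard = Mk ε k n ∧ Finds F k G}.ncard : ℝ) →
    cc ε / 6 / k ^ 2 * ((Walks n (Mk ε k n) 1).ncard : ℝ) ≤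
      ({g | g ∈ Walks n (Mk ε k n) 1 ∧ cc ε / 6 * ((n : ℝ) / k) < sd (F (g 0)) (F (g 1))}.ncard : ℝ) := by
  obtain ⟨hc0, hc1⟩ := be_facts hε
  obtain ⟨k0, hk0⟩ := graph_gap hε
  refine ⟨max k0 3, fun k hk => ?_⟩
  obtain ⟨n0, hn0⟩ := hk0 k ((le_max_left _ _).trans hk)
  obtain ⟨n1, hn1⟩ := numA hε (k := k) ((le_max_right _ _).trans hk)
  refine ⟨max n0 n1, fun n hn F hF => ?_⟩
  have hA := hn1 n ((le_max_right _ _).trans hn)
  have hk3 : (3 : ℝ) ≤ k := by exact_mod_cast hA.k2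
  have hM1 : 1 ≤ Mk ε k n := by
    have : (1 : ℝ) ≤ Mk ε k n := by linarith [hA.M1]
    exact_mod_cast this
  have hgap := hn0 n ((le_max_left _ _).trans hn) F 1 le_rfl hM1
  have hw2 := walk_pairs (n := n) (M := Mk ε k n) (fun a b => Finds F k a ∧ Finds F k b ∧
      (sd (F a) (F b) : ℝ) ≤ cc ε * ((n : ℝ) / k))
  have hw3 := walk_pairs (n := n) (M := Mk ε k n)
    (fun a b => cc ε / 6 * ((n : ℝ) / k) < sd (F a) (F b))
  have hl : Fin.last 1 = 1 := rfl
  rw [hl, hw2, walks_card] at hgap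
  rw [hw3, walks_card]
  have hg3 := cg_compl (n := n) (M := Mk ε k n) (fun G => Finds F k G)
  have hg4 : {G : SimpleGraph (Fin n) | G.edgeSet.ncard = Mk ε k n ∧ Finds F k G}.ncard =
    cg (Mk ε k n) (fun G => Finds F k G) := rfl
  rw [hg4] at hF
  have c1 := cnt_le (M := Mk ε k n) (P := fun _ _ => True)
    (Q := fun a b => cc ε / 6 * ((n : ℝ) / k) < sd (F a) (F b))
    (R := fun a b => ¬ (cc ε / 6 * ((n : ℝ) / k) < sd (F a) (F b))) (fun a b _ _ => em _)
  have c2 := cnt_le (M := Mk ε k n)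
    (P := fun a b => ¬ (cc ε / 6 * ((n : ℝ) / k) < sd (F a) (F b)))
    (Q := fun a _ => ¬ Finds F k a)
    (R := fun a b => Finds F k a ∧ (sd (F a) (F b) : ℝ) ≤ cc ε * ((n : ℝ) / k)) (by
      intro a b _ h
      by_cases h1 : Finds F k a
      · refine Or.inr ⟨h1, (not_lt.mp h).trans ?_⟩
        exact mul_le_mul_of_nonneg_right (by linarith) (by positivity)
      · exact Or.inl h1)
  have c3 := cnt_le (M := Mk ε k n)
    (P := fun a b => Finds F k a ∧ (sd (F a) (F b) : ℝ) ≤ cc ε * ((n : ℝ) / k))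
    (Q := fun _ b => ¬ Finds F k b)
    (R := fun a b => Finds F k a ∧ Finds F k b ∧
      (sd (F a) (F b) : ℝ) ≤ cc ε * ((n : ℝ) / k)) (by
      intro a b _ h
      by_cases h1 : Finds F k b
      · exact Or.inr ⟨h.1, h1, h.2⟩
      · exact Or.inl h1)
  rw [count_start (fun _ => True)] at c1
  rw [count_start (fun G => ¬ Finds F k G)] at c2
  rw [count_end (fun G => ¬ Finds F k G)] at c3
  have c4 : cg (Mk ε k n) (fun _ : SimpleGraph (Fin n) => True) =
      {G : SimpleGraph (Fin n) | G.edgeSet.ncard = Mk ε k n}.ncard := by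
    unfold cg
    simp only [and_true]
  rw [c4] at c1
  set GG := {G : SimpleGraph (Fin n) | G.edgeSet.ncard = Mk ε k n}.ncard with hGG
  set D := Mk ε k n * (NN n - Mk ε k n) with hD
  set A := cnt (Mk ε k n) (fun a b => Finds F k a ∧ Finds F k b ∧
      (sd (F a) (F b) : ℝ) ≤ cc ε * ((n : ℝ) / k)) with hA'
  set B := cnt (Mk ε k n) (fun a b => cc ε / 6 * ((n : ℝ) / k) < sd (F a) (F b)) with hB'
  set U := cg (Mk ε k n) (fun G => ¬ Finds F k G) with hU'
  set V := cg (Mk ε k n) (fun G => Finds F k G) with hV'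
  have r1 : (GG : ℝ) * D ≤ A + B + U * D + U * D := by
    have : GG * D ≤ A + B + U * D + U * D := by omega
    exact_mod_cast this
  have r2 : (V : ℝ) + U = GG := by exact_mod_cast hg3
  have r3 : (U : ℝ) ≤ cc ε / 6 / k ^ 2 * GG := by linarith
  have r4 : (A : ℝ) ≤ (1 - cc ε / k ^ 2 / 2) * (GG * D) := by
    refine hgap.trans ?_
    push_cast
    refine mul_le_mul_of_nonneg_right ?_ (by positivity)
    have e2 : cc ε / (k : ℝ) ^ 2 ≤ 1 := by
      rw [div_le_one (by positivity)]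
      nlinarith
    rw [mul_one]
    exact exp_half (by positivity) e2
  have r5 : (U : ℝ) * D ≤ cc ε / 6 / k ^ 2 * GG * D :=
    mul_le_mul_of_nonneg_right r3 (by positivity)
  push_cast
  have e3 : cc ε / 6 / (k : ℝ) ^ 2 = cc ε / k ^ 2 / 6 := by ring
  rw [e3] at r5 ⊢
  linarith

private def sy {n : ℕ} (e : Pr n) : Sym2 (Fin n) := s(e.1.1, e.1.2)

private lemma sy_inj {n : ℕ} : Function.Injective (sy (n := n)) := by
  rintro ⟨⟨a, b⟩, h1⟩ ⟨⟨c, d⟩, h2⟩ h
  simp only [sy, Sym2.eq_iff] at h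
  simp only at h1 h2
  rcases h with ⟨h3, h4⟩ | ⟨h3, h4⟩
  · subst h3 h4
    rfl
  · subst h3 h4
    exact absurd h1 (not_lt.mpr h2.le)

private lemma sy_mem {n : ℕ} (G : SimpleGraph (Fin n)) (e : Pr n) :
    sy e ∈ G.edgeSet ↔ e ∈ eE G := by
  classical
  unfold sy eE
  rw [SimpleGraph.mem_edgeSet]
  simp

private lemma sy_surj {n : ℕ} (G : SimpleGraph (Fin n)) {x : Sym2 (Fin n)}
    (hx : x ∈ G.edgeSet) : ∃ e : Pr n, sy e = x ∧ e ∈ eE G := by
  induction x with
  | h a b =>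
    rw [SimpleGraph.mem_edgeSet] at hx
    rcases lt_trichotomy a b with h | h | h
    · refine ⟨⟨(a, b), h⟩, rfl, ?_⟩
      rw [← sy_mem]
      exact hx
    · subst h
      exact absurd hx (SimpleGraph.irrefl G)
    · refine ⟨⟨(b, a), h⟩, Sym2.eq_swap, ?_⟩
      rw [← sy_mem]
      exact hx.symm

private lemma img_le {n : ℕ} (S A B : Finset (Pr n)) :
    {G' : SimpleGraph (Fin n) | ∃ e ∈ A, ∃ e' ∈ B, eE G' = insert e' (S.erase e)}.ncard ≤
      A.card * B.card := by
  classical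
  have h1 : {G' : SimpleGraph (Fin n) | ∃ e ∈ A, ∃ e' ∈ B, eE G' = insert e' (S.erase e)} ⊆
      (((A ×ˢ B).image fun p => gr (insert p.2 (S.erase p.1)) :
        Finset (SimpleGraph (Fin n))) : Set (SimpleGraph (Fin n))) := by
    rintro G' ⟨e, he, e', he', h⟩
    rw [Finset.mem_coe, Finset.mem_image]
    refine ⟨(e, e'), Finset.mem_product.mpr ⟨he, he'⟩, ?_⟩
    apply eE_bij.1
    rw [eE_gr, h]
  refine (Set.ncard_le_ncard h1 (Finset.finite_toSet _)).trans ?_
  rw [Set.ncard_coe_finset]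
  refine Finset.card_image_le.trans ?_
  rw [Finset.card_product]

private lemma cnt_rem {n M : ℕ} {G : SimpleGraph (Fin n)} (hG : G.edgeSet.ncard = M)
    (P : Set (Sym2 (Fin n))) :
    {G' : SimpleGraph (Fin n) | Stp M G G' ∧ ∃ e ∈ P, e ∈ G.edgeSet ∧ e ∉ G'.edgeSet}.ncard ≤
      (P ∩ G.edgeSet).ncard * (NN n - M) := by
  classical
  have hS : (eE G).card = M := by rw [← eE_card, hG]
  have h1 : {G' : SimpleGraph (Fin n) | Stp M G G' ∧ ∃ e ∈ P, e ∈ G.edgeSet ∧ e ∉ G'.edgeSet} ⊆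
      {G' : SimpleGraph (Fin n) | ∃ e ∈ (eE G).filter (fun e => sy e ∈ P), ∃ e' ∈ (eE G)ᶜ,
        eE G' = insert e' ((eE G).erase e)} := by
    rintro G' ⟨h2, x, hxP, hxG, hxG'⟩
    rw [stp_iff] at h2
    obtain ⟨e, he, e', he', h3⟩ := exch (h2.2.1.trans h2.1.symm) h2.2.2
    obtain ⟨d, hd, hdG⟩ := sy_surj G hxG
    have hd' : d ∉ eE G' := by
      rw [← sy_mem, hd]
      exact hxG'
    have hde : d = e := by
      have h4 : d ∈ eE G \ eE G' := Finset.mem_sdiff.mpr ⟨hdG, hd'⟩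
      rw [h3, exch_sdiff he he', Finset.mem_singleton] at h4
      exact h4
    refine ⟨e, Finset.mem_filter.mpr ⟨he, ?_⟩, e', Finset.mem_compl.mpr he', h3⟩
    rw [← hde, hd]
    exact hxP
  refine (Set.ncard_le_ncard h1 (Set.toFinite _)).trans ((img_le _ _ _).trans ?_)
  rw [Finset.card_compl, hS]
  refine Nat.mul_le_mul_right _ ?_
  rw [← Finset.card_image_of_injective _ sy_inj, ← Set.ncard_coe_finset]
  refine Set.ncard_le_ncard ?_ (Set.toFinite _)
  intro x hx
  rw [Finset.mem_coe, Finset.mem_image] at hx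
  obtain ⟨e, he, rfl⟩ := hx
  rw [Finset.mem_filter] at he
  exact ⟨he.2, (sy_mem G e).mpr he.1⟩

lemma cnt_add {n M : ℕ} {G : SimpleGraph (Fin n)} (hG : G.edgeSet.ncard = M)
    (P : Set (Sym2 (Fin n))) :
    {G' : SimpleGraph (Fin n) | Stp M G G' ∧ ∃ e ∈ P, e ∉ G.edgeSet ∧ e ∈ G'.edgeSet}.ncard ≤
      (P \ G.edgeSet).ncard * M := by
  classical
  have hS : (eE G).card = M := by rw [← eE_card, hG]
  have h1 : {G' : SimpleGraph (Fin n) | Stp M G G' ∧ ∃ e ∈ P, e ∉ G.edgeSet ∧ e ∈ G'.edgeSet} ⊆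
      {G' : SimpleGraph (Fin n) | ∃ e ∈ eE G, ∃ e' ∈ ((eE G)ᶜ).filter (fun e => sy e ∈ P),
        eE G' = insert e' ((eE G).erase e)} := by
    rintro G' ⟨h2, x, hxP, hxG, hxG'⟩
    rw [stp_iff] at h2
    obtain ⟨e, he, e', he', h3⟩ := exch (h2.2.1.trans h2.1.symm) h2.2.2
    obtain ⟨d, hd, hdG⟩ := sy_surj G' hxG'
    have hd' : d ∉ eE G := by
      rw [← sy_mem, hd]
      exact hxG
    have hde : d = e' := by
      have h4 : d ∈ eE G' \ eE G := Finset.mem_sdiff.mpr ⟨hdG, hd'⟩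
      rw [h3, exch_sdiff' he', Finset.mem_singleton] at h4
      exact h4
    refine ⟨e, he, e', Finset.mem_filter.mpr ⟨Finset.mem_compl.mpr he', ?_⟩, h3⟩
    rw [← hde, hd]
    exact hxP
  refine (Set.ncard_le_ncard h1 (Set.toFinite _)).trans ((img_le _ _ _).trans ?_)
  rw [hS, mul_comm]
  refine Nat.mul_le_mul_right _ ?_
  rw [← Finset.card_image_of_injective _ sy_inj, ← Set.ncard_coe_finset]
  refine Set.ncard_le_ncard ?_ (Set.toFinite _)
  intro x hx
  rw [Finset.mem_coe, Finset.mem_image] at hx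
  obtain ⟨e, he, rfl⟩ := hx
  rw [Finset.mem_filter, Finset.mem_compl] at he
  exact ⟨he.2, fun h => he.1 ((sy_mem G e).mp h)⟩

open Classical in
private lemma sd_sum {n : ℕ} (A B : Finset (Fin n)) :
    sd A B = ∑ v : Fin n, if ¬ (v ∈ A ↔ v ∈ B) then 1 else 0 := by
  rw [← Finset.card_filter]
  unfold sd
  rw [← Finset.card_union_of_disjoint]
  · congr 1
    ext v
    simp only [Finset.mem_union, Finset.mem_sdiff, Finset.mem_filter, Finset.mem_univ, true_and]
    tauto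
  · rw [Finset.disjoint_left]
    intro v h1 h2
    rw [Finset.mem_sdiff] at h1 h2
    exact h1.2 h2.1

open Classical in
/-- the sum of the changes over all steps -/
private lemma sum_sd_le {n M : ℕ} (F : SimpleGraph (Fin n) → Finset (Fin n))
    (P : Fin n → SimpleGraph (Fin n) → Set (Sym2 (Fin n)))
    (hP : ∀ v G G', G.edgeSet.ncard = M → G'.edgeSet.ncard = M →
      (∀ e ∈ P v G, e ∈ G.edgeSet ↔ e ∈ G'.edgeSet) → (v ∈ F G ↔ v ∈ F G')) :
    ∑ p ∈ (univ : Finset (SimpleGraph (Fin n) × SimpleGraph (Fin n))).filter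
        (fun p => Stp M p.1 p.2), sd (F p.1) (F p.2) ≤
      ∑ G ∈ (univ : Finset (SimpleGraph (Fin n))).filter (fun G => G.edgeSet.ncard = M),
        ∑ v : Fin n, ((P v G ∩ G.edgeSet).ncard * (NN n - M) + (P v G \ G.edgeSet).ncard * M) := by
  rw [Finset.sum_filter, Fintype.sum_prod_type, Finset.sum_filter]
  refine Finset.sum_le_sum fun G _ => ?_
  by_cases hG : G.edgeSet.ncard = M
  · rw [if_pos hG]
    have h1 : ∑ G' : SimpleGraph (Fin n), (if Stp M G G' then sd (F G) (F G') else 0) =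
        ∑ v : Fin n, ∑ G' : SimpleGraph (Fin n),
          (if Stp M G G' ∧ ¬ (v ∈ F G ↔ v ∈ F G') then 1 else 0) := by
      rw [Finset.sum_comm]
      refine Finset.sum_congr rfl fun G' _ => ?_
      by_cases h : Stp M G G'
      · simp only [h, if_true, true_and]
        exact sd_sum _ _
      · simp only [h, if_false, false_and, Finset.sum_const_zero]
    simp only
    rw [h1]
    refine Finset.sum_le_sum fun v _ => ?_
    rw [← Finset.card_filter, ← ncard_filter]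
    refine (Set.ncard_le_ncard (t := {G' : SimpleGraph (Fin n) | Stp M G G' ∧
        ∃ e ∈ P v G, e ∈ G.edgeSet ∧ e ∉ G'.edgeSet} ∪
      {G' : SimpleGraph (Fin n) | Stp M G G' ∧
        ∃ e ∈ P v G, e ∉ G.edgeSet ∧ e ∈ G'.edgeSet}) ?_ (Set.toFinite _)).trans
      ((Set.ncard_union_le _ _).trans (Nat.add_le_add (cnt_rem hG _) (cnt_add hG _)))
    rintro G' ⟨h2, h3⟩
    have h4 : ¬ ∀ e ∈ P v G, e ∈ G.edgeSet ↔ e ∈ G'.edgeSet := fun h =>
      h3 (hP v G G' hG h2.2.1 h)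
    push Not at h4
    obtain ⟨e, he, h5⟩ := h4
    rcases h5 with h5 | h5
    · exact Or.inl ⟨h2, e, he, h5⟩
    · exact Or.inr ⟨h2, e, he, h5⟩
  · rw [if_neg hG]
    refine (Finset.sum_eq_zero fun G' _ => if_neg ?_).le
    exact fun h => hG h.1

open Classical in
/-- upper bound for the sum of the changes over all walks of one step -/
theorem cert_upper {n M : ℕ} (hM : 0 < M) (hN : M < NN n)
    (F : SimpleGraph (Fin n) → Finset (Fin n))
    (P : Fin n → SimpleGraph (Fin n) → Set (Sym2 (Fin n)))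
    (hP : ∀ v G G', G.edgeSet.ncard = M → G'.edgeSet.ncard = M →
      (∀ e ∈ P v G, e ∈ G.edgeSet ↔ e ∈ G'.edgeSet) → (v ∈ F G ↔ v ∈ F G')) :
    ∑ g ∈ (univ : Finset (Fin (1 + 1) → SimpleGraph (Fin n))).filter (fun g => g ∈ Walks n M 1),
        (sd (F (g 0)) (F (g 1)) : ℝ) ≤
      M * ((NN n : ℝ) - M) *
      ∑ G ∈ (univ : Finset (SimpleGraph (Fin n))).filter (fun G => G.edgeSet.ncard = M),
        ∑ v : Fin n, (((P v G ∩ G.edgeSet).ncard : ℝ) / M +
          ((P v G \ G.edgeSet).ncard : ℝ) / ((n.choose 2 : ℝ) - M)) := by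
  have h1 : ∑ g ∈ (univ : Finset (Fin (1 + 1) → SimpleGraph (Fin n))).filter
        (fun g => g ∈ Walks n M 1), (sd (F (g 0)) (F (g 1)) : ℝ) =
      ∑ p ∈ (univ : Finset (SimpleGraph (Fin n) × SimpleGraph (Fin n))).filter
        (fun p => Stp M p.1 p.2), (sd (F p.1) (F p.2) : ℝ) := by
    refine Finset.sum_nbij' (fun g => (g 0, g 1)) (fun p => ![p.1, p.2]) ?_ ?_ ?_ ?_ ?_
    · intro g hg
      rw [Finset.mem_filter] at hg ⊢
      exact ⟨Finset.mem_univ _, hg.2.1 0, hg.2.1 1, hg.2.2 0⟩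
    · intro p hp
      rw [Finset.mem_filter] at hp ⊢
      refine ⟨Finset.mem_univ _, ?_, ?_⟩
      · intro i
        fin_cases i
        · exact hp.2.1
        · exact hp.2.2.1
      · intro i
        fin_cases i
        exact hp.2.2.2
    · intro g _
      funext i
      fin_cases i
      · rfl
      · rfl
    · intro p _
      rfl
    · intro g _
      rfl
  have hup := sum_sd_le F P hP
  have e1 : ((NN n - M : ℕ) : ℝ) = (n.choose 2 : ℝ) - M := by
    rw [Nat.cast_sub hN.le, NN_eq]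
  have e2 := (Nat.cast_le (α := ℝ)).mpr hup
  push_cast [e1] at e2
  have hMpos : (0 : ℝ) < M := by exact_mod_cast hM
  have hNpos : (0 : ℝ) < (n.choose 2 : ℝ) - M := by
    rw [← NN_eq]
    have h2 : (M : ℝ) < NN n := by exact_mod_cast hN
    linarith
  rw [h1]
  refine e2.trans (le_of_eq ?_)
  rw [NN_eq, Finset.mul_sum]
  refine Finset.sum_congr rfl fun G _ => ?_
  rw [Finset.mul_sum]
  refine Finset.sum_congr rfl fun v _ => ?_
  field_simp

open Classical in
theorem cert {ε : ℝ} (hε : 0 < ε) : ∃ k0 : ℕ, ∀ k : ℕ, k0 ≤ k → ∃ n0 : ℕ, ∀ n : ℕ, n0 ≤ n →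
    ∀ (F : SimpleGraph (Fin n) → Finset (Fin n)) (P : Fin n → SimpleGraph (Fin n) → Set (Sym2 (Fin n))),
    (∀ v G G', G.edgeSet.ncard = Mk ε k n → G'.edgeSet.ncard = Mk ε k n →
      (∀ e ∈ P v G, e ∈ G.edgeSet ↔ e ∈ G'.edgeSet) → (v ∈ F G ↔ v ∈ F G')) →
    (1 - cc ε / 6 / k ^ 2) * ({G : SimpleGraph (Fin n) | G.edgeSet.ncard = Mk ε k n}.ncard : ℝ) ≤
      ({G : SimpleGraph (Fin n) | G.edgeSet.ncard = Mk ε k n ∧ Finds F k G}.ncard : ℝ) →
    (cc ε / 6) ^ 2 * (n / (k : ℝ) ^ 3) *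
        ({G : SimpleGraph (Fin n) | G.edgeSet.ncard = Mk ε k n}.ncard : ℝ) ≤
      ∑ G ∈ (univ : Finset (SimpleGraph (Fin n))).filter (fun G => G.edgeSet.ncard = Mk ε k n), ∑ v : Fin n,
        (((P v G ∩ G.edgeSet).ncard : ℝ) / Mk ε k n +
          ((P v G \ G.edgeSet).ncard : ℝ) / ((n.choose 2 : ℝ) - Mk ε k n)) := by
  obtain ⟨hc0, hc1⟩ := be_facts hε
  obtain ⟨k0, hk0⟩ := jump hε
  refine ⟨max k0 3, fun k hk => ?_⟩
  obtain ⟨n0, hn0⟩ := hk0 k ((le_max_left _ _).trans hk)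
  obtain ⟨n1, hn1⟩ := numA hε (k := k) ((le_max_right _ _).trans hk)
  refine ⟨max n0 n1, fun n hn F P hP hF => ?_⟩
  have hA := hn1 n ((le_max_right _ _).trans hn)
  have hj := hn0 n ((le_max_left _ _).trans hn) F hF
  have hk3 : (3 : ℝ) ≤ k := by exact_mod_cast hA.k2
  have hM1 : 1 ≤ Mk ε k n := by
    have : (1 : ℝ) ≤ Mk ε k n := by linarith [hA.M1]
    exact_mod_cast this
  have hMN := hA.MN
  have hw3 := walk_pairs (n := n) (M := Mk ε k n)
    (fun a b => cc ε / 6 * ((n : ℝ) / k) < sd (F a) (F b))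
  rw [hw3, walks_card] at hj
  have hup := sum_sd_le F P hP
  have hlow : cc ε / 6 * ((n : ℝ) / k) * (cnt (Mk ε k n)
      (fun a b => cc ε / 6 * ((n : ℝ) / k) < sd (F a) (F b)) : ℝ) ≤
      ∑ p ∈ (univ : Finset (SimpleGraph (Fin n) × SimpleGraph (Fin n))).filter
        (fun p => Stp (Mk ε k n) p.1 p.2), (sd (F p.1) (F p.2) : ℝ) := by
    unfold cnt
    rw [ncard_filter, mul_comm, ← nsmul_eq_mul]
    refine (Finset.card_nsmul_le_sum _ (fun p : SimpleGraph (Fin n) × SimpleGraph (Fin n) =>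
      (sd (F p.1) (F p.2) : ℝ)) _ ?_).trans ?_
    · intro p hp
      rw [Finset.mem_filter] at hp
      exact hp.2.2.le
    · refine Finset.sum_le_sum_of_subset_of_nonneg ?_ fun p _ _ => Nat.cast_nonneg _
      intro p hp
      rw [Finset.mem_filter] at hp ⊢
      exact ⟨hp.1, hp.2.1⟩
  have hup' : ∑ p ∈ (univ : Finset (SimpleGraph (Fin n) × SimpleGraph (Fin n))).filter
        (fun p => Stp (Mk ε k n) p.1 p.2), (sd (F p.1) (F p.2) : ℝ) ≤
      ∑ G ∈ (univ : Finset (SimpleGraph (Fin n))).filter (fun G => G.edgeSet.ncard = Mk ε k n),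
        ∑ v : Fin n, (((P v G ∩ G.edgeSet).ncard : ℝ) * ((n.choose 2 : ℝ) - Mk ε k n) +
          ((P v G \ G.edgeSet).ncard : ℝ) * Mk ε k n) := by
    have e1 : ((NN n - Mk ε k n : ℕ) : ℝ) = (n.choose 2 : ℝ) - Mk ε k n := by
      rw [Nat.cast_sub (by omega), NN_eq]
    have e2 := (Nat.cast_le (α := ℝ)).mpr hup
    push_cast [e1] at e2
    exact e2
  have hMpos : (0 : ℝ) < Mk ε k n := by exact_mod_cast hM1
  have hNpos : (0 : ℝ) < (n.choose 2 : ℝ) - Mk ε k n := by
    rw [← NN_eq]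
    have : Mk ε k n < NN n := by omega
    have h2 : (Mk ε k n : ℝ) < NN n := by exact_mod_cast this
    linarith
  have hDcast : ((Mk ε k n * (NN n - Mk ε k n) : ℕ) : ℝ) =
      Mk ε k n * ((n.choose 2 : ℝ) - Mk ε k n) := by
    rw [Nat.cast_mul, Nat.cast_sub (by omega), NN_eq]
  have hfac : ∑ G ∈ (univ : Finset (SimpleGraph (Fin n))).filter
        (fun G => G.edgeSet.ncard = Mk ε k n),
        ∑ v : Fin n, (((P v G ∩ G.edgeSet).ncard : ℝ) * ((n.choose 2 : ℝ) - Mk ε k n) +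
          ((P v G \ G.edgeSet).ncard : ℝ) * Mk ε k n) =
      (Mk ε k n * ((n.choose 2 : ℝ) - Mk ε k n)) *
      ∑ G ∈ (univ : Finset (SimpleGraph (Fin n))).filter (fun G => G.edgeSet.ncard = Mk ε k n),
        ∑ v : Fin n, (((P v G ∩ G.edgeSet).ncard : ℝ) / Mk ε k n +
          ((P v G \ G.edgeSet).ncard : ℝ) / ((n.choose 2 : ℝ) - Mk ε k n)) := by
    rw [Finset.mul_sum]
    refine Finset.sum_congr rfl fun G _ => ?_
    rw [Finset.mul_sum]
    refine Finset.sum_congr rfl fun v _ => ?_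
    field_simp
  rw [hfac] at hup'
  have hfin := hlow.trans hup'
  rw [Nat.cast_mul, hDcast] at hj
  have hcn : 0 ≤ cc ε / 6 * ((n : ℝ) / k) := by positivity
  have h1 := (mul_le_mul_of_nonneg_left hj hcn).trans hfin
  have hDpos : 0 < (Mk ε k n : ℝ) * ((n.choose 2 : ℝ) - Mk ε k n) := mul_pos hMpos hNpos
  refine le_of_mul_le_mul_left (le_trans (le_of_eq ?_) h1) hDpos
  have hk0' : (k : ℝ) ≠ 0 := by positivity
  field_simp

end Pool.Agent.INS
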