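import Pool.Agent.INS.Strong

/-! INS/CertF.  Certificates for every success probability. -/

set_option autoImplicit false

open Finset

namespace Pool.Agent.INS

variable {n M : ℕ}

open Classical in
/-- total cost of the certificates -/
noncomputable def Cost (M : ℕ) (P : Fin n → SimpleGraph (Fin n) → Set (Sym2 (Fin n))) : ℝ :=
  ∑ G ∈ (univ : Finset (SimpleGraph (Fin n))).filter (fun G => G.edgeSet.ncard = M), ∑ v : Fin n,
        (((P v G ∩ G.edgeSet).ncard : ℝ) / M +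
          ((P v G \ G.edgeSet).ncard : ℝ) / ((n.choose 2 : ℝ) - M))

open Classical in
theorem steps_sum (F : SimpleGraph (Fin n) → Finset (Fin n)) :
    ∑ x : SimpleGraph (Fin n), ∑ y : SimpleGraph (Fin n),
      (if Rn M x y then (sd (F x) (F y) : ℝ) else 0) =
      ∑ g ∈ (univ : Finset (Fin (1 + 1) → SimpleGraph (Fin n))).filter (fun g => g ∈ Walks n M 1),
        (sd (F (g 0)) (F (g 1)) : ℝ) := by
  rw [← Fintype.sum_prod_type', ← sum_filter]
  refine sum_nbij' (fun p => ![p.1, p.2]) (fun g => (g 0, g 1)) ?_ ?_ ?_ ?_ ?_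
  · intro p hp
    simp only [mem_filter, mem_univ, true_and] at hp ⊢
    refine ⟨fun i => ?_, fun i => ?_⟩
    · fin_cases i
      · exact hp.1
      · exact hp.2.1
    · fin_cases i
      exact hp.2.2
  · intro g hg
    simp only [mem_filter, mem_univ, true_and] at hg ⊢
    exact ⟨hg.1 0, hg.1 1, hg.2 0⟩
  · intro p _
    rfl
  · intro g _
    funext i
    fin_cases i
    · rfl
    · rfl
  · intro p _
    rfl

open Classical in
theorem cert_upper' (hM0 : 0 < M) (hMN : M < NN n) (F : SimpleGraph (Fin n) → Finset (Fin n))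
    (P : Fin n → SimpleGraph (Fin n) → Set (Sym2 (Fin n)))
    (hP : ∀ v G G', G.edgeSet.ncard = M → G'.edgeSet.ncard = M →
      (∀ e ∈ P v G, e ∈ G.edgeSet ↔ e ∈ G'.edgeSet) → (v ∈ F G ↔ v ∈ F G')) :
    ∑ x : SimpleGraph (Fin n), ∑ y : SimpleGraph (Fin n),
      (if Rn M x y then (sd (F x) (F y) : ℝ) else 0) ≤
      ((M * (NN n - M) : ℕ) : ℝ) * Cost M P := by
  have h1 := cert_upper hM0 hMN F P hP
  have h2 : ((M * (NN n - M) : ℕ) : ℝ) = M * ((NN n : ℝ) - M) := by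
    rw [Nat.cast_mul, Nat.cast_sub hMN.le]
  rw [h2, steps_sum]
  exact h1

theorem sd_self (A : Finset (Fin n)) : sd A A = 0 := by simp [sd]

theorem sd_tri (A B C : Finset (Fin n)) : sd A C ≤ sd A B + sd B C := by
  unfold sd
  have h1 : A \ C ⊆ (A \ B) ∪ (B \ C) := by
    intro x hx
    simp only [mem_sdiff, mem_union] at hx ⊢
    tauto
  have h2 : C \ A ⊆ (B \ A) ∪ (C \ B) := by
    intro x hx
    simp only [mem_sdiff, mem_union] at hx ⊢
    tauto
  have h3 := (card_le_card h1).trans (card_union_le _ _)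
  have h4 := (card_le_card h2).trans (card_union_le _ _)
  omega

open Classical in
/-- average sensitivity, for every success probability `p` and every even `m` -/
theorem avg_far {ε : ℝ} (hε : 0 < ε) : ∃ k0 : ℕ, ∀ k : ℕ, k0 ≤ k → ∃ n0 : ℕ, ∀ n : ℕ, n0 ≤ n →
    ∀ (F : SimpleGraph (Fin n) → Finset (Fin n)) (m : ℕ), Even m → 1 ≤ m → m ≤ Mk ε k n →
    cc ε * ((n : ℝ) / k) / m *
      ((({G : SimpleGraph (Fin n) | G.edgeSet.ncard = Mk ε k n ∧ Finds F k G}.ncard : ℝ) /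
        {G : SimpleGraph (Fin n) | G.edgeSet.ncard = Mk ε k n}.ncard) ^ 2 -
      Real.exp (-(cc ε * m / k ^ 2))) * (Walks n (Mk ε k n) 1).ncard ≤
      ∑ x : SimpleGraph (Fin n), ∑ y : SimpleGraph (Fin n),
        (if Rn (Mk ε k n) x y then (sd (F x) (F y) : ℝ) else 0) := by
  obtain ⟨k0, h⟩ := far hε
  have hcc : 0 < cc ε := by
    obtain ⟨h1, _, h3, _⟩ := be_pos hε
    have h4 : (0 : ℝ) < KK ε := by exact_mod_cast h3
    unfold cc
    apply lt_min h1
    positivity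
  refine ⟨max k0 3, fun k hk => ?_⟩
  obtain ⟨n0, h1⟩ := h k ((le_max_left _ _).trans hk)
  obtain ⟨n1, hn1⟩ := numA hε (k := k) ((le_max_right _ _).trans hk)
  refine ⟨max n0 n1, fun n hn F m hm hm1 hmM => ?_⟩
  have hA := hn1 n ((le_max_right _ _).trans hn)
  have h2 := h1 n ((le_max_left _ _).trans hn) F m hm hm1 hmM
  have hMN := hA.MN
  have hk3 : (3 : ℝ) ≤ k := by exact_mod_cast hA.k2
  have hM1 : 1 ≤ Mk ε k n := by
    have : (1 : ℝ) ≤ Mk ε k n := by linarith [hA.M1]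
    exact_mod_cast this
  set M := Mk ε k n with hM
  set D : ℕ := M * (NN n - M) with hD
  have hD1 : 0 < D := Nat.mul_pos hM1 (by omega)
  have hDp : (0 : ℝ) < D := by exact_mod_cast hD1
  have hmp : (0 : ℝ) < m := by exact_mod_cast hm1
  have h3 := walk_dist (R := Rn M) (V := Vn n M) Rn_symm Rn_left degree
    (fun x y => (sd (F x) (F y) : ℝ)) (fun x y z => by exact_mod_cast sd_tri _ _ _)
    (fun x => by rw [sd_self]; simp) m
  have h5 : cc ε * ((n : ℝ) / k) *
    ({g | g ∈ Walks n M m ∧ Finds F k (g 0) ∧ Finds F k (g (Fin.last m)) ∧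
        cc ε * ((n : ℝ) / k) < (sd (F (g 0)) (F (g (Fin.last m))) : ℝ)}.ncard : ℝ) ≤
      ∑ w : Fin (m + 1) → SimpleGraph (Fin n) with IsW (Rn M) m w ∧ w 0 ∈ Vn n M ∧
        w (Fin.last m) ∈ Vn n M, (sd (F (w 0)) (F (w (Fin.last m))) : ℝ) := by
    have e1 : {g | g ∈ Walks n M m ∧ Finds F k (g 0) ∧ Finds F k (g (Fin.last m)) ∧
        cc ε * ((n : ℝ) / k) < (sd (F (g 0)) (F (g (Fin.last m))) : ℝ)}.ncard =
        (univ.filter (fun g : Fin (m + 1) → SimpleGraph (Fin n) => g ∈ Walks n M m ∧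
          Finds F k (g 0) ∧ Finds F k (g (Fin.last m)) ∧
        cc ε * ((n : ℝ) / k) < (sd (F (g 0)) (F (g (Fin.last m))) : ℝ))).card := by
      rw [← Set.ncard_coe_finset]
      congr 1
      ext g
      simp
    rw [e1, mul_comm, ← nsmul_eq_mul]
    refine (card_nsmul_le_sum _ (fun w : Fin (m + 1) → SimpleGraph (Fin n) =>
      (sd (F (w 0)) (F (w (Fin.last m))) : ℝ)) _ ?_).trans ?_
    · intro g hg
      exact (mem_filter.mp hg).2.2.2.2.le
    · refine sum_le_sum_of_subset_of_nonneg ?_ fun p _ _ => Nat.cast_nonneg _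
      intro g hg
      rw [mem_filter] at hg ⊢
      exact ⟨hg.1, (walks_isW m g).mp hg.2.1⟩
  rw [walks_ncard, ← hD] at h2
  rw [← hD] at h3
  rw [walks_ncard, ← hD, pow_one]
  set p2 : ℝ := (({G : SimpleGraph (Fin n) | G.edgeSet.ncard = M ∧ Finds F k G}.ncard : ℝ) /
        {G : SimpleGraph (Fin n) | G.edgeSet.ncard = M}.ncard) ^ 2 -
      Real.exp (-(cc ε * m / k ^ 2)) with hp2
  set V : ℝ := ((Vn n M).card : ℝ) with hV
  have hx : 0 ≤ cc ε * ((n : ℝ) / k) := by positivity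
  have h6 := (mul_le_mul_of_nonneg_left h2 hx).trans h5
  have h7 := (mul_le_mul_of_nonneg_right h6 hDp.le).trans h3
  have hpos : 0 < m * (D : ℝ) ^ m := by positivity
  refine le_of_mul_le_mul_left (le_trans (le_of_eq ?_) h7) hpos
  field_simp

open Classical in
/-- certificates, for every success probability `p` and every even `m` -/
theorem cert_far {ε : ℝ} (hε : 0 < ε) : ∃ k0 : ℕ, ∀ k : ℕ, k0 ≤ k → ∃ n0 : ℕ, ∀ n : ℕ, n0 ≤ n →
    ∀ (F : SimpleGraph (Fin n) → Finset (Fin n)) (P : Fin n → SimpleGraph (Fin n) → Set (Sym2 (Fin n))),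
    (∀ v G G', G.edgeSet.ncard = Mk ε k n → G'.edgeSet.ncard = Mk ε k n →
      (∀ e ∈ P v G, e ∈ G.edgeSet ↔ e ∈ G'.edgeSet) → (v ∈ F G ↔ v ∈ F G')) →
    ∀ m : ℕ, Even m → 1 ≤ m → m ≤ Mk ε k n →
    cc ε * ((n : ℝ) / k) / m *
      (((({G : SimpleGraph (Fin n) | G.edgeSet.ncard = Mk ε k n ∧ Finds F k G}.ncard : ℝ) /
        {G : SimpleGraph (Fin n) | G.edgeSet.ncard = Mk ε k n}.ncard) ^ 2 -
      Real.exp (-(cc ε * m / k ^ 2))) *
        ({G : SimpleGraph (Fin n) | G.edgeSet.ncard = Mk ε k n}.ncard : ℝ)) ≤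
      Cost (Mk ε k n) P := by
  obtain ⟨k0, h⟩ := avg_far hε
  refine ⟨max k0 3, fun k hk => ?_⟩
  obtain ⟨n0, h1⟩ := h k ((le_max_left _ _).trans hk)
  obtain ⟨n1, hn1⟩ := numA hε (k := k) ((le_max_right _ _).trans hk)
  refine ⟨max n0 n1, fun n hn F P hP m hm hm1 hmM => ?_⟩
  have hA := hn1 n ((le_max_right _ _).trans hn)
  have h2 := h1 n ((le_max_left _ _).trans hn) F m hm hm1 hmM
  have hMN := hA.MN
  have hM1 : 1 ≤ Mk ε k n := by
    have : (1 : ℝ) ≤ Mk ε k n := by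
      have hk3 : (3 : ℝ) ≤ k := by exact_mod_cast hA.k2
      linarith [hA.M1]
    exact_mod_cast this
  have h4 := h2.trans (cert_upper' hM1 (by omega) F P hP)
  have hVn : {G : SimpleGraph (Fin n) | G.edgeSet.ncard = Mk ε k n}.ncard = (Vn n (Mk ε k n)).card := by
    rw [← Set.ncard_coe_finset]
    congr 1
    ext G
    simp [Vn]
  rw [walks_ncard, pow_one, ← hVn] at h4
  set D : ℕ := Mk ε k n * (NN n - Mk ε k n) with hD
  have hD1 : 0 < D := Nat.mul_pos hM1 (by omega)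
  have hDp : (0 : ℝ) < D := by exact_mod_cast hD1
  refine le_of_mul_le_mul_left (le_trans (le_of_eq ?_) h4) hDp
  ring

end Pool.Agent.INS
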