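import Pool.Agent.INS.Pin
import Pool.Agent.INS.CurL

/-! INS/Dec.  Decorrelation: a small set of vertices determined by the past has no large stable subset later.

Proof: the values split into those drawn before the time `s` and the others; for fixed values before `s` the set `U X` is
fixed, one sums over its subsets with exactly `j0` elements and uses that at least `m` of the later values have to avoid
the pairs inside the subset. -/

set_option autoImplicit false

open Finset

namespace Pool.Agent.INS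

variable {n M τ : ℕ}


private theorem real_bd (N C k r m : ℕ) (hC : C ≤ N) (hm : m ≤ k) :
    (((N - C) ^ k * N ^ r : ℕ) : ℝ) ≤ (N : ℝ) ^ (k + r) * Real.exp (-((m : ℝ) / N) * (C : ℝ)) := by
  rcases Nat.eq_zero_or_pos N with h0 | hpos
  · subst h0
    have hC0 : C = 0 := by omega
    subst hC0
    simp [pow_add]
  · have hN : (0 : ℝ) < N := by exact_mod_cast hpos
    have h1 : (((N - C : ℕ) : ℝ)) = (N : ℝ) * (1 - C / N) := by
      rw [Nat.cast_sub hC]; field_simp
    have h2 : (1 : ℝ) - C / N ≤ Real.exp (-((C : ℝ) / N)) := by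
      have := Real.add_one_le_exp (-((C : ℝ) / N))
      linarith
    have h3 : (0 : ℝ) ≤ 1 - C / N := by
      have : (C : ℝ) / N ≤ 1 := by
        rw [div_le_one hN]; exact_mod_cast hC
      linarith
    have h4 : ((1 : ℝ) - C / N) ^ k ≤ Real.exp (-((m : ℝ) / N) * (C : ℝ)) := by
      calc ((1 : ℝ) - C / N) ^ k ≤ (Real.exp (-((C : ℝ) / N))) ^ k := pow_le_pow_left₀ h3 h2 k
        _ ≤ (Real.exp (-((C : ℝ) / N))) ^ m := by
            apply pow_le_pow_of_le_one (Real.exp_pos _).le _ hm
            apply Real.exp_le_one_iff.2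
            have : (0 : ℝ) ≤ (C : ℝ) / N := by positivity
            linarith
        _ = Real.exp (-((m : ℝ) / N) * (C : ℝ)) := by
            rw [← Real.exp_nat_mul]; congr 1; ring
    push_cast
    rw [h1, mul_pow, pow_add]
    have h5 : (0 : ℝ) ≤ (N : ℝ) ^ k * (N : ℝ) ^ r := by positivity
    calc (N : ℝ) ^ k * (1 - C / N) ^ k * (N : ℝ) ^ r = ((N : ℝ) ^ k * (N : ℝ) ^ r) * (1 - C / N) ^ k := by ring
      _ ≤ ((N : ℝ) ^ k * (N : ℝ) ^ r) * Real.exp (-((m : ℝ) / N) * (C : ℝ)) :=
          mul_le_mul_of_nonneg_left h4 h5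

open Classical in
/-- functions avoiding `pin J` on `T` -/
private theorem avoid_card {α : Type} [Fintype α] [DecidableEq α] (T : Finset α) (J : Finset (Fin n))
    [DecidablePred (fun c : α → Pr n => ∀ a ∈ T, c a ∉ pin J)] (m : ℕ) (hm : m ≤ T.card) :
    ((univ.filter (fun c : α → Pr n => ∀ a ∈ T, c a ∉ pin J)).card : ℝ) ≤
      (NN n : ℝ) ^ (Fintype.card α) * Real.exp (-((m : ℝ) / NN n) * (J.card.choose 2 : ℝ)) := by
  have h1 : (univ.filter (fun c : α → Pr n => ∀ a ∈ T, c a ∉ pin J)) =
      Fintype.piFinset (fun a : α => if a ∈ T then (pin J)ᶜ else (univ : Finset (Pr n))) := by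
    ext c
    simp only [mem_filter, mem_univ, true_and, Fintype.mem_piFinset]
    constructor
    · intro h a
      by_cases ha : a ∈ T
      · rw [if_pos ha, mem_compl]; exact h a ha
      · rw [if_neg ha]; exact mem_univ _
    · intro h a ha
      have := h a
      rw [if_pos ha, mem_compl] at this
      exact this
  have h2 : (Fintype.piFinset (fun a : α => if a ∈ T then (pin J)ᶜ else (univ : Finset (Pr n)))).card =
      (NN n - J.card.choose 2) ^ T.card * (NN n) ^ (Tᶜ).card := by
    rw [Fintype.card_piFinset]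
    have h3 : ∀ a : α, (if a ∈ T then (pin J)ᶜ else (univ : Finset (Pr n))).card =
        if a ∈ T then NN n - J.card.choose 2 else NN n := by
      intro a
      split_ifs
      · rw [card_compl, card_pin]
      · exact card_univ
    rw [prod_congr rfl (fun a _ => h3 a), prod_ite, prod_const, prod_const]
    congr 2
    · congr 1
      ext a; simp
    · congr 1
      ext a; simp
  rw [h1, h2]
  have h4 : J.card.choose 2 ≤ NN n := by
    rw [← card_pin]; exact card_le_univ _
  have h5 := real_bd (NN n) (J.card.choose 2) T.card (Tᶜ).card m h4 hm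
  have h6 : T.card + (Tᶜ).card = Fintype.card α := card_add_card_compl T
  rw [h6] at h5
  exact h5

open Classical in
theorem dec (idx : Fin τ → Fin M) {s w s' : ℕ} (hs : s + w ≤ s') (U : Val n M τ → Finset (Fin n))
    (hU : ∀ X Y : Val n M τ, (∀ a, Bef s a → X a = Y a) → U X = U Y) (u j0 m : ℕ)
    (hm : m ≤ (upd idx s w).card) :
    ((univ.filter (fun X : Val n M τ => (U X).card ≤ u ∧
      ∃ J ⊆ U X, j0 ≤ J.card ∧ St (vs idx X s') J)).card : ℝ) ≤
      (NN n : ℝ) ^ (M + τ) * (2 ^ u * Real.exp (-((m : ℝ) / NN n) * (j0.choose 2 : ℝ))) := by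
  set e := Equiv.piEquivPiSubtypeProd (Bef (M := M) (τ := τ) s) (fun _ => Pr n) with he
  set P : Val n M τ → Prop := fun X => (U X).card ≤ u ∧
      ∃ J ⊆ U X, j0 ≤ J.card ∧ St (vs idx X s') J with hP
  set q : ℝ := Real.exp (-((m : ℝ) / NN n) * (j0.choose 2 : ℝ)) with hq
  have hq0 : 0 ≤ q := (Real.exp_pos _).le
  set N2 : ℕ := Fintype.card {a : Fin M ⊕ Fin τ // ¬ Bef s a} with hN2
  -- later values
  set T : Finset {a : Fin M ⊕ Fin τ // ¬ Bef s a} :=
    (upd idx s w).attach.image (fun i => ⟨cur idx s' i.1, cur_fresh idx i.2 hs⟩) with hT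
  have hTc : m ≤ T.card := by
    rw [hT, card_image_of_injective, card_attach]
    · exact hm
    · intro i j hij
      apply Subtype.ext
      exact cur_inj idx s' (congrArg Subtype.val hij)
  have hTm : ∀ a ∈ T, ∃ i : Fin M, cur idx s' i = a.1 := by
    intro a ha
    rw [hT, mem_image] at ha
    obtain ⟨i, -, hi⟩ := ha
    exact ⟨i.1, congrArg Subtype.val hi⟩
  have hlow : ∀ (b : (i : {a : Fin M ⊕ Fin τ // Bef s a}) → Pr n)
      (c : (i : {a : Fin M ⊕ Fin τ // ¬ Bef s a}) → Pr n) (a : Fin M ⊕ Fin τ) (h : Bef s a),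
      e.symm (b, c) a = b ⟨a, h⟩ := by
    intro b c a h
    rw [he, Equiv.piEquivPiSubtypeProd_symm_apply]
    exact dif_pos h
  have hhigh : ∀ (b : (i : {a : Fin M ⊕ Fin τ // Bef s a}) → Pr n)
      (c : (i : {a : Fin M ⊕ Fin τ // ¬ Bef s a}) → Pr n) (a : {a : Fin M ⊕ Fin τ // ¬ Bef s a}),
      e.symm (b, c) a.1 = c a := by
    intro b c a
    rw [he, Equiv.piEquivPiSubtypeProd_symm_apply]
    exact dif_neg a.2
  -- one fibre
  have hfib : ∀ b : (i : {a : Fin M ⊕ Fin τ // Bef s a}) → Pr n,
      ((univ.filter (fun c => P (e.symm (b, c)))).card : ℝ) ≤ 2 ^ u * ((NN n : ℝ) ^ N2 * q) := by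
    intro b
    have hR0 : (0 : ℝ) ≤ 2 ^ u * ((NN n : ℝ) ^ N2 * q) := by positivity
    rcases (univ.filter (fun c => P (e.symm (b, c)))).eq_empty_or_nonempty with hemp | ⟨c0, hc0⟩
    · rw [hemp]; simpa using hR0
    · have hc0' : P (e.symm (b, c0)) := (mem_filter.1 hc0).2
      set U0 := U (e.symm (b, c0)) with hU0
      have hUc : ∀ c, U (e.symm (b, c)) = U0 := by
        intro c
        apply hU
        intro a ha
        rw [hlow b c a ha, hlow b c0 a ha]
      have hsub : (univ.filter (fun c => P (e.symm (b, c)))) ⊆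
          (powersetCard j0 U0).biUnion
            (fun J => univ.filter (fun c : {a : Fin M ⊕ Fin τ // ¬ Bef s a} → Pr n => ∀ a ∈ T, c a ∉ pin J)) := by
        intro c hc
        obtain ⟨-, hc1, J, hJ, hj, hSt⟩ := mem_filter.1 hc
        rw [hUc] at hJ
        obtain ⟨J', hJ', hcard⟩ := exists_subset_card_eq hj
        rw [mem_biUnion]
        refine ⟨J', mem_powersetCard.2 ⟨hJ'.trans hJ, hcard⟩, ?_⟩
        rw [mem_filter]
        refine ⟨mem_univ _, ?_⟩
        intro a ha hmem
        obtain ⟨i, hi⟩ := hTm a ha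
        apply hSt i
        apply pin_mono hJ'
        have h1 : vs idx (e.symm (b, c)) s' i = c a := by
          rw [← hhigh b c a]
          change e.symm (b, c) (cur idx s' i) = _
          rw [hi]
        rw [h1]
        exact hmem
      calc ((univ.filter (fun c => P (e.symm (b, c)))).card : ℝ)
          ≤ (((powersetCard j0 U0).biUnion
            (fun J => univ.filter (fun c : {a : Fin M ⊕ Fin τ // ¬ Bef s a} → Pr n => ∀ a ∈ T, c a ∉ pin J))).card : ℝ) := by
            exact_mod_cast card_le_card hsub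
        _ ≤ ((∑ J ∈ powersetCard j0 U0,
            (univ.filter (fun c : {a : Fin M ⊕ Fin τ // ¬ Bef s a} → Pr n => ∀ a ∈ T, c a ∉ pin J)).card : ℕ) : ℝ) := by
            exact_mod_cast card_biUnion_le
        _ = ∑ J ∈ powersetCard j0 U0,
            ((univ.filter (fun c : {a : Fin M ⊕ Fin τ // ¬ Bef s a} → Pr n => ∀ a ∈ T, c a ∉ pin J)).card : ℝ) := by
            push_cast; rfl
        _ ≤ ∑ J ∈ powersetCard j0 U0, ((NN n : ℝ) ^ N2 * q) := by
            apply sum_le_sum
            intro J hJ
            have h2 := avoid_card T J m hTc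
            rw [(mem_powersetCard.1 hJ).2] at h2
            exact h2.trans_eq rfl
        _ = ((powersetCard j0 U0).card : ℝ) * ((NN n : ℝ) ^ N2 * q) := by
            rw [sum_const, nsmul_eq_mul]
        _ ≤ 2 ^ u * ((NN n : ℝ) ^ N2 * q) := by
            apply mul_le_mul_of_nonneg_right _ (by positivity)
            have h3 : (powersetCard j0 U0).card ≤ 2 ^ u := by
              calc (powersetCard j0 U0).card ≤ U0.powerset.card := by
                    apply card_le_card
                    intro J hJ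
                    exact mem_powerset.2 (mem_powersetCard.1 hJ).1
                _ = 2 ^ U0.card := card_powerset _
                _ ≤ 2 ^ u := Nat.pow_le_pow_right (by norm_num) hc0'.1
            exact_mod_cast h3
  -- all fibres
  have hsplit : ((univ.filter (fun X : Val n M τ => P X)).card : ℝ) =
      ∑ b : (i : {a : Fin M ⊕ Fin τ // Bef s a}) → Pr n,
        ((univ.filter (fun c => P (e.symm (b, c)))).card : ℝ) := by
    rw [card_filter]
    push_cast
    rw [← Equiv.sum_comp e.symm, Fintype.sum_prod_type]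
    apply sum_congr rfl
    intro b _
    rw [card_filter]
    push_cast
    rfl
  have hcardV : (NN n : ℝ) ^ (M + τ) =
      (Fintype.card ((i : {a : Fin M ⊕ Fin τ // Bef s a}) → Pr n) : ℝ) * (NN n : ℝ) ^ N2 := by
    have h1 : Fintype.card (Val n M τ) = NN n ^ (M + τ) := by
      rw [Fintype.card_fun, Fintype.card_sum, Fintype.card_fin, Fintype.card_fin]
    have h2 := Fintype.card_congr e
    rw [Fintype.card_prod] at h2
    have h3 : Fintype.card ((i : {a : Fin M ⊕ Fin τ // ¬ Bef s a}) → Pr n) = NN n ^ N2 := Fintype.card_fun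
    rw [h3] at h2
    have h4 : NN n ^ (M + τ) = Fintype.card ((i : {a : Fin M ⊕ Fin τ // Bef s a}) → Pr n) * NN n ^ N2 := by
      rw [← h1]; exact h2
    exact_mod_cast h4
  calc ((univ.filter (fun X : Val n M τ => (U X).card ≤ u ∧
      ∃ J ⊆ U X, j0 ≤ J.card ∧ St (vs idx X s') J)).card : ℝ)
      = ∑ b : (i : {a : Fin M ⊕ Fin τ // Bef s a}) → Pr n,
        ((univ.filter (fun c => P (e.symm (b, c)))).card : ℝ) := hsplit
    _ ≤ ∑ b : (i : {a : Fin M ⊕ Fin τ // Bef s a}) → Pr n, 2 ^ u * ((NN n : ℝ) ^ N2 * q) :=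
        sum_le_sum (fun b _ => hfib b)
    _ = (NN n : ℝ) ^ (M + τ) * (2 ^ u * q) := by
        rw [sum_const, nsmul_eq_mul, card_univ, hcardV]; ring

end Pool.Agent.INS
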