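import Pool.Agent.INS.Avoid

/-! INS/Ogp.  Union bound over the sequences of stable sets, each with a new part of size between `h` and `2h`.

PLAN (`ogp`).  Claim for lists `l` (pairs (time, set), last first) of length `j + 1 ≤ K + 1` and `r = K - j`: the number of the `X` for
which all members of `l` are stable at their times and which have an extension by `r` further sets (times `s (j+1), ..., s K`) as in the
statement is at most `NN^(M+τ) exp (-(M/NN) Qsum l) R^r`, provided `#(UU l) ≤ (j + 1) v`.  Induction on `r`: `r = 0` is `avoid`; step: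
union over the next set `I` (hypothesis `hR` with `U = UU l`, `Qsum ((s (j+1), I) :: l) = #(Qs I (UU l)) + Qsum l`).  Then sum over
`I 0` (`Qsum [(s 0, I 0)] ≥ 0`).
-/

set_option autoImplicit false

open Finset

namespace Pool.Agent.INS

variable {n M τ : ℕ}

/-- extensions of `l` by `r` further sets -/
private def Ext (idx : Fin τ → Fin M) (s : ℕ → ℕ) (K v : ℕ) (x h : ℝ) (X : Val n M τ) :
    ℕ → List (ℕ × Finset (Fin n)) → Prop
  | 0, l => ∀ p ∈ l, St (vs idx X p.1) p.2
  | r + 1, l => ∃ I : Finset (Fin n), (I.card ≤ v ∧ x ≤ (I.card : ℝ) ∧ h ≤ ((I \ UU l).card : ℝ) ∧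
      ((I \ UU l).card : ℝ) < 2 * h) ∧ Ext idx s K v x h X r ((s (K - r), I) :: l)

open Classical in
private theorem ext_bound (idx : Fin τ → Fin M) (s : ℕ → ℕ) (K v : ℕ) {x h R : ℝ} (hR0 : 0 ≤ R)
    (hR : ∀ U : Finset (Fin n), U.card ≤ K * v →
      ∑ I ∈ (univ : Finset (Finset (Fin n))).filter (fun I => x ≤ (I.card : ℝ) ∧
        h ≤ ((I \ U).card : ℝ) ∧ ((I \ U).card : ℝ) < 2 * h),
        Real.exp (-((M : ℝ) / NN n) * (Qs I U).card) ≤ R) :
    ∀ r ≤ K, ∀ l : List (ℕ × Finset (Fin n)), (UU l).card ≤ (K + 1 - r) * v →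
      ((univ.filter (fun X : Val n M τ => Ext idx s K v x h X r l)).card : ℝ) ≤
        (NN n : ℝ) ^ (M + τ) * Real.exp (-((M : ℝ) / NN n) * Qsum l) * R ^ r := by
  intro r
  induction r with
  | zero =>
    intro _ l _
    rw [pow_zero, mul_one]
    simp only [Ext]
    exact avoid idx l
  | succ r ih =>
    intro hr l hl
    have hl' : (UU l).card ≤ K * v := by
      refine hl.trans (Nat.mul_le_mul_right v ?_)
      omega
    have hsub : (univ.filter (fun X : Val n M τ => Ext idx s K v x h X (r + 1) l)) ⊆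
        ((univ : Finset (Finset (Fin n))).filter (fun I => I.card ≤ v ∧ x ≤ (I.card : ℝ) ∧
          h ≤ ((I \ UU l).card : ℝ) ∧ ((I \ UU l).card : ℝ) < 2 * h)).biUnion
        (fun I => univ.filter (fun X : Val n M τ => Ext idx s K v x h X r ((s (K - r), I) :: l))) := by
      intro X hX
      obtain ⟨I, hI, hE⟩ := (Finset.mem_filter.mp hX).2
      rw [Finset.mem_biUnion]
      exact ⟨I, Finset.mem_filter.mpr ⟨Finset.mem_univ _, hI⟩,
        Finset.mem_filter.mpr ⟨Finset.mem_univ _, hE⟩⟩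
    have hNR : 0 ≤ (NN n : ℝ) ^ (M + τ) * Real.exp (-((M : ℝ) / NN n) * Qsum l) * R ^ r := by
      positivity
    calc ((univ.filter (fun X : Val n M τ => Ext idx s K v x h X (r + 1) l)).card : ℝ)
        ≤ ((((univ : Finset (Finset (Fin n))).filter (fun I => I.card ≤ v ∧ x ≤ (I.card : ℝ) ∧
          h ≤ ((I \ UU l).card : ℝ) ∧ ((I \ UU l).card : ℝ) < 2 * h)).biUnion
          (fun I => univ.filter
            (fun X : Val n M τ => Ext idx s K v x h X r ((s (K - r), I) :: l)))).card : ℝ) := by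
          exact_mod_cast Finset.card_le_card hsub
      _ ≤ ∑ I ∈ (univ : Finset (Finset (Fin n))).filter (fun I => I.card ≤ v ∧ x ≤ (I.card : ℝ) ∧
          h ≤ ((I \ UU l).card : ℝ) ∧ ((I \ UU l).card : ℝ) < 2 * h),
          ((univ.filter
            (fun X : Val n M τ => Ext idx s K v x h X r ((s (K - r), I) :: l))).card : ℝ) := by
          exact_mod_cast Finset.card_biUnion_le
      _ ≤ ∑ I ∈ (univ : Finset (Finset (Fin n))).filter (fun I => I.card ≤ v ∧ x ≤ (I.card : ℝ) ∧
          h ≤ ((I \ UU l).card : ℝ) ∧ ((I \ UU l).card : ℝ) < 2 * h),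
          ((NN n : ℝ) ^ (M + τ) * Real.exp (-((M : ℝ) / NN n) * Qsum l) * R ^ r) *
            Real.exp (-((M : ℝ) / NN n) * (Qs I (UU l)).card) := by
          apply Finset.sum_le_sum
          intro I hI
          have hIv : I.card ≤ v := (Finset.mem_filter.mp hI).2.1
          have hU : (UU ((s (K - r), I) :: l)).card ≤ (K + 1 - r) * v := by
            rw [UU]
            refine (Finset.card_union_le _ _).trans ?_
            have h1 : K + 1 - r = (K + 1 - (r + 1)) + 1 := by omega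
            have h2 : (K + 1 - r) * v = (K + 1 - (r + 1)) * v + v := by
              rw [h1, Nat.add_mul, Nat.one_mul]
            show I.card + (UU l).card ≤ _
            rw [h2]
            omega
          refine (ih (by omega) _ hU).trans (le_of_eq ?_)
          rw [Qsum]
          push_cast
          rw [mul_add, Real.exp_add]
          ring
      _ = ((NN n : ℝ) ^ (M + τ) * Real.exp (-((M : ℝ) / NN n) * Qsum l) * R ^ r) *
          ∑ I ∈ (univ : Finset (Finset (Fin n))).filter (fun I => I.card ≤ v ∧ x ≤ (I.card : ℝ) ∧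
          h ≤ ((I \ UU l).card : ℝ) ∧ ((I \ UU l).card : ℝ) < 2 * h),
            Real.exp (-((M : ℝ) / NN n) * (Qs I (UU l)).card) := by
          rw [Finset.mul_sum]
      _ ≤ ((NN n : ℝ) ^ (M + τ) * Real.exp (-((M : ℝ) / NN n) * Qsum l) * R ^ r) * R := by
          apply mul_le_mul_of_nonneg_left _ hNR
          refine le_trans ?_ (hR (UU l) hl')
          apply Finset.sum_le_sum_of_subset_of_nonneg
          · intro I hI
            have := (Finset.mem_filter.mp hI).2.2
            exact Finset.mem_filter.mpr ⟨Finset.mem_univ _, this⟩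
          · intro I _ _
            exact (Real.exp_pos _).le
      _ = (NN n : ℝ) ^ (M + τ) * Real.exp (-((M : ℝ) / NN n) * Qsum l) * R ^ (r + 1) := by
          rw [pow_succ]
          ring

/-- the list of the first sets -/
private def LL (s : ℕ → ℕ) (I : ℕ → Finset (Fin n)) : ℕ → List (ℕ × Finset (Fin n))
  | 0 => [(s 0, I 0)]
  | j + 1 => (s (j + 1), I (j + 1)) :: LL s I j

private theorem UU_LL (s : ℕ → ℕ) (I : ℕ → Finset (Fin n)) (j : ℕ) :
    UU (LL s I j) = (range (j + 1)).biUnion I := by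
  induction j with
  | zero => simp [LL, UU]
  | succ j ih =>
    rw [LL, UU, ih, Finset.range_add_one (n := j + 1), Finset.biUnion_insert]

private theorem LL_mem (s : ℕ → ℕ) (I : ℕ → Finset (Fin n)) (j : ℕ) :
    ∀ p ∈ LL s I j, ∃ i ≤ j, p = (s i, I i) := by
  induction j with
  | zero =>
    intro p hp
    rw [LL, List.mem_singleton] at hp
    exact ⟨0, le_rfl, hp⟩
  | succ j ih =>
    intro p hp
    rw [LL, List.mem_cons] at hp
    rcases hp with hp | hp
    · exact ⟨j + 1, le_rfl, hp⟩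
    · obtain ⟨i, hi, h2⟩ := ih p hp
      exact ⟨i, by omega, h2⟩

private theorem ext_of (idx : Fin τ → Fin M) (s : ℕ → ℕ) (K v : ℕ) {x h : ℝ} (X : Val n M τ)
    (I : ℕ → Finset (Fin n))
    (h1 : ∀ ℓ ≤ K, (I ℓ).card ≤ v ∧ x ≤ ((I ℓ).card : ℝ) ∧ St (vs idx X (s ℓ)) (I ℓ))
    (h2 : ∀ ℓ < K, h ≤ ((I (ℓ + 1) \ (range (ℓ + 1)).biUnion I).card : ℝ) ∧
        ((I (ℓ + 1) \ (range (ℓ + 1)).biUnion I).card : ℝ) < 2 * h) :
    ∀ r ≤ K, Ext idx s K v x h X r (LL s I (K - r)) := by
  intro r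
  induction r with
  | zero =>
    intro _
    rw [Ext]
    intro p hp
    obtain ⟨i, hi, rfl⟩ := LL_mem s I _ p hp
    exact (h1 i (by omega)).2.2
  | succ r ih =>
    intro hr
    obtain ⟨j, hj⟩ : ∃ j, K - (r + 1) = j := ⟨_, rfl⟩
    have hj1 : K - r = j + 1 := by omega
    have h3 := ih (by omega)
    rw [hj1, LL] at h3
    rw [hj, Ext]
    refine ⟨I (j + 1), ⟨(h1 (j + 1) (by omega)).1, (h1 (j + 1) (by omega)).2.1, ?_, ?_⟩, ?_⟩
    · rw [UU_LL]
      exact (h2 j (by omega)).1
    · rw [UU_LL]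
      exact (h2 j (by omega)).2
    · rw [hj1]
      exact h3

open Classical in
theorem ogp (idx : Fin τ → Fin M) (s : ℕ → ℕ) (K v : ℕ) {x h R : ℝ} (hR0 : 0 ≤ R)
    (hR : ∀ U : Finset (Fin n), U.card ≤ K * v →
      ∑ I ∈ (univ : Finset (Finset (Fin n))).filter (fun I => x ≤ (I.card : ℝ) ∧
        h ≤ ((I \ U).card : ℝ) ∧ ((I \ U).card : ℝ) < 2 * h),
        Real.exp (-((M : ℝ) / NN n) * (Qs I U).card) ≤ R) :
    ((univ.filter (fun X : Val n M τ => ∃ I : ℕ → Finset (Fin n),
      (∀ ℓ ≤ K, (I ℓ).card ≤ v ∧ x ≤ ((I ℓ).card : ℝ) ∧ St (vs idx X (s ℓ)) (I ℓ)) ∧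
      ∀ ℓ < K, h ≤ ((I (ℓ + 1) \ (range (ℓ + 1)).biUnion I).card : ℝ) ∧
        ((I (ℓ + 1) \ (range (ℓ + 1)).biUnion I).card : ℝ) < 2 * h)).card : ℝ) ≤
      (NN n : ℝ) ^ (M + τ) * (((univ : Finset (Finset (Fin n))).filter
        (fun I => I.card ≤ v)).card * R ^ K) := by
  have hsub : (univ.filter (fun X : Val n M τ => ∃ I : ℕ → Finset (Fin n),
      (∀ ℓ ≤ K, (I ℓ).card ≤ v ∧ x ≤ ((I ℓ).card : ℝ) ∧ St (vs idx X (s ℓ)) (I ℓ)) ∧
      ∀ ℓ < K, h ≤ ((I (ℓ + 1) \ (range (ℓ + 1)).biUnion I).card : ℝ) ∧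
        ((I (ℓ + 1) \ (range (ℓ + 1)).biUnion I).card : ℝ) < 2 * h)) ⊆
      ((univ : Finset (Finset (Fin n))).filter (fun I => I.card ≤ v)).biUnion
        (fun I => univ.filter (fun X : Val n M τ => Ext idx s K v x h X K [(s 0, I)])) := by
    intro X hX
    obtain ⟨I, h1, h2⟩ := (Finset.mem_filter.mp hX).2
    rw [Finset.mem_biUnion]
    refine ⟨I 0, Finset.mem_filter.mpr ⟨Finset.mem_univ _, (h1 0 (Nat.zero_le _)).1⟩,
      Finset.mem_filter.mpr ⟨Finset.mem_univ _, ?_⟩⟩
    have h3 := ext_of idx s K v X I h1 h2 K le_rfl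
    rw [Nat.sub_self, LL] at h3
    exact h3
  calc _ ≤ ((((univ : Finset (Finset (Fin n))).filter (fun I => I.card ≤ v)).biUnion
        (fun I => univ.filter (fun X : Val n M τ => Ext idx s K v x h X K [(s 0, I)]))).card : ℝ) := by
        exact_mod_cast Finset.card_le_card hsub
    _ ≤ ∑ I ∈ (univ : Finset (Finset (Fin n))).filter (fun I => I.card ≤ v),
        ((univ.filter (fun X : Val n M τ => Ext idx s K v x h X K [(s 0, I)])).card : ℝ) := by
        exact_mod_cast Finset.card_biUnion_le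
    _ ≤ ∑ I ∈ (univ : Finset (Finset (Fin n))).filter (fun I => I.card ≤ v),
        (NN n : ℝ) ^ (M + τ) * R ^ K := by
        apply Finset.sum_le_sum
        intro I hI
        have hIv : I.card ≤ v := (Finset.mem_filter.mp hI).2
        have hU : (UU [((s 0, I) : ℕ × Finset (Fin n))]).card ≤ (K + 1 - K) * v := by
          have h1 : K + 1 - K = 1 := by omega
          rw [h1, UU, UU, Finset.union_empty, Nat.one_mul]
          exact hIv
        refine (ext_bound idx s K v hR0 hR K le_rfl _ hU).trans ?_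
        have hexp : Real.exp (-((M : ℝ) / NN n) * Qsum [((s 0, I) : ℕ × Finset (Fin n))]) ≤ 1 := by
          apply Real.exp_le_one_iff.mpr
          have h1 : 0 ≤ ((M : ℝ) / NN n) * Qsum [((s 0, I) : ℕ × Finset (Fin n))] := by positivity
          linarith [h1, neg_mul ((M : ℝ) / NN n) (Qsum [((s 0, I) : ℕ × Finset (Fin n))] : ℝ)]
        have h2 : (0 : ℝ) ≤ (NN n : ℝ) ^ (M + τ) := by positivity
        apply mul_le_mul_of_nonneg_right _ (pow_nonneg hR0 K)
        calc (NN n : ℝ) ^ (M + τ) * Real.exp (-((M : ℝ) / NN n) * Qsum [((s 0, I) : ℕ × Finset (Fin n))])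
            ≤ (NN n : ℝ) ^ (M + τ) * 1 := mul_le_mul_of_nonneg_left hexp h2
          _ = (NN n : ℝ) ^ (M + τ) := mul_one _
    _ = (NN n : ℝ) ^ (M + τ) * (((univ : Finset (Finset (Fin n))).filter
        (fun I => I.card ≤ v)).card * R ^ K) := by
        rw [Finset.sum_const, nsmul_eq_mul]
        ring

end Pool.Agent.INS
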