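import Pool.Agent.INS.Pin

/-! INS/SumR.  The sum over the next set: `I ↦ (I ∩ U, I \ U)` is injective, every term is at most
`exp (-q (b (x - (b+1)/2)))`, `b = #(I \ U)`, and the terms are grouped by `b`. -/

set_option autoImplicit false

open Finset

namespace Pool.Agent.INS

private theorem sumR_count {n : ℕ} (h : ℝ) (g : ℕ → ℝ) :
    ∑ B ∈ (univ : Finset (Finset (Fin n))).filter
        (fun B => h ≤ (B.card : ℝ) ∧ (B.card : ℝ) < 2 * h), g B.card =
      ∑ b ∈ (range (n + 1)).filter (fun b : ℕ => h ≤ (b : ℝ) ∧ (b : ℝ) < 2 * h),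
        (n.choose b : ℝ) * g b := by
  classical
  rw [← Finset.sum_fiberwise_of_maps_to (s := (univ : Finset (Finset (Fin n))).filter
        (fun B => h ≤ (B.card : ℝ) ∧ (B.card : ℝ) < 2 * h))
      (t := (range (n + 1)).filter (fun b : ℕ => h ≤ (b : ℝ) ∧ (b : ℝ) < 2 * h))
      (g := fun B => B.card) ?_]
  · refine Finset.sum_congr rfl fun b hb => ?_
    rw [Finset.mem_filter] at hb
    have h1 : ((univ : Finset (Finset (Fin n))).filter
        (fun B => h ≤ (B.card : ℝ) ∧ (B.card : ℝ) < 2 * h)).filter (fun B => B.card = b) =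
        Finset.powersetCard b (univ : Finset (Fin n)) := by
      ext B
      simp only [Finset.mem_filter, Finset.mem_univ, true_and, Finset.mem_powersetCard,
        Finset.subset_univ]
      constructor
      · exact fun hB => hB.2
      · rintro rfl
        exact ⟨hb.2, rfl⟩
    rw [h1]
    have h2 : ∀ B ∈ Finset.powersetCard b (univ : Finset (Fin n)), g B.card = g b := by
      intro B hB
      rw [(Finset.mem_powersetCard.1 hB).2]
    rw [Finset.sum_congr rfl h2, Finset.sum_const, Finset.card_powersetCard, Finset.card_univ,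
      Fintype.card_fin, nsmul_eq_mul]
  · intro B hB
    rw [Finset.mem_filter] at hB ⊢
    refine ⟨?_, hB.2⟩
    rw [Finset.mem_range]
    have := Finset.card_le_univ B
    rw [Fintype.card_fin] at this
    omega

open Classical in
theorem sumR {n : ℕ} (U : Finset (Fin n)) {u : ℕ} (hu : U.card ≤ u) {q x h : ℝ} (hq : 0 ≤ q) :
    ∑ I ∈ (univ : Finset (Finset (Fin n))).filter (fun I => x ≤ (I.card : ℝ) ∧
        h ≤ ((I \ U).card : ℝ) ∧ ((I \ U).card : ℝ) < 2 * h),
        Real.exp (-q * (Qs I U).card) ≤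
      2 ^ u * ∑ b ∈ (range (n + 1)).filter (fun b : ℕ => h ≤ (b : ℝ) ∧ (b : ℝ) < 2 * h),
        (n.choose b : ℝ) * Real.exp (-q * (b * (x - ((b : ℝ) + 1) / 2))) := by
  set g : ℕ → ℝ := fun b => Real.exp (-q * (b * (x - ((b : ℝ) + 1) / 2))) with hg
  have hg0 : ∀ b, 0 ≤ g b := fun b => (Real.exp_pos _).le
  set S : Finset (Finset (Fin n)) := (univ : Finset (Finset (Fin n))).filter (fun I =>
    x ≤ (I.card : ℝ) ∧ h ≤ ((I \ U).card : ℝ) ∧ ((I \ U).card : ℝ) < 2 * h) with hS
  set T : Finset (Finset (Fin n)) := (univ : Finset (Finset (Fin n))).filter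
    (fun B => h ≤ (B.card : ℝ) ∧ (B.card : ℝ) < 2 * h) with hT
  have h1 : ∀ I ∈ S, Real.exp (-q * (Qs I U).card) ≤ g (I \ U).card := by
    intro I hI
    rw [hS, Finset.mem_filter] at hI
    obtain ⟨-, hx, -, -⟩ := hI
    rw [hg]
    refine Real.exp_le_exp.2 ?_
    rw [card_Qs]
    have hb : (0 : ℝ) ≤ ((I \ U).card : ℝ) := Nat.cast_nonneg _
    have h2 : ((I \ U).card : ℝ) * (x - (((I \ U).card : ℝ) + 1) / 2) ≤
        ((I \ U).card : ℝ) * ((I.card : ℝ) - (((I \ U).card : ℝ) + 1) / 2) :=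
      mul_le_mul_of_nonneg_left (by linarith) hb
    have h3 := mul_le_mul_of_nonneg_left h2 hq
    linarith
  set φ : Finset (Fin n) → Finset (Fin n) × Finset (Fin n) := fun I => (I ∩ U, I \ U) with hφ
  have hinj : Set.InjOn φ (S : Set (Finset (Fin n))) := by
    intro I _ J _ hIJ
    rw [hφ] at hIJ
    have e1 : I ∩ U = J ∩ U := congrArg Prod.fst hIJ
    have e2 : I \ U = J \ U := congrArg Prod.snd hIJ
    calc I = (I \ U) ∪ (I ∩ U) := (Finset.sdiff_union_inter I U).symm
      _ = (J \ U) ∪ (J ∩ U) := by rw [e1, e2]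
      _ = J := Finset.sdiff_union_inter J U
  have h4 : ∑ I ∈ S, g (I \ U).card = ∑ p ∈ S.image φ, g p.2.card := by
    rw [Finset.sum_image hinj]
  have h5 : S.image φ ⊆ U.powerset ×ˢ T := by
    intro p hp
    rw [Finset.mem_image] at hp
    obtain ⟨I, hI, rfl⟩ := hp
    rw [hS, Finset.mem_filter] at hI
    rw [Finset.mem_product, Finset.mem_powerset, hT, Finset.mem_filter]
    exact ⟨Finset.inter_subset_right, Finset.mem_univ _, hI.2.2⟩
  have h6 : ∑ p ∈ U.powerset ×ˢ T, g p.2.card = 2 ^ U.card * ∑ B ∈ T, g B.card := by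
    rw [Finset.sum_product]
    simp only
    rw [Finset.sum_const, Finset.card_powerset, nsmul_eq_mul]
    push_cast
    rfl
  have h7 : ∑ B ∈ T, g B.card = ∑ b ∈ (range (n + 1)).filter
      (fun b : ℕ => h ≤ (b : ℝ) ∧ (b : ℝ) < 2 * h), (n.choose b : ℝ) * g b :=
    sumR_count h g
  have h8 : 0 ≤ ∑ B ∈ T, g B.card := Finset.sum_nonneg fun B _ => hg0 _
  calc ∑ I ∈ S, Real.exp (-q * (Qs I U).card) ≤ ∑ I ∈ S, g (I \ U).card := Finset.sum_le_sum h1
    _ = ∑ p ∈ S.image φ, g p.2.card := h4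
    _ ≤ ∑ p ∈ U.powerset ×ˢ T, g p.2.card :=
        Finset.sum_le_sum_of_subset_of_nonneg h5 fun p _ _ => hg0 _
    _ = 2 ^ U.card * ∑ B ∈ T, g B.card := h6
    _ ≤ 2 ^ u * ∑ B ∈ T, g B.card :=
        mul_le_mul_of_nonneg_right (pow_le_pow_right₀ (by norm_num) hu) h8
    _ = _ := by rw [h7]

end Pool.Agent.INS
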