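import Pool.Agent.INS.EvDefs
import Pool.Agent.INS.Ogp
import Pool.Agent.INS.SumR
import Pool.Agent.INS.NumA

/-! INS/EvB.  Bounds for the events B and D.

PLAN.  `evB`: union over `t ≤ T` of `big` (Avoid) at the time `t m`, and `NC.big`.  `evD`: union over the values `t 0, ..., t K ≤ T`
(at most `(T+1)^(K+1)` choices) of `ogp` with `s ℓ = t ℓ m`, `v = ⌊3x⌋`, `h = be ε x`, `R = 2^(K v) ((n+1) exp (-(be ε ε) y))`: hypothesis `hR` by `sumR`
(`u = K v`, `q = M/NN`) and `NB` (at most `n + 1` values of `b`); `NC.small`. -/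

set_option autoImplicit false

open Finset

namespace Pool.Agent.INS

open Classical in
theorem evB {ε : ℝ} {k n : ℕ} (hC : NC ε k n) (m T τ : ℕ) (idx : Fin τ → Fin (Mk ε k n)) :
    ((univ.filter (fun X : Val n (Mk ε k n) τ => EvB k m T idx X)).card : ℝ) ≤
      (NN n : ℝ) ^ (Mk ε k n + τ) * ((T + 1) * Real.exp (-yy k n)) := by
  have ht0 : (0 : ℝ) ≤ 3 * ((n : ℝ) / k) := by positivity
  have hsub : (univ.filter (fun X : Val n (Mk ε k n) τ => EvB k m T idx X)) ⊆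
      (range (T + 1)).biUnion (fun t => univ.filter (fun X : Val n (Mk ε k n) τ =>
        ∃ J : Finset (Fin n), 3 * ((n : ℝ) / k) < J.card ∧ St (vs idx X (t * m)) J)) := by
    intro X hX
    rw [mem_filter] at hX
    obtain ⟨t, htT, J, hJ⟩ := hX.2
    rw [mem_biUnion]
    exact ⟨t, mem_range.mpr (by omega), mem_filter.mpr ⟨mem_univ _, J, hJ⟩⟩
  have h1 : ((univ.filter (fun X : Val n (Mk ε k n) τ => EvB k m T idx X)).card : ℝ) ≤
      ∑ t ∈ range (T + 1), ((univ.filter (fun X : Val n (Mk ε k n) τ =>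
        ∃ J : Finset (Fin n), 3 * ((n : ℝ) / k) < J.card ∧
          St (vs idx X (t * m)) J)).card : ℝ) := by
    have := (card_le_card hsub).trans card_biUnion_le
    exact_mod_cast this
  have h2 : ∀ t ∈ range (T + 1), ((univ.filter (fun X : Val n (Mk ε k n) τ =>
        ∃ J : Finset (Fin n), 3 * ((n : ℝ) / k) < J.card ∧
          St (vs idx X (t * m)) J)).card : ℝ) ≤
      (NN n : ℝ) ^ (Mk ε k n + τ) * Real.exp (-yy k n) := by
    intro t _
    refine (big idx (t * m) (3 * ((n : ℝ) / k)) ht0).trans ?_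
    exact mul_le_mul_of_nonneg_left hC.big (by positivity)
  refine h1.trans ((sum_le_sum h2).trans (le_of_eq ?_))
  rw [sum_const, card_range, nsmul_eq_mul]
  push_cast
  ring

open Classical in
private theorem hRb {ε : ℝ} {k n : ℕ} (hB : NB ε k n) (U : Finset (Fin n)) {u : ℕ}
    (hu : U.card ≤ u) :
    ∑ I ∈ (univ : Finset (Finset (Fin n))).filter (fun I => (n : ℝ) / k ≤ (I.card : ℝ) ∧
        be ε * ((n : ℝ) / k) ≤ ((I \ U).card : ℝ) ∧
        ((I \ U).card : ℝ) < 2 * (be ε * ((n : ℝ) / k))),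
        Real.exp (-((Mk ε k n : ℝ) / NN n) * (Qs I U).card) ≤
      (2 : ℝ) ^ u * ((n + 1) * Real.exp (-(be ε * ε) * yy k n)) := by
  refine (sumR U hu (q := (Mk ε k n : ℝ) / NN n) (x := (n : ℝ) / k)
    (h := be ε * ((n : ℝ) / k)) (by positivity)).trans ?_
  refine mul_le_mul_of_nonneg_left ?_ (by positivity)
  have h1 : ∀ b ∈ (range (n + 1)).filter (fun b : ℕ => be ε * ((n : ℝ) / k) ≤ (b : ℝ) ∧
      (b : ℝ) < 2 * (be ε * ((n : ℝ) / k))),
      (n.choose b : ℝ) * Real.exp (-((Mk ε k n : ℝ) / NN n) *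
        (b * ((n : ℝ) / k - ((b : ℝ) + 1) / 2))) ≤ Real.exp (-(be ε * ε) * yy k n) := by
    intro b hb
    rw [mem_filter] at hb
    exact hB b hb.2.1 hb.2.2
  refine (sum_le_sum h1).trans ?_
  rw [sum_const, nsmul_eq_mul]
  refine mul_le_mul_of_nonneg_right ?_ (Real.exp_pos _).le
  have h2 : ((range (n + 1)).filter (fun b : ℕ => be ε * ((n : ℝ) / k) ≤ (b : ℝ) ∧
      (b : ℝ) < 2 * (be ε * ((n : ℝ) / k)))).card ≤ n + 1 := by
    refine (card_filter_le _ _).trans (le_of_eq (card_range _))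
  exact_mod_cast h2

open Classical in
theorem evD {ε : ℝ} {k n : ℕ} (hB : NB ε k n) (hC : NC ε k n) (m T τ : ℕ)
    (Φ : Om n (Mk ε k n) → Finset (Fin n)) (idx : Fin τ → Fin (Mk ε k n)) :
    ((univ.filter (fun X : Val n (Mk ε k n) τ =>
        EvD Φ k m T (KK ε) (be ε * ((n : ℝ) / k)) idx X)).card : ℝ) ≤
      (NN n : ℝ) ^ (Mk ε k n + τ) *
        (((T : ℝ) + 1) ^ (KK ε + 1) * (((n : ℝ) + 1) * Real.exp (3 * yy k n) *
        ((2 : ℝ) ^ (KK ε * ⌊3 * ((n : ℝ) / k)⌋₊) * ((n + 1) *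
          Real.exp (-(be ε * ε) * yy k n))) ^ (KK ε))) := by
  set K := KK ε with hK
  set v := ⌊3 * ((n : ℝ) / k)⌋₊ with hv
  set R : ℝ := (2 : ℝ) ^ (K * v) * ((n + 1) * Real.exp (-(be ε * ε) * yy k n)) with hRdef
  have hR0 : 0 ≤ R := by positivity
  -- the events for given times
  set E : (Fin (K + 1) → Fin (T + 1)) → Finset (Val n (Mk ε k n) τ) := fun g =>
    univ.filter (fun X : Val n (Mk ε k n) τ => ∃ I : ℕ → Finset (Fin n),
      (∀ ℓ ≤ K, (I ℓ).card ≤ v ∧ (n : ℝ) / k ≤ ((I ℓ).card : ℝ) ∧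
        St (vs idx X ((if h : ℓ < K + 1 then (g ⟨ℓ, h⟩ : ℕ) else 0) * m)) (I ℓ)) ∧
      ∀ ℓ < K, be ε * ((n : ℝ) / k) ≤ ((I (ℓ + 1) \ (range (ℓ + 1)).biUnion I).card : ℝ) ∧
        ((I (ℓ + 1) \ (range (ℓ + 1)).biUnion I).card : ℝ) <
          2 * (be ε * ((n : ℝ) / k))) with hE
  have hsub : (univ.filter (fun X : Val n (Mk ε k n) τ =>
        EvD Φ k m T K (be ε * ((n : ℝ) / k)) idx X)) ⊆
      (univ : Finset (Fin (K + 1) → Fin (T + 1))).biUnion E := by
    intro X hX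
    rw [mem_filter] at hX
    obtain ⟨t, ht1, ht2⟩ := hX.2
    rw [mem_biUnion]
    refine ⟨fun ℓ => ⟨t ℓ, by have := (ht1 ℓ (by omega)).1; omega⟩, mem_univ _, ?_⟩
    rw [hE, mem_filter]
    refine ⟨mem_univ _, fun ℓ => FF Φ m idx X (t ℓ), ?_, ?_⟩
    · intro ℓ hℓ
      obtain ⟨_, h2, h3, h4⟩ := ht1 ℓ hℓ
      refine ⟨h2, h3, ?_⟩
      rw [dif_pos (show ℓ < K + 1 by omega)]
      exact h4
    · intro ℓ hℓ
      exact ht2 ℓ hℓ
  have h1 : ((univ.filter (fun X : Val n (Mk ε k n) τ =>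
        EvD Φ k m T K (be ε * ((n : ℝ) / k)) idx X)).card : ℝ) ≤
      ∑ g : Fin (K + 1) → Fin (T + 1), ((E g).card : ℝ) := by
    have := (card_le_card hsub).trans card_biUnion_le
    exact_mod_cast this
  have h2 : ∀ g ∈ (univ : Finset (Fin (K + 1) → Fin (T + 1))), ((E g).card : ℝ) ≤
      (NN n : ℝ) ^ (Mk ε k n + τ) * (((n : ℝ) + 1) * Real.exp (3 * yy k n) * R ^ K) := by
    intro g _
    have h3 := ogp (n := n) (M := Mk ε k n) (τ := τ) idx
      (fun ℓ => (if h : ℓ < K + 1 then (g ⟨ℓ, h⟩ : ℕ) else 0) * m) K v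
      (x := (n : ℝ) / k) (h := be ε * ((n : ℝ) / k)) (R := R) hR0
      (fun U hU => hRb hB U hU)
    refine h3.trans ?_
    refine mul_le_mul_of_nonneg_left ?_ (by positivity)
    exact mul_le_mul_of_nonneg_right hC.small (by positivity)
  refine h1.trans ((sum_le_sum h2).trans (le_of_eq ?_))
  rw [sum_const, nsmul_eq_mul, card_univ, Fintype.card_pi_const, Fintype.card_fin]
  push_cast
  ring

end Pool.Agent.INS
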