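import Pool.Agent.INS.EvDefs
import Pool.Agent.INS.Dec

/-! INS/EvC.  Bound for the event C.

PLAN.  For `ℓ < K` and the values `t 0, ..., t ℓ ≤ T` (at most
`(T+1)^K` choices: extend by `0` to `Fin K → Fin (T+1)`) apply `dec` with `s = t ℓ m`, `w = 4 M`, `s' = (t ℓ + L) m ≥ s + 4M` (`hL`),
`U X = ⋃_{j≤ℓ} FF Φ m idx X (t j)` (depends only on the values before `s`: `cur_bef`, `Bef.mono`), `u = K ⌊3x⌋`, `j0 = ⌈x/2⌉₊`,
`m := (M+1)/2 ≤ #(upd idx s (4M))` by `hidx` (`s + 4M ≤ T m`), `J = FF .. (t ℓ + L) ∩ U` (a subset of a stable set is stable).  Then `NC.dec`. -/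

set_option autoImplicit false

open Finset

namespace Pool.Agent.INS

/-- the times with default value `0` -/
private def tt {K T : ℕ} (g : Fin K → Fin (T + 1)) (j : ℕ) : ℕ :=
  if h : j < K then (g ⟨j, h⟩ : ℕ) else 0

/-- the union of the outputs -/
private def UX {n M τ : ℕ} (Φ : Om n M → Finset (Fin n)) (m : ℕ) (idx : Fin τ → Fin M)
    (t : ℕ → ℕ) (ℓ : ℕ) (X : Val n M τ) : Finset (Fin n) :=
  (range (ℓ + 1)).biUnion (fun j => FF Φ m idx X (t j))

private theorem UX_congr {n M τ : ℕ} (Φ : Om n M → Finset (Fin n)) (m : ℕ) (idx : Fin τ → Fin M)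
    {t t' : ℕ → ℕ} {ℓ : ℕ} (h : ∀ j ≤ ℓ, t j = t' j) (X : Val n M τ) :
    UX Φ m idx t ℓ X = UX Φ m idx t' ℓ X := by
  unfold UX
  refine Finset.biUnion_congr rfl ?_
  intro j hj
  rw [h j (Nat.lt_succ_iff.1 (Finset.mem_range.1 hj))]

private theorem UX_past {n M τ : ℕ} (Φ : Om n M → Finset (Fin n)) (m : ℕ) (idx : Fin τ → Fin M)
    (t : ℕ → ℕ) (ℓ s : ℕ) (h : ∀ j ≤ ℓ, t j * m ≤ s) (X Y : Val n M τ)
    (hXY : ∀ a, Bef s a → X a = Y a) : UX Φ m idx t ℓ X = UX Φ m idx t ℓ Y := by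
  unfold UX
  refine Finset.biUnion_congr rfl ?_
  intro j hj
  have hj' := h j (Nat.lt_succ_iff.1 (Finset.mem_range.1 hj))
  have h1 : vs idx X (t j * m) = vs idx Y (t j * m) := by
    funext i
    exact hXY _ (Bef.mono hj' (cur_bef idx _ i))
  unfold FF
  rw [h1]

private theorem st_mono {n M : ℕ} {ω : Om n M} {J J' : Finset (Fin n)} (h : J ⊆ J')
    (hJ : St ω J') : St ω J := fun i hi => hJ i (pin_mono h hi)

open Classical in
private theorem core {n M τ K k m L T u j0 : ℕ} {R1 : ℝ} (hR1 : 0 ≤ R1)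
    (hu : u = K * ⌊3 * ((n : ℝ) / k)⌋₊) (hj0 : j0 = ⌈(n : ℝ) / k / 2⌉₊)
    (hdec : (2 : ℝ) ^ u * Real.exp (-((((M + 1) / 2 : ℕ) : ℝ) / NN n) * (j0.choose 2 : ℝ)) ≤ R1)
    (hτ : τ = T * m) (hL : 4 * M ≤ L * m) (Φ : Om n M → Finset (Fin n)) (idx : Fin τ → Fin M)
    (hidx : ¬ ∃ s, s + 4 * M ≤ τ ∧ 2 * (upd idx s (4 * M)).card < M) :
    ((univ.filter (fun X : Val n M τ => EvC Φ k m L T K idx X)).card : ℝ) ≤
      (NN n : ℝ) ^ (M + τ) * (K * ((T : ℝ) + 1) ^ K * R1) := by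
  obtain ⟨R, hR⟩ : ∃ R : ℝ, R = (NN n : ℝ) ^ (M + τ) * R1 := ⟨_, rfl⟩
  have hR0 : 0 ≤ R := by rw [hR]; positivity
  -- the events for fixed times
  let E : Fin K × (Fin K → Fin (T + 1)) → Finset (Val n M τ) := fun q =>
    univ.filter (fun X : Val n M τ => ((∀ j < (q.1 : ℕ), tt q.2 j ≤ tt q.2 q.1) ∧
      tt q.2 q.1 + L ≤ T) ∧ ((UX Φ m idx (tt q.2) q.1 X).card ≤ u ∧
      ∃ J ⊆ UX Φ m idx (tt q.2) q.1 X, j0 ≤ J.card ∧ St (vs idx X ((tt q.2 q.1 + L) * m)) J))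
  have hE : ∀ q, ((E q).card : ℝ) ≤ R := by
    intro q
    by_cases hq : (∀ j < (q.1 : ℕ), tt q.2 j ≤ tt q.2 q.1) ∧ tt q.2 q.1 + L ≤ T
    · obtain ⟨hq1, hq2⟩ := hq
      have hs : tt q.2 q.1 * m + 4 * M ≤ (tt q.2 q.1 + L) * m := by
        rw [add_mul]
        omega
      have hsT : tt q.2 q.1 * m + 4 * M ≤ τ := by
        rw [hτ]
        exact hs.trans (Nat.mul_le_mul_right m hq2)
      have hm : (M + 1) / 2 ≤ (upd idx (tt q.2 q.1 * m) (4 * M)).card := by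
        by_contra hcon
        exact hidx ⟨tt q.2 q.1 * m, hsT, by omega⟩
      have hU : ∀ X Y : Val n M τ, (∀ a, Bef (tt q.2 q.1 * m) a → X a = Y a) →
          UX Φ m idx (tt q.2) q.1 X = UX Φ m idx (tt q.2) q.1 Y := by
        refine UX_past Φ m idx (tt q.2) q.1 (tt q.2 q.1 * m) ?_
        intro j hj
        rcases Nat.lt_or_ge j (q.1 : ℕ) with h | h
        · exact Nat.mul_le_mul_right m (hq1 j h)
        · rw [le_antisymm hj h]
      have h1 := dec idx hs (UX Φ m idx (tt q.2) q.1) hU u j0 ((M + 1) / 2) hm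
      have h2 : (E q).card ≤ (univ.filter (fun X : Val n M τ =>
          (UX Φ m idx (tt q.2) q.1 X).card ≤ u ∧ ∃ J ⊆ UX Φ m idx (tt q.2) q.1 X,
            j0 ≤ J.card ∧ St (vs idx X ((tt q.2 q.1 + L) * m)) J)).card := by
        apply Finset.card_le_card
        intro X hX
        rw [Finset.mem_filter] at hX ⊢
        exact ⟨hX.1, hX.2.2⟩
      calc ((E q).card : ℝ) ≤ _ := by exact_mod_cast h2
        _ ≤ _ := h1
        _ ≤ R := by
          rw [hR]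
          exact mul_le_mul_of_nonneg_left hdec (by positivity)
    · have h1 : E q = ∅ := by
        rw [Finset.eq_empty_iff_forall_notMem]
        intro X hX
        rw [Finset.mem_filter] at hX
        exact hq hX.2.1
      rw [h1, Finset.card_empty, Nat.cast_zero]
      exact hR0
  have hsub : (univ.filter (fun X : Val n M τ => EvC Φ k m L T K idx X)) ⊆
      (univ : Finset (Fin K × (Fin K → Fin (T + 1)))).biUnion E := by
    intro X hX
    rw [Finset.mem_filter] at hX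
    obtain ⟨t, ℓ, hℓ, ht, htL, hcard, hx, hst⟩ := hX.2
    have htT : ∀ j ≤ ℓ, t j ≤ T := by
      intro j hj
      rcases Nat.lt_or_ge j ℓ with h | h
      · exact (ht j h).trans ((Nat.le_add_right _ _).trans htL)
      · rw [le_antisymm hj h]
        exact (Nat.le_add_right _ _).trans htL
    let g : Fin K → Fin (T + 1) := fun j =>
      if h : (j : ℕ) ≤ ℓ then ⟨t j, Nat.lt_succ_iff.2 (htT j h)⟩ else 0
    have hg : ∀ j ≤ ℓ, tt g j = t j := by
      intro j hj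
      have hjK : j < K := lt_of_le_of_lt hj hℓ
      have h1 : tt g j = (g ⟨j, hjK⟩ : ℕ) := dif_pos hjK
      have h2 : g ⟨j, hjK⟩ = ⟨t j, Nat.lt_succ_iff.2 (htT j hj)⟩ := dif_pos hj
      rw [h1, h2]
    rw [Finset.mem_biUnion]
    refine ⟨(⟨ℓ, hℓ⟩, g), Finset.mem_univ _, ?_⟩
    rw [Finset.mem_filter]
    have hUX : UX Φ m idx (tt g) ℓ X = UX Φ m idx t ℓ X := UX_congr Φ m idx hg X
    refine ⟨Finset.mem_univ _, ⟨?_, ?_⟩, ?_, ?_⟩
    · intro j hj
      change tt g j ≤ tt g ℓ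
      rw [hg j (le_of_lt hj), hg ℓ le_rfl]
      exact ht j hj
    · change tt g ℓ + L ≤ T
      rw [hg ℓ le_rfl]
      exact htL
    · change (UX Φ m idx (tt g) ℓ X).card ≤ u
      rw [hUX, hu]
      exact hcard
    · change ∃ J ⊆ UX Φ m idx (tt g) ℓ X, j0 ≤ J.card ∧ St (vs idx X ((tt g ℓ + L) * m)) J
      rw [hUX, hg ℓ le_rfl]
      refine ⟨FF Φ m idx X (t ℓ + L) ∩ UX Φ m idx t ℓ X, Finset.inter_subset_right, ?_,
        st_mono Finset.inter_subset_left hst⟩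
      rw [hj0]
      apply Nat.ceil_le.2
      have h1 : (n : ℝ) / k ≤ 2 * ((FF Φ m idx X (t ℓ + L) ∩ UX Φ m idx t ℓ X).card : ℝ) := hx
      linarith
  have hle := (Finset.card_le_card hsub).trans Finset.card_biUnion_le
  calc ((univ.filter (fun X : Val n M τ => EvC Φ k m L T K idx X)).card : ℝ) ≤
        ∑ q : Fin K × (Fin K → Fin (T + 1)), ((E q).card : ℝ) := by exact_mod_cast hle
    _ ≤ ∑ _q : Fin K × (Fin K → Fin (T + 1)), R := Finset.sum_le_sum fun q _ => hE q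
    _ = (K * ((T : ℝ) + 1) ^ K) * R := by
        rw [Finset.sum_const, nsmul_eq_mul, Finset.card_univ, Fintype.card_prod, Fintype.card_fun,
          Fintype.card_fin, Fintype.card_fin]
        push_cast
        ring
    _ = (NN n : ℝ) ^ (M + τ) * (K * ((T : ℝ) + 1) ^ K * R1) := by
        rw [hR]
        ring

open Classical in
theorem evC {ε : ℝ} {k n : ℕ} (hC : NC ε k n) {m L T τ : ℕ} (hτ : τ = T * m)
    (hL : 4 * Mk ε k n ≤ L * m) (Φ : Om n (Mk ε k n) → Finset (Fin n))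
    (idx : Fin τ → Fin (Mk ε k n))
    (hidx : ¬ ∃ s, s + 4 * Mk ε k n ≤ τ ∧ 2 * (upd idx s (4 * Mk ε k n)).card < Mk ε k n) :
    ((univ.filter (fun X : Val n (Mk ε k n) τ => EvC Φ k m L T (KK ε) idx X)).card : ℝ) ≤
      (NN n : ℝ) ^ (Mk ε k n + τ) *
        (KK ε * ((T : ℝ) + 1) ^ (KK ε) * Real.exp (-yy k n / 32)) := by
  have h4 := hC.dec
  rw [neg_div] at h4
  exact core (Real.exp_nonneg _) rfl rfl h4 hτ hL Φ idx hidx

end Pool.Agent.INS
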