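import Pool.Agent.INS.Nums

/-! INS/EvDefs.  The exceptional events for given index sequence. -/

set_option autoImplicit false

open Finset

namespace Pool.Agent.INS

/-- the output at the observed time `t` -/
def FF {n M τ : ℕ} (Φ : Om n M → Finset (Fin n)) (m : ℕ) (idx : Fin τ → Fin M) (X : Val n M τ)
    (t : ℕ) : Finset (Fin n) := Φ (vs idx X (t * m))

/-- some observed graph has a very large stable set -/
def EvB {n M τ : ℕ} (k m T : ℕ) (idx : Fin τ → Fin M) (X : Val n M τ) : Prop :=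
  ∃ t ≤ T, ∃ J : Finset (Fin n), 3 * ((n : ℝ) / k) < J.card ∧ St (vs idx X (t * m)) J

/-- the union of the outputs at the times `t 0, ..., t ℓ` contains a large part of a later output -/
def EvC {n M τ : ℕ} (Φ : Om n M → Finset (Fin n)) (k m L T K : ℕ) (idx : Fin τ → Fin M)
    (X : Val n M τ) : Prop :=
  ∃ (t : ℕ → ℕ) (ℓ : ℕ), ℓ < K ∧ (∀ j < ℓ, t j ≤ t ℓ) ∧ t ℓ + L ≤ T ∧
    ((range (ℓ + 1)).biUnion (fun j => FF Φ m idx X (t j))).card ≤ K * ⌊3 * ((n : ℝ) / k)⌋₊ ∧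
    (n : ℝ) / k ≤ 2 * ((FF Φ m idx X (t ℓ + L) ∩
      (range (ℓ + 1)).biUnion (fun j => FF Φ m idx X (t j))).card : ℝ) ∧
    St (vs idx X ((t ℓ + L) * m)) (FF Φ m idx X (t ℓ + L))

/-- a sequence of outputs, each with a new part of medium size -/
def EvD {n M τ : ℕ} (Φ : Om n M → Finset (Fin n)) (k m T K : ℕ) (h : ℝ) (idx : Fin τ → Fin M)
    (X : Val n M τ) : Prop :=
  ∃ t : ℕ → ℕ, (∀ ℓ ≤ K, t ℓ ≤ T ∧ (FF Φ m idx X (t ℓ)).card ≤ ⌊3 * ((n : ℝ) / k)⌋₊ ∧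
      (n : ℝ) / k ≤ ((FF Φ m idx X (t ℓ)).card : ℝ) ∧ St (vs idx X (t ℓ * m)) (FF Φ m idx X (t ℓ))) ∧
    ∀ ℓ < K, h ≤ ((FF Φ m idx X (t (ℓ + 1)) \
        (range (ℓ + 1)).biUnion (fun j => FF Φ m idx X (t j))).card : ℝ) ∧
      ((FF Φ m idx X (t (ℓ + 1)) \
        (range (ℓ + 1)).biUnion (fun j => FF Φ m idx X (t j))).card : ℝ) < 2 * h

end Pool.Agent.INS
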