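import Pool.Agent.INS.Defs

/-! INS/Joh.  Walks on the `M`-element sets of pairs.

PLAN (`jw_count`).  Induction on `m` (split off the last set): for `#S = M` the sets `S'` with `#S' = M`, `#(S \ S') = 1` are `S - e + e'`
with `e ∈ S`, `e' ∉ S`: `M (N - M)` of them.
`lift`: for a walk `w` and an injective `ω` with image `w 0` there is a (unique) `ν` such that `stf ω ν s` is injective with
image `w s` for all `s ≤ m`: if `w s \ w (s+1) = {e}`, `w (s+1) \ w s = {e'}`, the move is `(i, e')` with `stf ω ν s i = e`.  So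
`(ω, w) ↦ (ω, ν)` is injective from the pairs with `ω` injective, `image ω = w 0`, into the pairs on the left hand side; each `w 0` is the
image of `M!` injective `ω`. -/

set_option autoImplicit false

open Finset

namespace Pool.Agent.INS

variable {n : ℕ}

/-- walks on the sets with `M` elements -/
def JW (M m : ℕ) (w : Fin (m + 1) → Finset (Pr n)) : Prop :=
  (∀ i, (w i).card = M) ∧ ∀ i : Fin m, (w i.castSucc \ w i.succ).card = 1

private theorem nb_card {T : Type} [Fintype T] [DecidableEq T] {M : ℕ} {B : Finset T} (hB : B.card = M) :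
    (univ.filter (fun A : Finset T => A.card = M ∧ (A \ B).card = 1)).card =
      M * (Fintype.card T - M) := by
  have h1 : (B ×ˢ Bᶜ).card = M * (Fintype.card T - M) := by
    rw [card_product, card_compl, hB]
  rw [← h1]
  symm
  refine Finset.card_bij (fun p _ => insert p.2 (B.erase p.1)) ?_ ?_ ?_
  · rintro ⟨e, e'⟩ hp
    obtain ⟨he, he'⟩ := mem_product.1 hp
    simp only [mem_compl] at he he'
    have h2 : e' ∉ B.erase e := fun h => he' (mem_of_mem_erase h)
    refine mem_filter.2 ⟨mem_univ _, ?_, ?_⟩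
    · change (insert e' (B.erase e)).card = M
      rw [card_insert_of_notMem h2, card_erase_of_mem he, hB]
      have : 0 < B.card := card_pos.2 ⟨e, he⟩
      omega
    · change (insert e' (B.erase e) \ B).card = 1
      have h3 : insert e' (B.erase e) \ B = {e'} := by
        ext a
        simp only [mem_sdiff, mem_insert, mem_erase, mem_singleton]
        constructor
        · rintro ⟨h4 | h4, h5⟩
          · exact h4
          · exact absurd h4.2 h5
        · rintro rfl
          exact ⟨Or.inl rfl, he'⟩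
      rw [h3, card_singleton]
  · rintro ⟨e, e'⟩ hp ⟨f, f'⟩ hq heq
    obtain ⟨he, he'⟩ := mem_product.1 hp
    obtain ⟨hf, hf'⟩ := mem_product.1 hq
    simp only [mem_compl] at he he' hf hf'
    change insert e' (B.erase e) = insert f' (B.erase f) at heq
    have h1 : e' = f' := by
      have h2 : e' ∈ insert f' (B.erase f) := by rw [← heq]; exact mem_insert_self _ _
      rcases mem_insert.1 h2 with h3 | h3
      · exact h3
      · exact absurd (mem_of_mem_erase h3) he'
    have h2 : e = f := by
      by_contra hne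
      have h3 : f ∈ insert e' (B.erase e) := mem_insert_of_mem (mem_erase.2 ⟨Ne.symm hne, hf⟩)
      rw [heq] at h3
      rcases mem_insert.1 h3 with h4 | h4
      · rw [h4] at hf
        exact hf' hf
      · exact (mem_erase.1 h4).1 rfl
    rw [h1, h2]
  · intro A hA
    obtain ⟨-, hA1, hA2⟩ := mem_filter.1 hA
    obtain ⟨e', he'⟩ := card_eq_one.1 hA2
    have h2 : (B \ A).card = 1 := by
      rw [← hA2]
      exact card_sdiff_comm (hB.trans hA1.symm)
    obtain ⟨e, he⟩ := card_eq_one.1 h2
    have he1 : e ∈ B \ A := by rw [he]; exact mem_singleton_self e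
    have he2 : e' ∈ A \ B := by rw [he']; exact mem_singleton_self e'
    refine ⟨(e, e'), mem_product.2 ⟨(mem_sdiff.1 he1).1, mem_compl.2 (mem_sdiff.1 he2).2⟩, ?_⟩
    change insert e' (B.erase e) = A
    ext a
    simp only [mem_insert, mem_erase]
    constructor
    · rintro (h3 | ⟨h3, h4⟩)
      · rw [h3]; exact (mem_sdiff.1 he2).1
      · by_contra h5
        have h6 : a ∈ B \ A := mem_sdiff.2 ⟨h4, h5⟩
        rw [he] at h6
        exact h3 (mem_singleton.1 h6)
    · intro h3
      by_cases h4 : a ∈ B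
      · refine Or.inr ⟨?_, h4⟩
        rintro rfl
        exact (mem_sdiff.1 he1).2 h3
      · have h6 : a ∈ A \ B := mem_sdiff.2 ⟨h3, h4⟩
        rw [he'] at h6
        exact Or.inl (mem_singleton.1 h6)

private theorem jw_cons {M m : ℕ} (A : Finset (Pr n)) (w : Fin (m + 1) → Finset (Pr n)) :
    JW M (m + 1) (Fin.cons A w : Fin (m + 2) → Finset (Pr n)) ↔
      JW M m w ∧ A.card = M ∧ (A \ w 0).card = 1 := by
  unfold JW
  constructor
  · rintro ⟨h1, h2⟩
    refine ⟨⟨fun i => ?_, fun i => ?_⟩, ?_, ?_⟩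
    · have := h1 i.succ
      rwa [Fin.cons_succ] at this
    · have := h2 i.succ
      rwa [← Fin.succ_castSucc, Fin.cons_succ, Fin.cons_succ] at this
    · have := h1 0
      rwa [Fin.cons_zero] at this
    · have := h2 0
      rwa [Fin.castSucc_zero, Fin.cons_zero, Fin.cons_succ] at this
  · rintro ⟨⟨h1, h2⟩, h3, h4⟩
    refine ⟨fun i => ?_, fun i => ?_⟩
    · refine Fin.cases ?_ (fun i => ?_) i
      · rwa [Fin.cons_zero]
      · rw [Fin.cons_succ]; exact h1 i
    · refine Fin.cases ?_ (fun i => ?_) i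
      · rwa [Fin.castSucc_zero, Fin.cons_zero, Fin.cons_succ]
      · rw [← Fin.succ_castSucc, Fin.cons_succ, Fin.cons_succ]; exact h2 i

open Classical in
theorem jw_count (M m : ℕ) :
    (univ.filter (fun w : Fin (m + 1) → Finset (Pr n) => JW M m w)).card =
      (NN n).choose M * (M * (NN n - M)) ^ m := by
  induction m with
  | zero =>
    have h0 : (NN n).choose M = (powersetCard M (univ : Finset (Pr n))).card := by
      rw [card_powersetCard, card_univ]
    rw [pow_zero, mul_one, h0]
    refine Finset.card_bij (fun w _ => w 0) ?_ ?_ ?_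
    · intro w hw
      obtain ⟨-, h1, -⟩ := mem_filter.1 hw
      exact mem_powersetCard.2 ⟨subset_univ _, h1 0⟩
    · intro w hw w' hw' h
      funext i
      rw [Fin.fin_one_eq_zero i]
      exact h
    · intro S hS
      refine ⟨fun _ => S, mem_filter.2 ⟨mem_univ _, fun _ => (mem_powersetCard.1 hS).2,
        fun i => i.elim0⟩, rfl⟩
  | succ m ih =>
    have h1 : (univ.filter (fun w : Fin (m + 1 + 1) → Finset (Pr n) => JW M (m + 1) w)).card =
        ∑ w ∈ univ.filter (fun w : Fin (m + 1) → Finset (Pr n) => JW M m w),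
          (univ.filter (fun A : Finset (Pr n) => A.card = M ∧ (A \ w 0).card = 1)).card := by
      rw [← Finset.card_sigma]
      refine Finset.card_bij' (fun w _ => ⟨Fin.tail w, w 0⟩) (fun p _ => Fin.cons p.2 p.1) ?_ ?_ ?_ ?_
      · intro w hw
        have h2 := (mem_filter.1 hw).2
        rw [← Fin.cons_self_tail w, jw_cons] at h2
        exact mem_sigma.2 ⟨mem_filter.2 ⟨mem_univ _, h2.1⟩, mem_filter.2 ⟨mem_univ _, h2.2⟩⟩
      · intro p hp
        obtain ⟨h2, h3⟩ := mem_sigma.1 hp
        exact mem_filter.2 ⟨mem_univ _, (jw_cons _ _).2 ⟨(mem_filter.1 h2).2, (mem_filter.1 h3).2⟩⟩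
      · intro w hw
        exact Fin.cons_self_tail w
      · rintro ⟨w, A⟩ hp
        simp
    rw [h1, Finset.sum_congr rfl (g := fun _ => M * (NN n - M))
      (fun w hw => nb_card ((mem_filter.1 hw).2.1 0)), Finset.sum_const, smul_eq_mul, ih, pow_succ,
      mul_assoc]

private theorem stf_snoc {M m : ℕ} (ω : Om n M) (ν : Fin m → Mv n M) (x : Mv n M) (s : ℕ)
    (hs : s ≤ m) : stf ω (Fin.snoc ν x : Fin (m + 1) → Mv n M) s = stf ω ν s := by
  induction s with
  | zero => rfl
  | succ s ih =>
    have h1 : s < m := hs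
    have h2 : s < m + 1 := by omega
    have h3 : (Fin.snoc ν x : Fin (m + 1) → Mv n M) ⟨s, h2⟩ = ν ⟨s, h1⟩ := by
      have := Fin.snoc_castSucc (α := fun _ => Mv n M) x ν ⟨s, h1⟩
      exact this
    change (if h : s < m + 1 then stp (stf ω (Fin.snoc ν x : Fin (m + 1) → Mv n M) s)
      ((Fin.snoc ν x : Fin (m + 1) → Mv n M) ⟨s, h⟩) else _) =
      (if h : s < m then stp (stf ω ν s) (ν ⟨s, h⟩) else _)
    rw [dif_pos h1, dif_pos h2, h3, ih (by omega)]

private theorem one_step {M : ℕ} (σ : Om n M) (hσ : Function.Injective σ) {B : Finset (Pr n)}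
    (hB : B.card = M) (h : (univ.image σ \ B).card = 1) :
    ∃ x : Mv n M, Function.Injective (stp σ x) ∧ univ.image (stp σ x) = B := by
  have hA : (univ.image σ).card = M := by
    rw [card_image_of_injective _ hσ, card_univ, Fintype.card_fin]
  obtain ⟨e, he⟩ := card_eq_one.1 h
  have h2 : (B \ univ.image σ).card = 1 := by
    rw [← h]
    exact card_sdiff_comm (hB.trans hA.symm)
  obtain ⟨e', he'⟩ := card_eq_one.1 h2
  have he1 : e ∈ univ.image σ \ B := by rw [he]; exact mem_singleton_self e
  have he2 : e' ∈ B \ univ.image σ := by rw [he']; exact mem_singleton_self e'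
  obtain ⟨i, -, hi⟩ := mem_image.1 (mem_sdiff.1 he1).1
  have h3 : ∀ j, σ j ≠ e' := fun j hj =>
    (mem_sdiff.1 he2).2 (mem_image.2 ⟨j, mem_univ _, hj⟩)
  have h4 : Function.Injective (stp σ (i, e')) := by
    intro a b hab
    unfold stp at hab
    by_cases ha : a = i <;> by_cases hb : b = i
    · rw [ha, hb]
    · rw [ha, Function.update_self, Function.update_of_ne hb] at hab
      exact absurd hab.symm (h3 b)
    · rw [hb, Function.update_self, Function.update_of_ne ha] at hab
      exact absurd hab (h3 a)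
    · rw [Function.update_of_ne ha, Function.update_of_ne hb] at hab
      exact hσ hab
  refine ⟨(i, e'), h4, ?_⟩
  refine Finset.eq_of_subset_of_card_le ?_ ?_
  · intro y hy
    obtain ⟨j, -, hj⟩ := mem_image.1 hy
    rw [← hj]
    unfold stp
    by_cases hji : j = i
    · rw [hji, Function.update_self]
      exact (mem_sdiff.1 he2).1
    · rw [Function.update_of_ne hji]
      by_contra h5
      have h6 : σ j ∈ univ.image σ \ B := mem_sdiff.2 ⟨mem_image_of_mem _ (mem_univ _), h5⟩
      rw [he, mem_singleton, ← hi] at h6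
      exact hji (hσ h6)
  · rw [hB, card_image_of_injective _ h4, card_univ, Fintype.card_fin]

private theorem exists_nu {M : ℕ} (m : ℕ) (w : Fin (m + 1) → Finset (Pr n)) (hw : JW M m w)
    (ω : Om n M) (hω : Function.Injective ω) (h0 : univ.image ω = w 0) :
    ∃ ν : Fin m → Mv n M, ∀ s : Fin (m + 1), Function.Injective (stf ω ν s) ∧
      univ.image (stf ω ν s) = w s := by
  induction m with
  | zero =>
    refine ⟨fun i => i.elim0, fun s => ?_⟩
    rw [Fin.fin_one_eq_zero s]
    exact ⟨hω, h0⟩
  | succ m ih =>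
    obtain ⟨ν, hν⟩ := ih (fun i => w i.castSucc) ⟨fun i => hw.1 _, fun i => by
      have := hw.2 i.castSucc
      rwa [Fin.succ_castSucc] at this⟩ h0
    have h1 := hν (Fin.last m)
    have h2 := hw.2 (Fin.last m)
    obtain ⟨x, hx1, hx2⟩ := one_step (stf ω ν (Fin.last m : ℕ)) h1.1 (hw.1 (Fin.last m).succ)
      (by rw [h1.2]; exact h2)
    refine ⟨Fin.snoc ν x, fun s => ?_⟩
    refine Fin.lastCases ?_ (fun s => ?_) s
    · have h3 : stf ω (Fin.snoc ν x : Fin (m + 1) → Mv n M) (Fin.last (m + 1) : ℕ) =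
          stp (stf ω ν (Fin.last m : ℕ)) x := by
        change (if h : m < m + 1 then stp (stf ω (Fin.snoc ν x : Fin (m + 1) → Mv n M) m)
          ((Fin.snoc ν x : Fin (m + 1) → Mv n M) ⟨m, h⟩) else _) = _
        rw [dif_pos (Nat.lt_succ_self m), stf_snoc ω ν x m le_rfl]
        have h4 : (Fin.snoc ν x : Fin (m + 1) → Mv n M) ⟨m, Nat.lt_succ_self m⟩ = x :=
          Fin.snoc_last (α := fun _ => Mv n M) x ν
        rw [h4]
        rfl
      rw [h3]
      exact ⟨hx1, hx2⟩
    · have h3 : stf ω (Fin.snoc ν x : Fin (m + 1) → Mv n M) (s.castSucc : ℕ) = stf ω ν (s : ℕ) :=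
        stf_snoc ω ν x _ (Nat.lt_succ_iff.1 s.2)
      rw [h3]
      exact hν s

open Classical in
theorem lift (M m : ℕ) (P : Finset (Pr n) → Finset (Pr n) → Prop) :
    M.factorial * (univ.filter (fun w : Fin (m + 1) → Finset (Pr n) =>
        JW M m w ∧ P (w 0) (w (Fin.last m)))).card ≤
      (univ.filter (fun p : Om n M × (Fin m → Mv n M) => Function.Injective p.1 ∧
        Function.Injective (stf p.1 p.2 m) ∧ P (univ.image p.1) (univ.image (stf p.1 p.2 m)))).card := by
  have hg : ∀ S : Finset (Pr n), S.card = M → ∃ g : Fin M → Pr n, Function.Injective g ∧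
      univ.image g = S := by
    intro S hS
    refine ⟨fun i => ((S.equivFinOfCardEq hS).symm i).1, ?_, ?_⟩
    · intro a b hab
      exact (S.equivFinOfCardEq hS).symm.injective (Subtype.ext hab)
    · ext a
      simp only [mem_image, mem_univ, true_and]
      constructor
      · rintro ⟨i, rfl⟩
        exact ((S.equivFinOfCardEq hS).symm i).2
      · intro ha
        exact ⟨S.equivFinOfCardEq hS ⟨a, ha⟩, by rw [Equiv.symm_apply_apply]⟩
  choose g hg1 hg2 using hg
  obtain ⟨W, hW⟩ : ∃ W, W = univ.filter (fun w : Fin (m + 1) → Finset (Pr n) =>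
        JW M m w ∧ P (w 0) (w (Fin.last m))) := ⟨_, rfl⟩
  rw [← hW]
  have hcard : M.factorial * W.card =
      ((univ : Finset (Equiv.Perm (Fin M))) ×ˢ W).attach.card := by
    rw [card_attach, card_product, card_univ, Fintype.card_perm, Fintype.card_fin]
  rw [hcard]
  have hWm : ∀ w ∈ W, JW M m w ∧ P (w 0) (w (Fin.last m)) := by
    intro w hw
    rw [hW] at hw
    exact (mem_filter.1 hw).2
  have hmem : ∀ x : {x // x ∈ (univ : Finset (Equiv.Perm (Fin M))) ×ˢ W},
      JW M m x.1.2 ∧ P (x.1.2 0) (x.1.2 (Fin.last m)) :=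
    fun x => hWm _ (mem_product.1 x.2).2
  have hex : ∀ x : {x // x ∈ (univ : Finset (Equiv.Perm (Fin M))) ×ˢ W},
      ∃ p : Om n M × (Fin m → Mv n M), p.1 = g (x.1.2 0) ((hmem x).1.1 0) ∘ x.1.1 ∧
        ∀ s : Fin (m + 1), Function.Injective (stf p.1 p.2 s) ∧
          univ.image (stf p.1 p.2 s) = x.1.2 s := by
    intro x
    have h1 : Function.Injective (g (x.1.2 0) ((hmem x).1.1 0) ∘ x.1.1) :=
      (hg1 _ _).comp x.1.1.injective
    have h2 : univ.image (g (x.1.2 0) ((hmem x).1.1 0) ∘ x.1.1) = x.1.2 0 := by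
      rw [← image_image, image_univ_equiv, hg2]
    obtain ⟨ν, hν⟩ := exists_nu m x.1.2 (hmem x).1 _ h1 h2
    exact ⟨(_, ν), rfl, hν⟩
  choose f hf1 hf2 using hex
  refine Finset.card_le_card_of_injOn f ?_ ?_
  · intro x _
    refine mem_coe.2 (mem_filter.2 ⟨mem_univ _, (hf2 x 0).1, (hf2 x (Fin.last m)).1, ?_⟩)
    have h1 : univ.image (f x).1 = x.1.2 0 := (hf2 x 0).2
    have h2 : univ.image (stf (f x).1 (f x).2 m) = x.1.2 (Fin.last m) := (hf2 x (Fin.last m)).2
    rw [h1, h2]
    exact (hmem x).2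
  · intro x _ y _ hxy
    have h1 : x.1.2 = y.1.2 := by
      funext s
      rw [← (hf2 x s).2, ← (hf2 y s).2, hxy]
    have h2 : g (x.1.2 0) ((hmem x).1.1 0) ∘ x.1.1 = g (y.1.2 0) ((hmem y).1.1 0) ∘ y.1.1 := by
      rw [← hf1 x, ← hf1 y, hxy]
    have h3 : ∀ (S T : Finset (Pr n)) (hS : S.card = M) (hT : T.card = M), S = T → g S hS = g T hT := by
      rintro S T hS hT rfl
      rfl
    rw [h3 _ _ ((hmem x).1.1 0) ((hmem y).1.1 0) (by rw [h1])] at h2
    have h4 : x.1.1 = y.1.1 := by
      ext1 i
      exact hg1 _ _ (congrFun h2 i)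
    exact Subtype.ext (Prod.ext h4 h1)

open Classical in
/-- the number of the injective states -/
theorem inj_count (M : ℕ) : (univ.filter (fun ω : Om n M => Function.Injective ω)).card =
    M.factorial * (NN n).choose M := by
  rw [← Nat.descFactorial_eq_factorial_mul_choose]
  have h1 := Fintype.card_embedding_eq (α := Fin M) (β := Pr n)
  rw [Fintype.card_fin] at h1
  rw [← h1, ← Fintype.card_subtype]
  exact Fintype.card_congr (Equiv.subtypeInjectiveEquivEmbedding _ _)

end Pool.Agent.INS
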