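import Pool.Agent.INS.Nums

/-! INS/NumB.  The main term.

PLAN.  `β = be ε`, `x = n/k`, `L = ln k`.  `C(n,b) ≤ (e n / b)^b` (`n^b/b!` and `b! ≥ (b/e)^b`) `≤ exp (b (1 + ln (n/b))) ≤
exp (b (1 + L + ln (1/β)))` as `b ≥ β n/k`.  `Mk/NN ≥ 2 Mk/n² ≥ ((1+2ε) k L n - 2)/n²` and `x - (b+1)/2 ≥ (1-β) x - 1/2` as `b < 2 β x`, so
`(Mk/NN)(x - (b+1)/2) ≥ (1+2ε)(1-β) L - O_k(1/n) = (1 + 3ε/2) L - O_k(1/n) ≥ (1 + 7ε/5) L` for large `n`.  Hence the product is
`≤ exp (-b ((2/5) ε L - 1 - ln (1/β)) - b ε L) ≤ exp (-b ε L) ≤ exp (-β ε x L)` as soon as `(2/5) ε L ≥ 1 + ln (1/β)`. -/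

set_option autoImplicit false

open Finset

namespace Pool.Agent.INS

private theorem be_pos' {ε : ℝ} (hε : 0 < ε) : 0 < be ε ∧ be ε < 1 / 4 := by
  unfold be
  have h1 : 0 < 2 * (1 + 2 * ε) := by linarith
  refine ⟨div_pos hε h1, ?_⟩
  rw [div_lt_div_iff₀ h1 (by norm_num)]
  linarith

private theorem be_id {ε : ℝ} (hε : 0 < ε) : (1 + 2 * ε) * (1 - be ε) = 1 + 3 / 2 * ε := by
  unfold be
  have h1 : (1 + 2 * ε) ≠ 0 := by linarith
  field_simp
  ring

private theorem choose_le_exp {n b : ℕ} (hb : 0 < b) (hn : 0 < n) :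
    (n.choose b : ℝ) ≤ Real.exp (b * (1 + Real.log ((n : ℝ) / b))) := by
  have hb' : (0 : ℝ) < b := by exact_mod_cast hb
  have hn' : (0 : ℝ) < n := by exact_mod_cast hn
  have hfac : (0 : ℝ) < (b.factorial : ℝ) := by exact_mod_cast Nat.factorial_pos b
  have h1 : (n.choose b : ℝ) ≤ (n : ℝ) ^ b / (b.factorial : ℝ) := Nat.choose_le_pow_div b n
  have h2 : (b : ℝ) ^ b / (b.factorial : ℝ) ≤ Real.exp (b : ℝ) :=
    Real.pow_div_factorial_le_exp (b : ℝ) hb'.le b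
  have h3 : (n : ℝ) ^ b / (b.factorial : ℝ) =
      ((n : ℝ) / b) ^ b * ((b : ℝ) ^ b / (b.factorial : ℝ)) := by
    rw [div_pow]
    field_simp
  have h4 : ((n : ℝ) / b) ^ b = Real.exp (b * Real.log ((n : ℝ) / b)) := by
    rw [mul_comm, Real.exp_mul, Real.exp_log (div_pos hn' hb')]
    rw [Real.rpow_natCast]
  calc (n.choose b : ℝ) ≤ ((n : ℝ) / b) ^ b * ((b : ℝ) ^ b / (b.factorial : ℝ)) := by
        rw [← h3]; exact h1
    _ ≤ ((n : ℝ) / b) ^ b * Real.exp (b : ℝ) := by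
        apply mul_le_mul_of_nonneg_left h2
        positivity
    _ = Real.exp (b * (1 + Real.log ((n : ℝ) / b))) := by
        rw [h4, ← Real.exp_add]
        congr 1
        ring

/-- lower bound for the rate -/
private theorem rate {ε : ℝ} (hε : 0 < ε) {k n b : ℕ} (hk : 3 ≤ k) (hn : 3 ≤ n)
    (hL : 1 ≤ Real.log k)
    (hn1 : 2 / (k : ℝ) + (1 + 2 * ε) * k * Real.log k / 2 ≤ ε / 10 * Real.log k * n)
    (hb : (b : ℝ) < 2 * (be ε * ((n : ℝ) / k))) :
    (1 + 7 / 5 * ε) * Real.log k ≤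
      ((Mk ε k n : ℝ) / NN n) * ((n : ℝ) / k - ((b : ℝ) + 1) / 2) := by
  obtain ⟨hβ0, hβ1⟩ := be_pos' hε
  set β := be ε with hβ
  set L := Real.log k with hLd
  have hid : (1 + 2 * ε) * (1 - β) = 1 + 3 / 2 * ε := be_id hε
  have hk' : (3 : ℝ) ≤ k := by exact_mod_cast hk
  have hn' : (3 : ℝ) ≤ n := by exact_mod_cast hn
  have hk0 : (0 : ℝ) < k := by linarith
  have hn0 : (0 : ℝ) < n := by linarith
  have hNN : (NN n : ℝ) = (n : ℝ) * ((n : ℝ) - 1) / 2 := by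
    rw [NN_eq]
    rw [Nat.cast_choose_two]
  have hNN0 : (0 : ℝ) < NN n := by
    rw [hNN]
    have : (0 : ℝ) < (n : ℝ) - 1 := by linarith
    positivity
  have hNN1 : (NN n : ℝ) ≤ (n : ℝ) ^ 2 / 2 := by
    rw [hNN]
    nlinarith
  have hM : ((1 / 2 + ε) * k * L * n) - 1 ≤ (Mk ε k n : ℝ) := by
    have := Nat.lt_floor_add_one ((1 / 2 + ε) * k * Real.log k * n)
    unfold Mk
    linarith
  have hM0 : (0 : ℝ) ≤ ((1 / 2 + ε) * k * L * n) - 1 := by
    have h1 : (1 : ℝ) ≤ (1 / 2 + ε) * k := by nlinarith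
    have h2 : (1 : ℝ) ≤ (1 / 2 + ε) * k * L := by nlinarith
    nlinarith
  -- the rate
  have hr : (((1 / 2 + ε) * k * L * n) - 1) / ((n : ℝ) ^ 2 / 2) ≤ (Mk ε k n : ℝ) / NN n := by
    apply div_le_div₀ (by positivity) hM hNN0 hNN1
  have hx : (1 - β) * ((n : ℝ) / k) - 1 / 2 ≤ (n : ℝ) / k - ((b : ℝ) + 1) / 2 := by
    linarith
  have hprod : (1 + 7 / 5 * ε) * L ≤
      (((1 / 2 + ε) * k * L * n) - 1) / ((n : ℝ) ^ 2 / 2) * ((1 - β) * ((n : ℝ) / k) - 1 / 2) := by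
    have e1 : (((1 / 2 + ε) * k * L * n) - 1) / ((n : ℝ) ^ 2 / 2) *
        ((1 - β) * ((n : ℝ) / k) - 1 / 2) =
        (1 + 2 * ε) * (1 - β) * L - (2 * (1 - β) / k + (1 + 2 * ε) * k * L / 2 - 1 / n) / n := by
      field_simp
      ring
    rw [e1, hid]
    have e2 : (2 * (1 - β) / k + (1 + 2 * ε) * k * L / 2 - 1 / n) / n ≤ ε / 10 * L := by
      rw [div_le_iff₀ hn0]
      have h1 : 2 * (1 - β) / (k : ℝ) ≤ 2 / k := by
        apply div_le_div_of_nonneg_right _ hk0.le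
        linarith
      have h2 : (0 : ℝ) ≤ 1 / n := by positivity
      linarith
    linarith
  have hxp : 0 ≤ (1 - β) * ((n : ℝ) / k) - 1 / 2 := by
    by_contra hneg
    push Not at hneg
    have h1 : (((1 / 2 + ε) * k * L * n) - 1) / ((n : ℝ) ^ 2 / 2) *
        ((1 - β) * ((n : ℝ) / k) - 1 / 2) ≤ 0 := by
      apply mul_nonpos_of_nonneg_of_nonpos _ hneg.le
      positivity
    have h2 : 0 < (1 + 7 / 5 * ε) * L := by positivity
    linarith
  calc (1 + 7 / 5 * ε) * L ≤ _ := hprod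
    _ ≤ ((Mk ε k n : ℝ) / NN n) * ((1 - β) * ((n : ℝ) / k) - 1 / 2) :=
        mul_le_mul_of_nonneg_right hr hxp
    _ ≤ _ := by
        apply mul_le_mul_of_nonneg_left hx
        positivity

theorem numB {ε : ℝ} (hε : 0 < ε) : ∃ k0 : ℕ, ∀ k : ℕ, k0 ≤ k → ∃ n0 : ℕ, ∀ n : ℕ, n0 ≤ n → NB ε k n := by
  obtain ⟨hβ0, hβ1⟩ := be_pos' hε
  -- `k0`
  have htend : Filter.Tendsto (fun k : ℕ => Real.log (k : ℝ)) Filter.atTop Filter.atTop :=
    Real.tendsto_log_atTop.comp tendsto_natCast_atTop_atTop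
  obtain ⟨k1, hk1⟩ := Filter.eventually_atTop.1
    (htend.eventually_ge_atTop (max 1 ((1 + Real.log (1 / be ε)) / (2 / 5 * ε))))
  refine ⟨max k1 3, fun k hk => ?_⟩
  have hk3 : 3 ≤ k := le_trans (le_max_right _ _) hk
  have hkk1 : k1 ≤ k := le_trans (le_max_left _ _) hk
  have hLL := hk1 k hkk1
  have hL : 1 ≤ Real.log k := le_trans (le_max_left _ _) hLL
  have hL2 : 1 + Real.log (1 / be ε) ≤ 2 / 5 * ε * Real.log k := by
    have := le_trans (le_max_right _ _) hLL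
    rw [div_le_iff₀ (by positivity)] at this
    linarith
  have hk' : (3 : ℝ) ≤ k := by exact_mod_cast hk3
  have hk0 : (0 : ℝ) < k := by linarith
  -- `n0`
  obtain ⟨n1, hn1⟩ := exists_nat_ge
    ((2 / (k : ℝ) + (1 + 2 * ε) * k * Real.log k / 2) / (ε / 10 * Real.log k))
  refine ⟨max n1 3, fun n hn => ?_⟩
  have hn3 : 3 ≤ n := le_trans (le_max_right _ _) hn
  have hnn1 : (n1 : ℝ) ≤ n := by exact_mod_cast le_trans (le_max_left _ _) hn
  have hn' : (3 : ℝ) ≤ n := by exact_mod_cast hn3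
  have hn0 : (0 : ℝ) < n := by linarith
  have hN : 2 / (k : ℝ) + (1 + 2 * ε) * k * Real.log k / 2 ≤ ε / 10 * Real.log k * n := by
    have h1 := le_trans hn1 hnn1
    rw [div_le_iff₀ (by positivity)] at h1
    linarith
  intro b hb1 hb2
  have hrate := rate hε hk3 hn3 hL hN hb2
  have hx0 : 0 < be ε * ((n : ℝ) / k) := by positivity
  have hbpos : (0 : ℝ) < b := lt_of_lt_of_le hx0 hb1
  have hb0 : 0 < b := by exact_mod_cast hbpos
  have hC := choose_le_exp (n := n) hb0 (by omega)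
  have hlog : Real.log ((n : ℝ) / b) ≤ Real.log k + Real.log (1 / be ε) := by
    rw [← Real.log_mul (by positivity) (by positivity)]
    apply Real.log_le_log (by positivity)
    rw [div_le_iff₀ hbpos]
    have : (k : ℝ) * (1 / be ε) * (be ε * ((n : ℝ) / k)) = n := by
      field_simp
    calc (n : ℝ) = (k : ℝ) * (1 / be ε) * (be ε * ((n : ℝ) / k)) := this.symm
      _ ≤ (k : ℝ) * (1 / be ε) * b := by
        apply mul_le_mul_of_nonneg_left hb1
        positivity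
  have hyy : be ε * ε * yy k n = be ε * ((n : ℝ) / k) * (ε * Real.log k) := by
    unfold yy
    ring
  calc (n.choose b : ℝ) * Real.exp (-((Mk ε k n : ℝ) / NN n) * (b * ((n : ℝ) / k - ((b : ℝ) + 1) / 2)))
      ≤ Real.exp (b * (1 + Real.log ((n : ℝ) / b))) *
        Real.exp (-((Mk ε k n : ℝ) / NN n) * (b * ((n : ℝ) / k - ((b : ℝ) + 1) / 2))) :=
        mul_le_mul_of_nonneg_right hC (Real.exp_pos _).le
    _ = Real.exp (b * (1 + Real.log ((n : ℝ) / b) -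
          ((Mk ε k n : ℝ) / NN n) * ((n : ℝ) / k - ((b : ℝ) + 1) / 2))) := by
        rw [← Real.exp_add]
        congr 1
        ring
    _ ≤ Real.exp (-(be ε * ε) * yy k n) := by
        apply Real.exp_le_exp.2
        have h1 : 1 + Real.log ((n : ℝ) / b) -
            ((Mk ε k n : ℝ) / NN n) * ((n : ℝ) / k - ((b : ℝ) + 1) / 2) ≤ -(ε * Real.log k) := by
          linarith
        have h2 : (b : ℝ) * (1 + Real.log ((n : ℝ) / b) -
            ((Mk ε k n : ℝ) / NN n) * ((n : ℝ) / k - ((b : ℝ) + 1) / 2)) ≤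
            b * (-(ε * Real.log k)) := mul_le_mul_of_nonneg_left h1 hbpos.le
        have h3 : be ε * ((n : ℝ) / k) * (ε * Real.log k) ≤ b * (ε * Real.log k) := by
          apply mul_le_mul_of_nonneg_right hb1
          positivity
        have h4 : -(be ε * ε) * yy k n = -(be ε * ((n : ℝ) / k) * (ε * Real.log k)) := by
          rw [← hyy]; ring
        rw [h4]
        linarith

end Pool.Agent.INS
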