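import Pool.Agent.INS.Nums

/-! INS/NumC.  Large stable sets, number of small sets, decorrelation. -/

set_option autoImplicit false

open Finset

namespace Pool.Agent.INS

private theorem nc_choose {n k : ℕ} (hk : 3 ≤ k) (s : ℕ) :
    (n.choose s : ℝ) ≤ Real.exp (3 * ((n : ℝ) / k)) * ((k : ℝ) / 3) ^ s := by
  have hk0 : (0 : ℝ) < k := by exact_mod_cast (by omega : 0 < k)
  have h0 : (0 : ℝ) < 3 / k := by positivity
  have h1 : (n.choose s : ℝ) * (3 / k) ^ s ≤ (1 + 3 / k) ^ n := by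
    rcases Nat.lt_or_ge n s with h | h
    · rw [Nat.choose_eq_zero_of_lt h]
      simp only [Nat.cast_zero, zero_mul]
      positivity
    · have h2 := add_pow (3 / (k : ℝ)) 1 n
      rw [add_comm (1 : ℝ), h2]
      have h3 : (n.choose s : ℝ) * (3 / k) ^ s = (3 / (k : ℝ)) ^ s * 1 ^ (n - s) * (n.choose s : ℝ) := by
        rw [one_pow, mul_one, mul_comm]
      rw [h3]
      exact Finset.single_le_sum (f := fun m => (3 / (k : ℝ)) ^ m * 1 ^ (n - m) * (n.choose m : ℝ))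
        (fun i _ => by positivity) (Finset.mem_range.2 (Nat.lt_succ_of_le h))
  have h2 : (1 + 3 / (k : ℝ)) ^ n ≤ Real.exp (3 * ((n : ℝ) / k)) := by
    have h3 : (1 + 3 / (k : ℝ)) ≤ Real.exp (3 / k) := by
      have := Real.add_one_le_exp (3 / (k : ℝ))
      linarith
    calc (1 + 3 / (k : ℝ)) ^ n ≤ (Real.exp (3 / k)) ^ n := pow_le_pow_left₀ (by positivity) h3 n
      _ = Real.exp (3 * ((n : ℝ) / k)) := by
        rw [← Real.exp_nat_mul]
        congr 1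
        ring
  have h3 : (n.choose s : ℝ) = ((n.choose s : ℝ) * (3 / k) ^ s) * ((k : ℝ) / 3) ^ s := by
    rw [mul_assoc, ← mul_pow]
    have : (3 / (k : ℝ)) * (k / 3) = 1 := by field_simp
    rw [this, one_pow, mul_one]
  rw [h3]
  exact mul_le_mul_of_nonneg_right (h1.trans h2) (by positivity)

private theorem nc_log3 : (1 : ℝ) ≤ Real.log 3 := by
  rw [Real.le_log_iff_exp_le (by norm_num)]
  exact Real.exp_one_lt_three.le

private theorem nc_pow {k : ℕ} (hk : 3 ≤ k) (s : ℕ) :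
    ((k : ℝ) / 3) ^ s = Real.exp (s * (Real.log k - Real.log 3)) := by
  have hk0 : (0 : ℝ) < k := by exact_mod_cast (by omega : 0 < k)
  rw [← Real.log_div hk0.ne' (by norm_num), Real.exp_nat_mul, Real.exp_log (by positivity)]

private theorem nc_small {n k : ℕ} (hk : 3 ≤ k) :
    (((univ : Finset (Finset (Fin n))).filter
      (fun I => I.card ≤ ⌊3 * ((n : ℝ) / k)⌋₊)).card : ℝ) ≤ (n + 1) * Real.exp (3 * yy k n) := by
  have hk0 : (0 : ℝ) < k := by exact_mod_cast (by omega : 0 < k)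
  have hk3 : (3 : ℝ) ≤ k := by exact_mod_cast hk
  set m : ℕ := ⌊3 * ((n : ℝ) / k)⌋₊ with hm
  have hmx : (m : ℝ) ≤ 3 * ((n : ℝ) / k) := Nat.floor_le (by positivity)
  have ht0 : (0 : ℝ) < 3 / k := by positivity
  have ht1 : (3 : ℝ) / k ≤ 1 := by
    rw [div_le_one hk0]
    exact hk3
  have h1 : (((univ : Finset (Finset (Fin n))).filter (fun I => I.card ≤ m)).card : ℝ) * (3 / k) ^ m ≤
      (3 / (k : ℝ) + 1) ^ n := by
    have h2 := Fintype.sum_pow_mul_eq_add_pow (Fin n) (3 / (k : ℝ)) 1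
    rw [Fintype.card_fin] at h2
    rw [← h2, ← nsmul_eq_mul, ← Finset.sum_const]
    calc ∑ _I ∈ (univ : Finset (Finset (Fin n))).filter (fun I => I.card ≤ m), (3 / (k : ℝ)) ^ m
        ≤ ∑ I ∈ (univ : Finset (Finset (Fin n))).filter (fun I => I.card ≤ m),
          (3 / (k : ℝ)) ^ I.card * 1 ^ (n - I.card) := by
          refine Finset.sum_le_sum fun I hI => ?_
          rw [one_pow, mul_one]
          exact pow_le_pow_of_le_one ht0.le ht1 (Finset.mem_filter.1 hI).2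
      _ ≤ ∑ I : Finset (Fin n), (3 / (k : ℝ)) ^ I.card * 1 ^ (n - I.card) :=
          Finset.sum_le_sum_of_subset_of_nonneg (Finset.filter_subset _ _)
            (fun i _ _ => by positivity)
  have h2 : (3 / (k : ℝ) + 1) ^ n ≤ Real.exp (3 * ((n : ℝ) / k)) := by
    calc (3 / (k : ℝ) + 1) ^ n ≤ (Real.exp (3 / k)) ^ n :=
          pow_le_pow_left₀ (by positivity) (Real.add_one_le_exp _) n
      _ = Real.exp (3 * ((n : ℝ) / k)) := by
        rw [← Real.exp_nat_mul]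
        congr 1
        ring
  have h3 : (((univ : Finset (Finset (Fin n))).filter (fun I => I.card ≤ m)).card : ℝ) =
      ((((univ : Finset (Finset (Fin n))).filter (fun I => I.card ≤ m)).card : ℝ) * (3 / k) ^ m) *
        ((k : ℝ) / 3) ^ m := by
    rw [mul_assoc, ← mul_pow]
    have : (3 / (k : ℝ)) * (k / 3) = 1 := by field_simp
    rw [this, one_pow, mul_one]
  have h4 : (((univ : Finset (Finset (Fin n))).filter (fun I => I.card ≤ m)).card : ℝ) ≤
      Real.exp (3 * yy k n) := by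
    rw [h3]
    refine (mul_le_mul_of_nonneg_right (h1.trans h2) (by positivity)).trans ?_
    rw [nc_pow hk, ← Real.exp_add]
    refine Real.exp_le_exp.2 ?_
    have h5 : 0 ≤ Real.log k - Real.log 3 := by
      rw [sub_nonneg]
      exact Real.log_le_log (by norm_num) hk3
    have h6 : (m : ℝ) * (Real.log k - Real.log 3) ≤
        3 * ((n : ℝ) / k) * (Real.log k - Real.log 3) := mul_le_mul_of_nonneg_right hmx h5
    have h7 : 3 * yy k n = 3 * ((n : ℝ) / k) * Real.log k := by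
      unfold yy
      ring
    have h8 : 0 ≤ 3 * ((n : ℝ) / k) := by positivity
    have h9 := mul_le_mul_of_nonneg_left nc_log3 h8
    nlinarith
  refine h4.trans ?_
  have h5 : (0 : ℝ) ≤ n := Nat.cast_nonneg n
  have h6 := (Real.exp_pos (3 * yy k n)).le
  nlinarith [mul_nonneg h5 h6]

/-- the density of the pairs -/
private theorem nc_dens {ε : ℝ} (hε : 0 < ε) {k n : ℕ} (hk : 3 ≤ k) (hn : 2 ≤ n)
    (hL : 1 ≤ Real.log k) :
    ((1 + 2 * ε) * k * Real.log k * n - 2) / (n : ℝ) ^ 2 ≤ (Mk ε k n : ℝ) / NN n ∧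
      0 ≤ ((1 + 2 * ε) * k * Real.log k * n - 2) / (n : ℝ) ^ 2 := by
  have hk3 : (3 : ℝ) ≤ k := by exact_mod_cast hk
  have hn2 : (2 : ℝ) ≤ n := by exact_mod_cast hn
  have h1 : (1 / 2 + ε) * k * Real.log k * n - 1 < Mk ε k n := by
    have := Nat.lt_floor_add_one ((1 / 2 + ε) * k * Real.log k * n)
    unfold Mk
    linarith
  have hA : (1 : ℝ) ≤ (1 + 2 * ε) * k * Real.log k * n - 2 := by
    have h2 : (3 : ℝ) ≤ (1 + 2 * ε) * k := by nlinarith
    have h3 : (3 : ℝ) ≤ (1 + 2 * ε) * k * Real.log k := by nlinarith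
    nlinarith
  have hN : (NN n : ℝ) = n * (n - 1) / 2 := by
    rw [NN_eq, Nat.cast_choose_two]
  have hN0 : (0 : ℝ) < NN n := by
    rw [hN]
    have : (0 : ℝ) < (n : ℝ) - 1 := by linarith
    positivity
  have hn2' : (0 : ℝ) < (n : ℝ) ^ 2 := by positivity
  refine ⟨?_, by positivity⟩
  rw [div_le_div_iff₀ hn2' hN0, hN]
  have h4 : ((1 + 2 * ε) * k * Real.log k * n - 2) ≤ 2 * Mk ε k n := by
    nlinarith [h1]
  have h5 : (n : ℝ) * (n - 1) / 2 ≤ (n : ℝ) ^ 2 / 2 := by nlinarith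
  have h6 : (0 : ℝ) ≤ (n : ℝ) * (n - 1) / 2 := by
    have : (0 : ℝ) < (n : ℝ) - 1 := by linarith
    positivity
  calc ((1 + 2 * ε) * k * Real.log k * n - 2) * ((n : ℝ) * (n - 1) / 2)
      ≤ (2 * Mk ε k n) * ((n : ℝ) ^ 2 / 2) := mul_le_mul h4 h5 h6 (by positivity)
    _ = (Mk ε k n : ℝ) * (n : ℝ) ^ 2 := by ring

private theorem nc_big {ε : ℝ} (hε : 0 < ε) {k n : ℕ} (hk : 3 ≤ k) (hn : 2 ≤ n)
    (hL : 1 ≤ Real.log k) (hx : (k : ℝ) * (2 + 2 * ε) ≤ ε * n) :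
    (n.choose ⌈3 * ((n : ℝ) / k)⌉₊ : ℝ) *
      Real.exp (-((Mk ε k n : ℝ) / NN n) * ((⌈3 * ((n : ℝ) / k)⌉₊).choose 2 : ℝ)) ≤
        Real.exp (-yy k n) := by
  have hk3 : (3 : ℝ) ≤ k := by exact_mod_cast hk
  have hk0 : (0 : ℝ) < k := by linarith
  have hn2 : (2 : ℝ) ≤ n := by exact_mod_cast hn
  have hn0 : (0 : ℝ) < n := by linarith
  obtain ⟨hd, hd0⟩ := nc_dens hε hk hn hL
  set s : ℕ := ⌈3 * ((n : ℝ) / k)⌉₊ with hs
  set x : ℝ := (n : ℝ) / k with hxd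
  set L : ℝ := Real.log k with hLd
  set q : ℝ := (Mk ε k n : ℝ) / NN n with hq
  have hx0 : 0 < x := by positivity
  have hkx : (k : ℝ) * x = n := by
    rw [hxd]
    field_simp
  have hx2 : 2 ≤ x := by
    have h1 : (k : ℝ) * (2 + 2 * ε) ≤ k * (ε * x) := by
      calc (k : ℝ) * (2 + 2 * ε) ≤ ε * n := hx
        _ = k * (ε * x) := by rw [← hkx]; ring
    have h2 : 2 + 2 * ε ≤ ε * x := le_of_mul_le_mul_left h1 hk0
    have h3 : 2 * ε ≤ x * ε := by linarith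
    exact le_of_mul_le_mul_right h3 hε
  have hs3 : 3 * x ≤ s := Nat.le_ceil _
  have hsc : (s.choose 2 : ℝ) = s * (s - 1) / 2 := Nat.cast_choose_two _ _
  have hy : yy k n = x * L := by
    unfold yy
    rw [hxd]
    ring
  have hc := nc_choose (n := n) hk s
  rw [nc_pow hk, ← Real.exp_add] at hc
  have h1 : (n.choose s : ℝ) ≤ Real.exp (s * L) := by
    refine hc.trans (Real.exp_le_exp.2 ?_)
    have h2 := nc_log3
    have h3 : (s : ℝ) * 1 ≤ s * Real.log 3 := mul_le_mul_of_nonneg_left h2 (Nat.cast_nonneg _)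
    nlinarith
  -- the density
  have h2 : (3 / 2) * L ≤ q * ((s - 1) / 2) := by
    have h3 : ((1 + 2 * ε) * k * L * n - 2) / (n : ℝ) ^ 2 * ((3 * x - 1) / 2) ≤ q * ((s - 1) / 2) := by
      refine mul_le_mul hd (by linarith) (by linarith) (hd0.trans hd)
    refine le_trans ?_ h3
    rw [div_mul_div_comm, le_div_iff₀ (by positivity)]
    have h4 : (n : ℝ) * n = (n : ℝ) * (k * x) := by rw [hkx]
    -- (3/2) L n^2 2 ≤ ((1+2ε) k L n - 2)(3x - 1)
    have h5 : ((1 + 2 * ε) * k * L * n - 2) * (3 * x - 1) =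
        3 * (1 + 2 * ε) * L * n * (k * x) - (1 + 2 * ε) * k * L * n - 6 * x + 2 := by ring
    rw [h5, hkx]
    have h6 : x ≤ n := by
      rw [← hkx]
      nlinarith
    have h7 : (1 + 2 * ε) * k + 6 ≤ 6 * (ε * n) := by
      nlinarith [mul_pos hk0 hε]
    have h8 : (1 + 2 * ε) * k * L * n + 6 * x ≤ 6 * ε * L * n * n := by
      have h9 : ((1 + 2 * ε) * k + 6) * (L * n) ≤ 6 * (ε * n) * (L * n) :=
        mul_le_mul_of_nonneg_right h7 (by positivity)
      have h10 : 6 * x ≤ 6 * (L * n) := by nlinarith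
      nlinarith
    nlinarith
  have h3 : Real.exp (-q * (s.choose 2 : ℝ)) ≤ Real.exp (-((s : ℝ) * ((3 / 2) * L))) := by
    refine Real.exp_le_exp.2 ?_
    rw [hsc]
    have h4 : (s : ℝ) * ((3 / 2) * L) ≤ s * (q * ((s - 1) / 2)) :=
      mul_le_mul_of_nonneg_left h2 (Nat.cast_nonneg _)
    nlinarith
  calc (n.choose s : ℝ) * Real.exp (-q * (s.choose 2 : ℝ))
      ≤ Real.exp (s * L) * Real.exp (-((s : ℝ) * ((3 / 2) * L))) :=
        mul_le_mul h1 h3 (Real.exp_pos _).le (Real.exp_pos _).le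
    _ = Real.exp (-((s : ℝ) * L / 2)) := by
        rw [← Real.exp_add]
        congr 1
        ring
    _ ≤ Real.exp (-yy k n) := by
        refine Real.exp_le_exp.2 ?_
        rw [hy]
        have h5 : 3 * x * L ≤ s * L := mul_le_mul_of_nonneg_right hs3 (by linarith)
        have h6 : 0 ≤ x * L := by positivity
        linarith

private theorem nc_dec {ε : ℝ} (hε : 0 < ε) {k n : ℕ} (hk : 3 ≤ k) (hn : 2 ≤ n)
    (hL : 1 ≤ Real.log k) (hL' : 96 * (KK ε : ℝ) ≤ Real.log k)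
    (hx : (k : ℝ) * (2 + 2 * ε) ≤ ε * n) :
    (2 : ℝ) ^ (KK ε * ⌊3 * ((n : ℝ) / k)⌋₊) *
      Real.exp (-(((Mk ε k n + 1) / 2 : ℕ) : ℝ) / NN n * ((⌈(n : ℝ) / k / 2⌉₊).choose 2 : ℝ)) ≤
        Real.exp (-yy k n / 32) := by
  have hk3 : (3 : ℝ) ≤ k := by exact_mod_cast hk
  have hk0 : (0 : ℝ) < k := by linarith
  have hn2 : (2 : ℝ) ≤ n := by exact_mod_cast hn
  have hn0 : (0 : ℝ) < n := by linarith
  obtain ⟨hd, hd0⟩ := nc_dens hε hk hn hL
  set s : ℕ := ⌊3 * ((n : ℝ) / k)⌋₊ with hs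
  set x : ℝ := (n : ℝ) / k with hxd
  set j : ℕ := ⌈x / 2⌉₊ with hj
  set L : ℝ := Real.log k with hLd
  have hx0 : 0 < x := by positivity
  have hkx : (k : ℝ) * x = n := by
    rw [hxd]
    field_simp
  have hεx : 2 + 2 * ε ≤ ε * x := by
    have h1 : (k : ℝ) * (2 + 2 * ε) ≤ k * (ε * x) := by
      calc (k : ℝ) * (2 + 2 * ε) ≤ ε * n := hx
        _ = k * (ε * x) := by rw [← hkx]; ring
    exact le_of_mul_le_mul_left h1 hk0
  have hx2 : 2 ≤ x := by
    have h3 : 2 * ε ≤ x * ε := by linarith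
    exact le_of_mul_le_mul_right h3 hε
  have hy : yy k n = x * L := by
    unfold yy
    rw [hxd]
    ring
  have hs3 : (s : ℝ) ≤ 3 * x := Nat.floor_le (by positivity)
  have hj1 : x / 2 ≤ j := Nat.le_ceil _
  have hjc : (j.choose 2 : ℝ) = j * (j - 1) / 2 := Nat.cast_choose_two _ _
  have hN0 : (0 : ℝ) < NN n := by
    rw [NN_eq, Nat.cast_choose_two]
    have : (0 : ℝ) < (n : ℝ) - 1 := by linarith
    positivity
  -- half of the edges
  have hM : (Mk ε k n : ℝ) / 2 ≤ (((Mk ε k n + 1) / 2 : ℕ) : ℝ) := by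
    have h1 : Mk ε k n ≤ 2 * ((Mk ε k n + 1) / 2) := by omega
    have h2 : (Mk ε k n : ℝ) ≤ ((2 * ((Mk ε k n + 1) / 2) : ℕ) : ℝ) := Nat.cast_le.2 h1
    rw [Nat.cast_mul, Nat.cast_ofNat] at h2
    linarith
  have hq : ((1 + 2 * ε) * k * L * n - 2) / (n : ℝ) ^ 2 / 2 ≤
      (((Mk ε k n + 1) / 2 : ℕ) : ℝ) / NN n := by
    calc ((1 + 2 * ε) * k * L * n - 2) / (n : ℝ) ^ 2 / 2 ≤ (Mk ε k n : ℝ) / NN n / 2 := by linarith
      _ = (Mk ε k n : ℝ) / 2 / NN n := by ring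
      _ ≤ _ := div_le_div_of_nonneg_right hM hN0.le
  have hj2 : x / 2 * (x / 2 - 1) / 2 ≤ (j.choose 2 : ℝ) := by
    rw [hjc]
    have h1 : x / 2 * (x / 2 - 1) ≤ j * (j - 1) :=
      mul_le_mul hj1 (by linarith) (by linarith) (Nat.cast_nonneg _)
    linarith
  have hE : x * L / 16 ≤ (((Mk ε k n + 1) / 2 : ℕ) : ℝ) / NN n * (j.choose 2 : ℝ) := by
    have h1 : ((1 + 2 * ε) * k * L * n - 2) / (n : ℝ) ^ 2 / 2 * (x / 2 * (x / 2 - 1) / 2) ≤
        (((Mk ε k n + 1) / 2 : ℕ) : ℝ) / NN n * (j.choose 2 : ℝ) := by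
      have h0 : 0 ≤ x / 2 * (x / 2 - 1) / 2 := by
        have : 0 ≤ x / 2 - 1 := by linarith
        positivity
      exact mul_le_mul hq hj2 h0 ((div_nonneg hd0 (by norm_num)).trans hq)
    refine le_trans ?_ h1
    have h2 : ((1 + 2 * ε) * k * L * n - 2) / (n : ℝ) ^ 2 / 2 * (x / 2 * (x / 2 - 1) / 2) =
        (((1 + 2 * ε) * k * L * n - 2) * (x * (x - 2))) / (16 * (n : ℝ) ^ 2) := by
      ring
    rw [h2, le_div_iff₀ (by positivity)]
    have h5 : ((1 + 2 * ε) * k * L * n - 2) * (x * (x - 2)) - x * L / 16 * (16 * (n : ℝ) ^ 2) =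
        x * (((1 + 2 * ε) * k * L * n - 2) * (x - 2) - L * n * (k * x)) := by
      rw [hkx]
      ring
    have h6 : 0 ≤ ((1 + 2 * ε) * k * L * n - 2) * (x - 2) - L * n * (k * x) := by
      have h7 : ((1 + 2 * ε) * k * L * n - 2) * (x - 2) - L * n * (k * x) =
          k * L * n * (2 * (ε * x) - 2 * (1 + 2 * ε)) - 2 * x + 4 := by ring
      rw [h7]
      have h8 : 2 ≤ 2 * (ε * x) - 2 * (1 + 2 * ε) := by linarith
      have h9 : k * L * n * 2 ≤ k * L * n * (2 * (ε * x) - 2 * (1 + 2 * ε)) :=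
        mul_le_mul_of_nonneg_left h8 (by positivity)
      have h10 : x ≤ n := by
        rw [← hkx]
        nlinarith
      have h11 : (n : ℝ) ≤ k * L * n := by
        have : 1 ≤ k * L := by nlinarith
        nlinarith
      linarith
    have h7 : 0 ≤ x * (((1 + 2 * ε) * k * L * n - 2) * (x - 2) - L * n * (k * x)) :=
      mul_nonneg hx0.le h6
    linarith
  have h2pow : (2 : ℝ) ^ (KK ε * s) ≤ Real.exp (x * L / 32) := by
    have h1 : (2 : ℝ) ≤ Real.exp 1 := by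
      have := Real.add_one_le_exp (1 : ℝ)
      linarith
    calc (2 : ℝ) ^ (KK ε * s) ≤ (Real.exp 1) ^ (KK ε * s) := pow_le_pow_left₀ (by norm_num) h1 _
      _ = Real.exp ((KK ε : ℝ) * s) := by
        rw [← Real.exp_nat_mul, mul_one, Nat.cast_mul]
      _ ≤ Real.exp (x * L / 32) := by
        refine Real.exp_le_exp.2 ?_
        have h2 : (KK ε : ℝ) * s ≤ KK ε * (3 * x) := mul_le_mul_of_nonneg_left hs3 (Nat.cast_nonneg _)
        have h3 : x * (96 * (KK ε : ℝ)) ≤ x * L := mul_le_mul_of_nonneg_left hL' hx0.le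
        linarith
  calc (2 : ℝ) ^ (KK ε * s) *
      Real.exp (-(((Mk ε k n + 1) / 2 : ℕ) : ℝ) / NN n * (j.choose 2 : ℝ))
      ≤ Real.exp (x * L / 32) * Real.exp (-(x * L / 16)) := by
        refine mul_le_mul h2pow (Real.exp_le_exp.2 ?_) (Real.exp_pos _).le (Real.exp_pos _).le
        rw [neg_div, neg_mul]
        linarith
    _ = Real.exp (-yy k n / 32) := by
        rw [← Real.exp_add, hy]
        congr 1
        ring

theorem numC {ε : ℝ} (hε : 0 < ε) : ∃ k0 : ℕ, ∀ k : ℕ, k0 ≤ k → ∃ n0 : ℕ, ∀ n : ℕ, n0 ≤ n → NC ε k n := by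
  refine ⟨max 3 ⌈Real.exp (96 * (KK ε : ℝ))⌉₊, fun k hk => ?_⟩
  have hk3 : 3 ≤ k := (le_max_left _ _).trans hk
  have hk' : Real.exp (96 * (KK ε : ℝ)) ≤ k :=
    (Nat.le_ceil _).trans (Nat.cast_le.2 ((le_max_right _ _).trans hk))
  have hk3' : (3 : ℝ) ≤ k := by exact_mod_cast hk3
  have hk0 : (0 : ℝ) < k := by linarith
  have hL : 1 ≤ Real.log k := nc_log3.trans (Real.log_le_log (by norm_num) hk3')
  have hL' : 96 * (KK ε : ℝ) ≤ Real.log k := (Real.le_log_iff_exp_le hk0).2 hk'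
  refine ⟨max 2 ⌈(k : ℝ) * (2 + 2 * ε) / ε⌉₊, fun n hn => ?_⟩
  have hn2 : 2 ≤ n := (le_max_left _ _).trans hn
  have hn' : (k : ℝ) * (2 + 2 * ε) / ε ≤ n :=
    (Nat.le_ceil _).trans (Nat.cast_le.2 ((le_max_right _ _).trans hn))
  rw [div_le_iff₀ hε, mul_comm (n : ℝ)] at hn'
  exact ⟨nc_big hε hk3 hn2 hL hn', nc_small hk3, nc_dec hε hk3 hn2 hL hL' hn'⟩

end Pool.Agent.INS
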