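import Pool.Agent.INS.NumA

/-! INS/NumD.  The sum of the exceptional probabilities.

PLAN.  `y = yy k n → ∞`, `Mk ≥ y` and `Mk ≤ (1/2+ε) k² y` (`numA`), so every factor polynomial in `T, τ, n` (`n = k y / ln k ≤ k y`) is `≤ exp (y/1000)`
for large `n`; `2^(-3M) ≤ exp (-2 M) ≤ exp (-2y)`.  Last term: with `K = KK ε`, `(exp (-(β ε) y))^K ≤ exp (-6 y)`
(`be_pos`), `2^(K K ⌊3x⌋) ≤ exp (3 K² x) ≤ exp (y)` as soon as `ln k ≥ 3 K²`; so the exponent is `3y + y - 6y = -2y` plus lower order.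
Each of the four terms is at most `exp (-y/40)/4`. -/

set_option autoImplicit false

open Finset

namespace Pool.Agent.INS

private theorem numD_growth (C : ℝ) (m : ℕ) : ∃ Y : ℝ, ∀ y : ℝ, Y ≤ y → C * y ^ m ≤ Real.exp (y / 160) := by
  have h := isLittleO_pow_exp_pos_mul_atTop (k := m) (b := 1 / 160) (by norm_num)
  have h2 := h.def (c := 1 / (|C| + 1)) (by positivity)
  rw [Filter.eventually_atTop] at h2
  obtain ⟨Y, hY⟩ := h2
  refine ⟨max Y 0, fun y hy => ?_⟩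
  have hy1 : Y ≤ y := le_trans (le_max_left _ _) hy
  have hy0 : 0 ≤ y := le_trans (le_max_right _ _) hy
  have h3 := hY y hy1
  rw [Real.norm_eq_abs, Real.norm_eq_abs, abs_of_nonneg (pow_nonneg hy0 m), abs_of_pos (Real.exp_pos _)] at h3
  have hC : 0 < |C| + 1 := by positivity
  have h4 : (|C| + 1) * y ^ m ≤ Real.exp (1 / 160 * y) := by
    have := mul_le_mul_of_nonneg_left h3 hC.le
    calc (|C| + 1) * y ^ m ≤ (|C| + 1) * (1 / (|C| + 1) * Real.exp (1 / 160 * y)) := this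
      _ = Real.exp (1 / 160 * y) := by field_simp
  have h5 : C * y ^ m ≤ (|C| + 1) * y ^ m := by
    apply mul_le_mul_of_nonneg_right _ (pow_nonneg hy0 m)
    linarith [le_abs_self C]
  have h6 : 1 / 160 * y = y / 160 := by ring
  rw [h6] at h4
  exact h5.trans h4

private theorem numD_core {ε : ℝ} {k n K : ℕ} {B y : ℝ} (T τ : ℕ) (hK1 : 1 ≤ K)
    (hB : 1 ≤ B) (hy : 1 ≤ y)
    (hT : (T : ℝ) + 1 ≤ B * y) (hτ : (τ : ℝ) + 1 ≤ B * y) (hn : (n : ℝ) + 1 ≤ B * y)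
    (hgr : 4 * (K : ℝ) * (B * y) ^ (2 * K + 2) ≤ Real.exp (y / 160))
    (hM : (1 / 2 : ℝ) ^ (3 * Mk ε k n) ≤ Real.exp (-2 * y))
    (hF : Real.exp (3 * y) * ((2 : ℝ) ^ (K * ⌊3 * ((n : ℝ) / k)⌋₊) * Real.exp (-(be ε * ε) * y)) ^ K ≤
      Real.exp (-2 * y)) :
    ((τ : ℝ) + 1) * (1 / 2) ^ (3 * Mk ε k n) + (T + 1) * Real.exp (-y) +
      K * ((T : ℝ) + 1) ^ K * Real.exp (-y / 32) +
      ((T : ℝ) + 1) ^ (K + 1) * (((n : ℝ) + 1) * Real.exp (3 * y) *
        ((2 : ℝ) ^ (K * ⌊3 * ((n : ℝ) / k)⌋₊) * ((n + 1) *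
          Real.exp (-(be ε * ε) * y))) ^ K) ≤
    Real.exp (-y / 40) := by
  set P : ℝ := (B * y) ^ (2 * K + 2) with hP
  have hBy : 1 ≤ B * y := by nlinarith
  have hP1 : 1 ≤ P := one_le_pow₀ hBy
  have hKr : (1 : ℝ) ≤ K := by exact_mod_cast hK1
  have hpow : ∀ m : ℕ, m ≤ 2 * K + 2 → (B * y) ^ m ≤ P := fun m hm => pow_le_pow_right₀ hBy hm
  have hByP : B * y ≤ P := by
    have := hpow 1 (by omega)
    simpa using this
  -- the common bound
  have hcommon : ∀ t : ℝ, t ≤ -y / 32 → P * (K : ℝ) * Real.exp t ≤ Real.exp (-y / 40) / 4 := by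
    intro t ht
    have h1 : Real.exp t ≤ Real.exp (-y / 32) := Real.exp_le_exp.mpr ht
    have h2 : Real.exp (y / 160) * Real.exp (-y / 32) = Real.exp (-y / 40) := by
      rw [← Real.exp_add]
      congr 1
      ring
    have h3 : P * (K : ℝ) * Real.exp t ≤ P * K * Real.exp (-y / 32) :=
      mul_le_mul_of_nonneg_left h1 (by positivity)
    have h4 : P * K * Real.exp (-y / 32) ≤ (Real.exp (y / 160) / 4) * Real.exp (-y / 32) := by
      apply mul_le_mul_of_nonneg_right _ (Real.exp_pos _).le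
      linarith
    calc P * (K : ℝ) * Real.exp t ≤ (Real.exp (y / 160) / 4) * Real.exp (-y / 32) := h3.trans h4
      _ = Real.exp (y / 160) * Real.exp (-y / 32) / 4 := by ring
      _ = Real.exp (-y / 40) / 4 := by rw [h2]
  have hPK : P ≤ P * K := by nlinarith
  have ht1 : ((τ : ℝ) + 1) * (1 / 2) ^ (3 * Mk ε k n) ≤ Real.exp (-y / 40) / 4 := by
    calc ((τ : ℝ) + 1) * (1 / 2) ^ (3 * Mk ε k n) ≤ (P * K) * Real.exp (-2 * y) := by
          apply mul_le_mul (by linarith) hM (by positivity) (by positivity)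
      _ ≤ Real.exp (-y / 40) / 4 := hcommon _ (by linarith)
  have ht2 : ((T : ℝ) + 1) * Real.exp (-y) ≤ Real.exp (-y / 40) / 4 := by
    calc ((T : ℝ) + 1) * Real.exp (-y) ≤ (P * K) * Real.exp (-y) := by
          apply mul_le_mul_of_nonneg_right (by linarith) (Real.exp_pos _).le
      _ ≤ Real.exp (-y / 40) / 4 := hcommon _ (by linarith)
  have hT0 : (0 : ℝ) ≤ (T : ℝ) + 1 := by positivity
  have ht3 : K * ((T : ℝ) + 1) ^ K * Real.exp (-y / 32) ≤ Real.exp (-y / 40) / 4 := by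
    have h1 : ((T : ℝ) + 1) ^ K ≤ P := (pow_le_pow_left₀ hT0 hT K).trans (hpow K (by omega))
    calc K * ((T : ℝ) + 1) ^ K * Real.exp (-y / 32) ≤ (P * K) * Real.exp (-y / 32) := by
          apply mul_le_mul_of_nonneg_right _ (Real.exp_pos _).le
          nlinarith
      _ ≤ Real.exp (-y / 40) / 4 := hcommon _ le_rfl
  have ht4 : ((T : ℝ) + 1) ^ (K + 1) * (((n : ℝ) + 1) * Real.exp (3 * y) *
        ((2 : ℝ) ^ (K * ⌊3 * ((n : ℝ) / k)⌋₊) * ((n + 1) *
          Real.exp (-(be ε * ε) * y))) ^ K) ≤ Real.exp (-y / 40) / 4 := by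
    have hre : ((T : ℝ) + 1) ^ (K + 1) * (((n : ℝ) + 1) * Real.exp (3 * y) *
        ((2 : ℝ) ^ (K * ⌊3 * ((n : ℝ) / k)⌋₊) * ((n + 1) *
          Real.exp (-(be ε * ε) * y))) ^ K) =
        (((T : ℝ) + 1) ^ (K + 1) * ((n : ℝ) + 1) ^ (K + 1)) *
          (Real.exp (3 * y) * ((2 : ℝ) ^ (K * ⌊3 * ((n : ℝ) / k)⌋₊) *
            Real.exp (-(be ε * ε) * y)) ^ K) := by
      have h0 : ((2 : ℝ) ^ (K * ⌊3 * ((n : ℝ) / k)⌋₊) * (((n : ℝ) + 1) *
          Real.exp (-(be ε * ε) * y))) = ((n : ℝ) + 1) * ((2 : ℝ) ^ (K * ⌊3 * ((n : ℝ) / k)⌋₊) *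
          Real.exp (-(be ε * ε) * y)) := by ring
      rw [h0, mul_pow ((n : ℝ) + 1), pow_succ ((n : ℝ) + 1) K]
      ring
    have hn0 : (0 : ℝ) ≤ (n : ℝ) + 1 := by positivity
    have h1 : ((T : ℝ) + 1) ^ (K + 1) * ((n : ℝ) + 1) ^ (K + 1) ≤ P := by
      have ha := pow_le_pow_left₀ hT0 hT (K + 1)
      have hb := pow_le_pow_left₀ hn0 hn (K + 1)
      calc ((T : ℝ) + 1) ^ (K + 1) * ((n : ℝ) + 1) ^ (K + 1) ≤ (B * y) ^ (K + 1) * (B * y) ^ (K + 1) := by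
            apply mul_le_mul ha hb (by positivity) (by positivity)
        _ = P := by rw [hP, ← pow_add]; congr 1; ring
    rw [hre]
    calc _ ≤ (P * K) * Real.exp (-2 * y) := by
          apply mul_le_mul (h1.trans hPK) hF (by positivity) (by positivity)
      _ ≤ Real.exp (-y / 40) / 4 := hcommon _ (by linarith)
  linarith

theorem numD {ε : ℝ} (hε : 0 < ε) : ∃ k0 : ℕ, ∀ k : ℕ, k0 ≤ k → ∃ n0 : ℕ, ∀ n : ℕ, n0 ≤ n → ND ε k n := by
  obtain ⟨hb0, -, hK0, hbK⟩ := be_pos hε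
  set K := KK ε with hK
  -- choice of k0
  have hlog : ∃ k0 : ℕ, ∀ k : ℕ, k0 ≤ k → 3 * (K : ℝ) ^ 2 ≤ Real.log k := by
    have h1 : Filter.Tendsto (fun k : ℕ => Real.log (k : ℝ)) Filter.atTop Filter.atTop :=
      Real.tendsto_log_atTop.comp tendsto_natCast_atTop_atTop
    have h2 := h1.eventually (Filter.eventually_ge_atTop (3 * (K : ℝ) ^ 2))
    rw [Filter.eventually_atTop] at h2
    exact h2
  obtain ⟨k1, hk1⟩ := hlog
  refine ⟨max k1 3, fun k hk => ?_⟩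
  have hkk1 : k1 ≤ k := le_trans (le_max_left _ _) hk
  have hk3 : 3 ≤ k := le_trans (le_max_right _ _) hk
  have hlk := hk1 k hkk1
  have hkr : (3 : ℝ) ≤ k := by exact_mod_cast hk3
  have hkpos : (0 : ℝ) < k := by linarith
  have hKr : (1 : ℝ) ≤ K := by exact_mod_cast hK0
  have hlogk1 : 1 ≤ Real.log k := by nlinarith
  obtain ⟨n1, hn1⟩ := numA hε hk3
  set B : ℝ := 11 * K * ((1 / 2 + ε) * k ^ 2) + (k + 1) with hBdef
  obtain ⟨Y, hY⟩ := numD_growth (4 * K * B ^ (2 * K + 2)) (2 * K + 2)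
  obtain ⟨n2, hn2⟩ := exists_nat_ge ((max Y 1) * k)
  refine ⟨max n1 n2, fun n hn => ?_⟩
  have hnA := hn1 n (le_trans (le_max_left _ _) hn)
  have hn2' : n2 ≤ n := le_trans (le_max_right _ _) hn
  have hnr : (max Y 1) * k ≤ (n : ℝ) := hn2.trans (by exact_mod_cast hn2')
  set y := yy k n with hy
  have hxy : max Y 1 ≤ (n : ℝ) / k := by
    rw [le_div_iff₀ hkpos]; exact hnr
  have hxnn : (0 : ℝ) ≤ (n : ℝ) / k := by positivity
  have hyx : y = (n : ℝ) / k * Real.log k := by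
    rw [hy]; unfold yy; ring
  have hxley : (n : ℝ) / k ≤ y := by
    rw [hyx]; nlinarith
  have hyY : Y ≤ y := (le_max_left _ _).trans (hxy.trans hxley)
  have hy1 : 1 ≤ y := (le_max_right _ _).trans (hxy.trans hxley)
  have hM1 : (1 : ℝ) ≤ Mk ε k n := by
    have := hnA.M1
    linarith
  have hB1 : 1 ≤ B := by
    rw [hBdef]
    have : 0 ≤ 11 * (K : ℝ) * ((1 / 2 + ε) * (k : ℝ) ^ 2) := by positivity
    linarith
  intro T τ hT hτ
  have hbound : ∀ S : ℕ, S ≤ 10 * KK ε * Mk ε k n → (S : ℝ) + 1 ≤ B * y := by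
    intro S hS
    have h1 : (S : ℝ) ≤ 10 * K * Mk ε k n := by
      have : (S : ℝ) ≤ ((10 * KK ε * Mk ε k n : ℕ) : ℝ) := by exact_mod_cast hS
      push_cast at this
      exact this
    have h2 : (1 : ℝ) ≤ K * Mk ε k n := by nlinarith
    have h3 : (S : ℝ) + 1 ≤ 11 * K * Mk ε k n := by nlinarith
    have h4 := hnA.My
    have h5 : 11 * (K : ℝ) * Mk ε k n ≤ 11 * K * ((1 / 2 + ε) * k ^ 2 * y) := by
      apply mul_le_mul_of_nonneg_left h4 (by positivity)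
    have h6 : 11 * (K : ℝ) * ((1 / 2 + ε) * k ^ 2 * y) ≤ B * y := by
      rw [hBdef]
      have : 0 ≤ ((k : ℝ) + 1) * y := by positivity
      nlinarith
    linarith
  have hnb : (n : ℝ) + 1 ≤ B * y := by
    have h1 : (n : ℝ) = k * ((n : ℝ) / k) := by field_simp
    have h2 : (n : ℝ) ≤ k * y := by
      rw [h1]
      have : (k : ℝ) * ((k : ℝ) * ((n : ℝ) / k) / k) = k * ((n : ℝ) / k) := by field_simp
      rw [← h1]
      calc (n : ℝ) = k * ((n : ℝ) / k) := h1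
        _ ≤ k * y := mul_le_mul_of_nonneg_left hxley hkpos.le
    have h3 : 0 ≤ 11 * (K : ℝ) * ((1 / 2 + ε) * (k : ℝ) ^ 2) * y := by positivity
    rw [hBdef]
    nlinarith
  have hM : (1 / 2 : ℝ) ^ (3 * Mk ε k n) ≤ Real.exp (-2 * y) := by
    have h1 : (1 / 2 : ℝ) ^ 3 ≤ Real.exp (-2) := by
      have he : Real.exp (-2) = (Real.exp 1 ^ 2)⁻¹ := by
        rw [← Real.exp_nat_mul, ← Real.exp_neg]; norm_num
      rw [he]
      have h2 := Real.exp_one_lt_d9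
      have h3 : Real.exp 1 ^ 2 ≤ 8 := by
        have h4 := Real.exp_pos 1
        nlinarith
      have h5 : (8 : ℝ)⁻¹ ≤ (Real.exp 1 ^ 2)⁻¹ := by
        apply inv_anti₀ (by positivity) h3
      norm_num at h5 ⊢
      linarith
    have h6 : (1 / 2 : ℝ) ^ (3 * Mk ε k n) ≤ Real.exp (-2) ^ (Mk ε k n) := by
      rw [pow_mul]
      exact pow_le_pow_left₀ (by norm_num) h1 _
    refine h6.trans ?_
    rw [← Real.exp_nat_mul]
    apply Real.exp_le_exp.mpr
    have := hnA.yM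
    linarith
  have hF : Real.exp (3 * y) * ((2 : ℝ) ^ (K * ⌊3 * ((n : ℝ) / k)⌋₊) * Real.exp (-(be ε * ε) * y)) ^ K ≤
      Real.exp (-2 * y) := by
    have hfl : (⌊3 * ((n : ℝ) / k)⌋₊ : ℝ) ≤ 3 * ((n : ℝ) / k) := Nat.floor_le (by positivity)
    have h2 : (2 : ℝ) ≤ Real.exp 1 := by
      have := Real.add_one_le_exp (1 : ℝ)
      linarith
    have h3 : (2 : ℝ) ^ (K * ⌊3 * ((n : ℝ) / k)⌋₊) ≤ Real.exp (K * (3 * ((n : ℝ) / k))) := by
      calc (2 : ℝ) ^ (K * ⌊3 * ((n : ℝ) / k)⌋₊) ≤ Real.exp 1 ^ (K * ⌊3 * ((n : ℝ) / k)⌋₊) :=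
            pow_le_pow_left₀ (by norm_num) h2 _
        _ = Real.exp ((K : ℝ) * ⌊3 * ((n : ℝ) / k)⌋₊) := by
            rw [← Real.exp_nat_mul]; push_cast; congr 1; ring
        _ ≤ Real.exp (K * (3 * ((n : ℝ) / k))) := by
            apply Real.exp_le_exp.mpr
            exact mul_le_mul_of_nonneg_left hfl (by positivity)
    calc Real.exp (3 * y) * ((2 : ℝ) ^ (K * ⌊3 * ((n : ℝ) / k)⌋₊) * Real.exp (-(be ε * ε) * y)) ^ K
        ≤ Real.exp (3 * y) * (Real.exp (K * (3 * ((n : ℝ) / k))) * Real.exp (-(be ε * ε) * y)) ^ K := by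
          apply mul_le_mul_of_nonneg_left _ (Real.exp_pos _).le
          apply pow_le_pow_left₀ (by positivity)
          exact mul_le_mul_of_nonneg_right h3 (Real.exp_pos _).le
      _ = Real.exp (3 * y + K * (K * (3 * ((n : ℝ) / k)) + -(be ε * ε) * y)) := by
          rw [← Real.exp_add, ← Real.exp_nat_mul, ← Real.exp_add]
      _ ≤ Real.exp (-2 * y) := by
          apply Real.exp_le_exp.mpr
          have h4 : 3 * (K : ℝ) ^ 2 * ((n : ℝ) / k) ≤ y := by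
            rw [hyx, mul_comm ((n : ℝ) / k)]
            exact mul_le_mul_of_nonneg_right hlk hxnn
          have h5 : 6 * y ≤ be ε * ε * K * y := mul_le_mul_of_nonneg_right hbK (by linarith)
          nlinarith
  have hgr : 4 * (K : ℝ) * (B * y) ^ (2 * K + 2) ≤ Real.exp (y / 160) := by
    have := hY y hyY
    rw [mul_pow]
    linarith
  exact numD_core T τ hK0 hB1 hy1 (hbound T hT) (hbound τ hτ) hnb hgr hM hF

end Pool.Agent.INS
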