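import Mathlib

/-! INS/Path.  Blakley-Roy inequality for powers of two.

PLAN.  `w T = ∑ x, ∑ y, (A^T) x y = 1ᵀ A^T 1`.  By symmetry `w (2T) = ‖A^T 1‖²`, and `A^T 1` (`T ≥ 1`) vanishes outside `B`, so
`(w T)² ≤ #B * w (2T)` (Cauchy-Schwarz, `inner_mul_le_norm_mul_norm` or `sq_sum_le_card_mul_sum_sq`).  Induction on `j`. -/

set_option autoImplicit false

open Finset

namespace Pool.Agent.INS

private theorem pow_symm {Ω : Type} [Fintype Ω] [DecidableEq Ω] (A : Matrix Ω Ω ℝ)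
    (hA : ∀ x y, A x y = A y x) (T : ℕ) (x y : Ω) : (A ^ T) x y = (A ^ T) y x := by
  have h : A.transpose = A := by
    ext i j
    rw [Matrix.transpose_apply]
    exact hA j i
  have h2 : (A ^ T).transpose = A ^ T := by
    rw [Matrix.transpose_pow, h]
  calc (A ^ T) x y = (A ^ T).transpose x y := by rw [h2]
    _ = (A ^ T) y x := rfl

private theorem pow_supp {Ω : Type} [Fintype Ω] [DecidableEq Ω] (A : Matrix Ω Ω ℝ)
    (B : Finset Ω) (hB : ∀ x y, A x y ≠ 0 → x ∈ B) {T : ℕ} (hT : 1 ≤ T) {x : Ω} (hx : x ∉ B)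
    (y : Ω) : (A ^ T) x y = 0 := by
  obtain ⟨S, rfl⟩ : ∃ S, T = S + 1 := ⟨T - 1, by omega⟩
  rw [pow_succ', Matrix.mul_apply]
  apply Finset.sum_eq_zero
  intro z _
  have : A x z = 0 := by
    by_contra h
    exact hx (hB x z h)
  rw [this, zero_mul]

private theorem step {Ω : Type} [Fintype Ω] [DecidableEq Ω] (A : Matrix Ω Ω ℝ)
    (hA : ∀ x y, A x y = A y x) (B : Finset Ω) (hB : ∀ x y, A x y ≠ 0 → x ∈ B) {T : ℕ}
    (hT : 1 ≤ T) :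
    (∑ x, ∑ y, (A ^ T) x y) ^ 2 ≤ (B.card : ℝ) * ∑ x, ∑ y, (A ^ (T + T)) x y := by
  have h1 : ∑ x, ∑ y, (A ^ (T + T)) x y = ∑ z, (∑ y, (A ^ T) z y) ^ 2 := by
    calc ∑ x, ∑ y, (A ^ (T + T)) x y = ∑ x, ∑ y, ∑ z, (A ^ T) x z * (A ^ T) z y := by
          refine Finset.sum_congr rfl fun x _ => Finset.sum_congr rfl fun y _ => ?_
          rw [pow_add, Matrix.mul_apply]
      _ = ∑ x, ∑ z, ∑ y, (A ^ T) x z * (A ^ T) z y :=
          Finset.sum_congr rfl fun x _ => Finset.sum_comm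
      _ = ∑ z, ∑ x, ∑ y, (A ^ T) x z * (A ^ T) z y := Finset.sum_comm
      _ = ∑ z, (∑ y, (A ^ T) z y) ^ 2 := by
          refine Finset.sum_congr rfl fun z _ => ?_
          rw [sq, Finset.sum_mul_sum]
          refine Finset.sum_congr rfl fun x _ => Finset.sum_congr rfl fun y _ => ?_
          rw [pow_symm A hA T x z]
  have h2 : ∑ x, ∑ y, (A ^ T) x y = ∑ x ∈ B, ∑ y, (A ^ T) x y := by
    symm
    apply Finset.sum_subset (Finset.subset_univ _)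
    intro x _ hx
    exact Finset.sum_eq_zero fun y _ => pow_supp A B hB hT hx y
  rw [h1, h2]
  calc (∑ x ∈ B, ∑ y, (A ^ T) x y) ^ 2 ≤ (B.card : ℝ) * ∑ x ∈ B, (∑ y, (A ^ T) x y) ^ 2 :=
        sq_sum_le_card_mul_sum_sq
    _ ≤ (B.card : ℝ) * ∑ z, (∑ y, (A ^ T) z y) ^ 2 := by
        apply mul_le_mul_of_nonneg_left _ (Nat.cast_nonneg _)
        exact Finset.sum_le_sum_of_subset_of_nonneg (Finset.subset_univ _)
          fun z _ _ => sq_nonneg _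

theorem path_ineq {Ω : Type} [Fintype Ω] [DecidableEq Ω] (A : Matrix Ω Ω ℝ) (hA : ∀ x y, A x y = A y x)
    (h0 : ∀ x y, 0 ≤ A x y) (B : Finset Ω) (hB : ∀ x y, A x y ≠ 0 → x ∈ B) (j : ℕ) :
    (∑ x, ∑ y, A x y) ^ (2 ^ j) ≤ (B.card : ℝ) ^ (2 ^ j - 1) * ∑ x, ∑ y, (A ^ (2 ^ j)) x y := by
  induction j with
  | zero => simp
  | succ j ih =>
    have hs : 0 ≤ ∑ x, ∑ y, A x y :=
      Finset.sum_nonneg fun x _ => Finset.sum_nonneg fun y _ => h0 x y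
    have h1 := step A hA B hB (T := 2 ^ j) Nat.one_le_two_pow
    have h2 : (2 : ℕ) ^ (j + 1) = 2 ^ j + 2 ^ j := by ring
    have h3 : 1 ≤ (2 : ℕ) ^ j := Nat.one_le_two_pow
    have hc : (0 : ℝ) ≤ B.card := Nat.cast_nonneg _
    calc (∑ x, ∑ y, A x y) ^ (2 ^ (j + 1)) = ((∑ x, ∑ y, A x y) ^ (2 ^ j)) ^ 2 := by
          rw [← pow_mul, ← pow_succ]
      _ ≤ ((B.card : ℝ) ^ (2 ^ j - 1) * ∑ x, ∑ y, (A ^ (2 ^ j)) x y) ^ 2 :=
          pow_le_pow_left₀ (pow_nonneg hs _) ih 2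
      _ = ((B.card : ℝ) ^ (2 ^ j - 1)) ^ 2 * (∑ x, ∑ y, (A ^ (2 ^ j)) x y) ^ 2 := by
          rw [mul_pow]
      _ ≤ ((B.card : ℝ) ^ (2 ^ j - 1)) ^ 2 *
          ((B.card : ℝ) * ∑ x, ∑ y, (A ^ (2 ^ j + 2 ^ j)) x y) :=
          mul_le_mul_of_nonneg_left h1 (by positivity)
      _ = (B.card : ℝ) ^ (2 ^ (j + 1) - 1) * ∑ x, ∑ y, (A ^ (2 ^ (j + 1))) x y := by
          rw [← h2, ← mul_assoc, ← pow_mul, ← pow_succ]
          congr 2
          omega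

end Pool.Agent.INS
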