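import Pool.Agent.INS.Defs
import Pool.Agent.INS.Path

/-! INS/Walk.  The path inequality for walks.

PLAN.  `W x y = #{μ : Mv | stp x μ = y}` is symmetric (if `x`, `y` differ in exactly the sample `i` then `W = 1`, `W x x = M`, else `0`; or: the
bijection `μ ↦ (μ.1, x μ.1)` from the moves `x → y` onto the moves `y → x`).  `#{ν : Fin m → Mv | stf x ν m = y} = (W^m) x y` by induction (split off the
last move, `Fin.snocEquiv`/`Fin.consEquiv`; `stf` for restricted sequences), so it is symmetric.  `A x y = if g x y then (W^m) x y else 0`.  The number of the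
`(ω, μ : Fin (T m) → Mv)` with `g` at all steps `t < T` is `∑ x, ∑ y, (A^T) x y` (induction on `T`; `Fin (T m + m) → Mv` splits,
`Fin.appendEquiv`).  `path_ineq`. -/

set_option autoImplicit false

open Finset

namespace Pool.Agent.INS

private theorem wk_stf_left {n M a b : ℕ} (x : Om n M) (μ : Fin a → Mv n M) (ν : Fin b → Mv n M) :
    ∀ s : ℕ, s ≤ a → stf x (Fin.append μ ν) s = stf x μ s := by
  intro s
  induction s with
  | zero => intro _; rfl
  | succ s ih =>
    intro h
    have h1 : s < a + b := by omega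
    have h2 : s < a := h
    rw [stf, stf, dif_pos h1, dif_pos h2, ih (by omega)]
    have h3 : (⟨s, h1⟩ : Fin (a + b)) = Fin.castAdd b ⟨s, h2⟩ := rfl
    rw [h3, Fin.append_left]

private theorem wk_stf_right {n M a b : ℕ} (x : Om n M) (μ : Fin a → Mv n M) (ν : Fin b → Mv n M) :
    ∀ s : ℕ, s ≤ b → stf x (Fin.append μ ν) (a + s) = stf (stf x μ a) ν s := by
  intro s
  induction s with
  | zero =>
    intro _
    rw [Nat.add_zero, wk_stf_left x μ ν a le_rfl]
    rfl
  | succ s ih =>
    intro h
    have h1 : a + s < a + b := by omega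
    have h2 : s < b := h
    have e : a + (s + 1) = (a + s) + 1 := rfl
    rw [e, stf, dif_pos h1, ih (by omega)]
    have h4 : stf (stf x μ a) ν (s + 1) = stp (stf (stf x μ a) ν s) (ν ⟨s, h2⟩) := by
      rw [stf, dif_pos h2]
    rw [h4]
    have h3 : (⟨a + s, h1⟩ : Fin (a + b)) = Fin.natAdd a ⟨s, h2⟩ := rfl
    rw [h3, Fin.append_right]

private theorem wk_append_sum {n M a b : ℕ} (f : (Fin (a + b) → Mv n M) → ℝ) :
    ∑ μ, f μ = ∑ μ : Fin a → Mv n M, ∑ ν : Fin b → Mv n M, f (Fin.append μ ν) := by
  rw [← Fintype.sum_prod_type' (fun μ ν => f (Fin.append μ ν))]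
  exact (Equiv.sum_comp (Fin.appendEquiv a b) f).symm

/-- the transition matrix of one move -/
private def wkW (n M : ℕ) : Matrix (Om n M) (Om n M) ℝ :=
  fun x y => ∑ μ : Mv n M, if stp x μ = y then (1 : ℝ) else 0

private theorem wkW_symm {n M : ℕ} (x y : Om n M) : wkW n M x y = wkW n M y x := by
  unfold wkW
  rw [← Finset.natCast_card_filter, ← Finset.natCast_card_filter]
  congr 1
  refine Finset.card_nbij' (fun μ => (μ.1, x μ.1)) (fun μ => (μ.1, y μ.1)) ?_ ?_ ?_ ?_
  · intro μ hμ
    have h : stp x μ = y := by simpa using hμ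
    have : stp y (μ.1, x μ.1) = x := by
      rw [← h]
      unfold stp
      rw [Function.update_idem, Function.update_eq_self]
    simpa using this
  · intro μ hμ
    have h : stp y μ = x := by simpa using hμ
    have : stp x (μ.1, y μ.1) = y := by
      rw [← h]
      unfold stp
      rw [Function.update_idem, Function.update_eq_self]
    simpa using this
  · intro μ hμ
    have h : stp x μ = y := by simpa using hμ
    show (μ.1, y μ.1) = μ
    rw [← h]
    unfold stp
    rw [Function.update_self]
  · intro μ hμ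
    have h : stp y μ = x := by simpa using hμ
    show (μ.1, x μ.1) = μ
    rw [← h]
    unfold stp
    rw [Function.update_self]

private theorem wkW_apply {n M : ℕ} (x : Om n M) (f : Om n M → ℝ) :
    ∑ y, wkW n M x y * f y = ∑ μ : Mv n M, f (stp x μ) := by
  unfold wkW
  simp_rw [Finset.sum_mul]
  rw [Finset.sum_comm]
  refine Finset.sum_congr rfl fun μ _ => ?_
  rw [Finset.sum_eq_single (stp x μ)]
  · rw [if_pos rfl, one_mul]
  · intro y _ hy
    rw [if_neg (Ne.symm hy), zero_mul]
  · intro h
    exact absurd (Finset.mem_univ _) h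

private theorem wkW_pow {n M : ℕ} (m : ℕ) : ∀ (x : Om n M) (f : Om n M → ℝ),
    ∑ y, (wkW n M ^ m) x y * f y = ∑ μ : Fin m → Mv n M, f (stf x μ m) := by
  induction m with
  | zero =>
    intro x f
    have h0 : ∑ μ : Fin 0 → Mv n M, f (stf x μ 0) = f x := by
      rw [Fintype.sum_unique]
      rfl
    rw [h0, pow_zero, Finset.sum_eq_single x]
    · rw [Matrix.one_apply_eq, one_mul]
    · intro y _ hy
      rw [Matrix.one_apply_ne (Ne.symm hy), zero_mul]
    · intro h
      exact absurd (Finset.mem_univ _) h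
  | succ m ih =>
    intro x f
    have h1 : ∑ y, (wkW n M ^ (m + 1)) x y * f y =
        ∑ z, (wkW n M ^ m) x z * ∑ y, wkW n M z y * f y := by
      simp_rw [pow_succ, Matrix.mul_apply, Finset.sum_mul, Finset.mul_sum]
      rw [Finset.sum_comm]
      refine Finset.sum_congr rfl fun z _ => Finset.sum_congr rfl fun y _ => ?_
      ring
    rw [h1, ih]
    rw [wk_append_sum (a := m) (b := 1)]
    refine Finset.sum_congr rfl fun μ _ => ?_
    rw [wkW_apply]
    rw [← Equiv.sum_comp (Equiv.funUnique (Fin 1) (Mv n M)) (fun ν => f (stp (stf x μ m) ν))]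
    refine Finset.sum_congr rfl fun ν _ => ?_
    rw [wk_stf_right x μ ν 1 le_rfl]
    rfl

private theorem wkW_pow_symm {n M : ℕ} (m : ℕ) (x y : Om n M) :
    (wkW n M ^ m) x y = (wkW n M ^ m) y x := by
  have h1 : (wkW n M).transpose = wkW n M := by
    ext x y
    exact wkW_symm y x
  have h2 : (wkW n M ^ m).transpose = wkW n M ^ m := by
    rw [Matrix.transpose_pow, h1]
  conv_rhs => rw [← h2]
  rfl

private theorem wkW_pow_nonneg {n M : ℕ} (m : ℕ) (x y : Om n M) : 0 ≤ (wkW n M ^ m) x y := by
  have h1 := wkW_pow m x (fun z => if z = y then (1 : ℝ) else 0)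
  rw [Finset.sum_eq_single y] at h1
  · rw [if_pos rfl, mul_one] at h1
    rw [h1]
    refine Finset.sum_nonneg fun μ _ => ?_
    split_ifs
    · exact zero_le_one
    · exact le_rfl
  · intro z _ hz
    rw [if_neg hz, mul_zero]
  · intro h
    exact absurd (Finset.mem_univ _) h

open Classical in
/-- the matrix of good blocks of moves -/
private noncomputable def wkA {n M : ℕ} (m : ℕ) (g : Om n M → Om n M → Prop) :
    Matrix (Om n M) (Om n M) ℝ :=
  fun x y => if g x y then (wkW n M ^ m) x y else 0

open Classical in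
private theorem wkA_apply {n M : ℕ} (m : ℕ) (g : Om n M → Om n M → Prop) (x : Om n M)
    (f : Om n M → ℝ) : ∑ y, wkA m g x y * f y =
      ∑ μ : Fin m → Mv n M, if g x (stf x μ m) then f (stf x μ m) else 0 := by
  rw [← wkW_pow m x (fun y => if g x y then f y else 0)]
  refine Finset.sum_congr rfl fun y _ => ?_
  unfold wkA
  split_ifs
  · rfl
  · rw [zero_mul, mul_zero]

open Classical in
private theorem wkA_pow {n M : ℕ} (m : ℕ) (g : Om n M → Om n M → Prop) (T : ℕ) :
    ∀ (L : ℕ) (_ : L = T * m) (x : Om n M), ∑ y, (wkA m g ^ T) x y =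
      ∑ μ : Fin L → Mv n M,
        if ∀ t < T, g (stf x μ (t * m)) (stf x μ ((t + 1) * m)) then (1 : ℝ) else 0 := by
  induction T with
  | zero =>
    intro L hL x
    rw [Nat.zero_mul] at hL
    subst hL
    have h0 : (∑ μ : Fin 0 → Mv n M,
        if ∀ t < 0, g (stf x μ (t * m)) (stf x μ ((t + 1) * m)) then (1 : ℝ) else 0) = 1 := by
      rw [Fintype.sum_unique, if_pos]
      intro t ht
      exact absurd ht (Nat.not_lt_zero t)
    rw [h0, pow_zero, Finset.sum_eq_single x]
    · rw [Matrix.one_apply_eq]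
    · intro y _ hy
      rw [Matrix.one_apply_ne (Ne.symm hy)]
    · intro h
      exact absurd (Finset.mem_univ _) h
  | succ T ih =>
    intro L hL x
    obtain rfl : L = m + T * m := by rw [hL]; ring
    have h1 : ∑ y, (wkA m g ^ (T + 1)) x y = ∑ z, wkA m g x z * ∑ y, (wkA m g ^ T) z y := by
      simp_rw [pow_succ', Matrix.mul_apply, Finset.mul_sum]
      rw [Finset.sum_comm]
    rw [h1, wkA_apply, wk_append_sum (a := m) (b := T * m)]
    refine Finset.sum_congr rfl fun μ _ => ?_
    by_cases hg : g x (stf x μ m)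
    · rw [if_pos hg, ih (T * m) rfl]
      refine Finset.sum_congr rfl fun ν _ => ?_
      refine if_congr ?_ rfl rfl
      constructor
      · intro h t ht
        rcases Nat.eq_zero_or_pos t with h0 | h0
        · subst h0
          have e1 : stf x (Fin.append μ ν) (0 * m) = x := by
            rw [Nat.zero_mul]
            rfl
          have e2 : stf x (Fin.append μ ν) ((0 + 1) * m) = stf x μ m := by
            rw [Nat.zero_add, Nat.one_mul, wk_stf_left x μ ν m le_rfl]
          rw [e1, e2]
          exact hg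
        · obtain ⟨s, rfl⟩ : ∃ s, t = s + 1 := ⟨t - 1, by omega⟩
          have hs : s < T := by omega
          have e1 : (s + 1) * m = m + s * m := by ring
          have e2 : (s + 1 + 1) * m = m + (s + 1) * m := by ring
          have e3 : s * m ≤ T * m := Nat.mul_le_mul_right m (by omega)
          have e4 : (s + 1) * m ≤ T * m := Nat.mul_le_mul_right m (by omega)
          rw [e2, wk_stf_right x μ ν _ e4, e1, wk_stf_right x μ ν _ e3, ← e1]
          exact h s hs
      · intro h s hs
        have h2 := h (s + 1) (by omega)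
        have e1 : (s + 1) * m = m + s * m := by ring
        have e2 : (s + 1 + 1) * m = m + (s + 1) * m := by ring
        have e3 : s * m ≤ T * m := Nat.mul_le_mul_right m (by omega)
        have e4 : (s + 1) * m ≤ T * m := Nat.mul_le_mul_right m (by omega)
        rw [e2, wk_stf_right x μ ν _ e4, e1, wk_stf_right x μ ν _ e3, ← e1] at h2
        exact h2
    · rw [if_neg hg]
      symm
      refine Finset.sum_eq_zero fun ν _ => ?_
      rw [if_neg]
      intro h
      apply hg
      have h2 := h 0 (Nat.succ_pos T)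
      rw [Nat.zero_mul, Nat.zero_add, Nat.one_mul, wk_stf_left x μ ν m le_rfl] at h2
      exact h2

open Classical in
theorem walk_ineq {n M m : ℕ} (g : Om n M → Om n M → Prop) (hg : ∀ x y, g x y → g y x)
    (B : Finset (Om n M)) (hB : ∀ x y, g x y → x ∈ B) (j : ℕ) :
    ((univ.filter (fun p : Om n M × (Fin m → Mv n M) => g p.1 (stf p.1 p.2 m))).card : ℝ) ^ (2 ^ j) ≤
      (B.card : ℝ) ^ (2 ^ j - 1) *
        ((univ.filter (fun p : Om n M × (Fin (2 ^ j * m) → Mv n M) =>
          ∀ t < 2 ^ j, g (stf p.1 p.2 (t * m)) (stf p.1 p.2 ((t + 1) * m)))).card : ℝ) := by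
  have h1 : ((univ.filter (fun p : Om n M × (Fin m → Mv n M) =>
      g p.1 (stf p.1 p.2 m))).card : ℝ) = ∑ x, ∑ y, wkA m g x y := by
    rw [Finset.natCast_card_filter, Fintype.sum_prod_type]
    refine Finset.sum_congr rfl fun x _ => ?_
    have h2 := wkA_apply m g x (fun _ => (1 : ℝ))
    simp_rw [mul_one] at h2
    rw [h2]
  have h2 : ((univ.filter (fun p : Om n M × (Fin (2 ^ j * m) → Mv n M) =>
      ∀ t < 2 ^ j, g (stf p.1 p.2 (t * m)) (stf p.1 p.2 ((t + 1) * m)))).card : ℝ) =
      ∑ x, ∑ y, (wkA m g ^ (2 ^ j)) x y := by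
    rw [Finset.natCast_card_filter, Fintype.sum_prod_type]
    refine Finset.sum_congr rfl fun x _ => ?_
    rw [wkA_pow m g (2 ^ j) (2 ^ j * m) rfl]
  rw [h1, h2]
  refine path_ineq (wkA m g) ?_ ?_ B ?_ j
  · intro x y
    unfold wkA
    rw [wkW_pow_symm m x y]
    refine if_congr ⟨hg x y, hg y x⟩ rfl rfl
  · intro x y
    unfold wkA
    split_ifs
    · exact wkW_pow_nonneg m x y
    · exact le_rfl
  · intro x y h
    unfold wkA at h
    by_contra hx
    apply h
    rw [if_neg]
    intro hgxy
    exact hx (hB x y hgxy)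

end Pool.Agent.INS
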