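import Pool.Agent.INS.Main
import Pool.Agent.INS.Walk
import Pool.Agent.INS.Joh
import Pool.Agent.INS.NumB
import Pool.Agent.INS.NumC
import Pool.Agent.INS.NumD

/-! INS/Gap.  The theorem for walks on the sets of pairs.

PLAN.  `M = Mk ε k n`, `N = NN n`, `K = KK ε`, `L = (4M + m - 1)/m` (least with `4M ≤ L m`, so `L m ≤ 5M`), `T = 2^j` with
`K L ≤ T < 2 K L` (`Nat.clog`), so `T m ≤ 10 K M`.  `Φ ω = F (image ω)`, `g = Gd Φ x h`, `B` = the injective states.  `G` = number on the left hand side,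
`a1` = number of `(ω, ν)` with `g ω (stf ω ν m)`.  `lift`: `M! G ≤ a1` (`P S S' = ` conditions on `F S`, `F S'`; stability: `St ω J ↔ pin J` disjoint from
`image ω`).  `walk_ineq` and `main`: `a1^T ≤ (M! C)^(T-1) N^M (M N)^(T m) e^(-y/40)`, `C = C(N,M)` (`inj_count`).  Total number of walks
`Wt = C (M (N-M))^m` (`jw_count`).  So `(G/Wt)^T ≤ (N^M/(M! C)) (N/(N-M))^(T m) e^(-y/40)`, `M! C = N(N-1)..(N-M+1) ≥ (N-M)^M`
(`Nat.descFactorial`), `N/(N-M) ≤ exp (2M/N)` (`2M ≤ N`), `NA.inj`: `≤ e^(y/80 - y/40) = e^(-y/80)`.  `T`-th root: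
`G/Wt ≤ exp (-y/(80 T)) ≤ exp (-y m/(800 K M)) ≤ exp (-m/(800 K (1/2+ε) k²))` (`NA.My`). -/

set_option autoImplicit false

open Finset

namespace Pool.Agent.INS

/-- success of the algorithm `F` on the graph with edge set `S` -/
def Suc {n : ℕ} (F : Finset (Pr n) → Finset (Fin n)) (x : ℝ) (S : Finset (Pr n)) : Prop :=
  Disjoint S (pin (F S)) ∧ x ≤ (F S).card

/-- the constant -/
noncomputable def cc (ε : ℝ) : ℝ := min (be ε) (1 / (800 * KK ε * (1 / 2 + ε)))

private theorem gap_num {G N M m T : ℕ} {y : ℝ}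
    (hGT : ((M.factorial : ℝ) * G) ^ T ≤ (((M.factorial * N.choose M : ℕ) : ℝ)) ^ (T - 1) *
      ((N : ℝ) ^ M * ((M : ℝ) * N) ^ (T * m) * Real.exp (-y / 40)))
    (h2 : 2 * M ≤ N) (hM : 0 < M) (hT : 1 ≤ T)
    (hexp : 2 * (M : ℝ) / N * ((M + T * m : ℕ) : ℝ) ≤ y / 80) :
    (G : ℝ) ≤ Real.exp (-(y / (80 * T))) * ((N.choose M * (M * (N - M)) ^ m : ℕ) : ℝ) := by
  by_contra hcon
  push Not at hcon
  have hMN : M ≤ N := by omega
  have hC : 0 < N.choose M := Nat.choose_pos hMN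
  have hCr : (0 : ℝ) < N.choose M := by exact_mod_cast hC
  have hF : (0 : ℝ) < M.factorial := by exact_mod_cast Nat.factorial_pos M
  have hMr : (0 : ℝ) < M := by exact_mod_cast hM
  have hNr : (0 : ℝ) < N := by
    have : 0 < N := by omega
    exact_mod_cast this
  have hNM : ((N - M : ℕ) : ℝ) = (N : ℝ) - M := by
    rw [Nat.cast_sub hMN]
  have h2r : 2 * (M : ℝ) ≤ N := by exact_mod_cast h2
  have hdpos : (0 : ℝ) < (N : ℝ) - M := by linarith
  have hT0 : T ≠ 0 := by omega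
  have hTr : (0 : ℝ) < T := by
    have : 0 < T := by omega
    exact_mod_cast this
  set D : ℝ := (N : ℝ) - M with hD
  -- the T-th power
  have hW : ((N.choose M * (M * (N - M)) ^ m : ℕ) : ℝ) = (N.choose M : ℝ) * ((M : ℝ) * D) ^ m := by
    push_cast
    rw [hNM]
  rw [hW] at hcon
  have h0 : 0 ≤ Real.exp (-(y / (80 * T))) * ((N.choose M : ℝ) * ((M : ℝ) * D) ^ m) := by positivity
  have h1 := pow_lt_pow_left₀ hcon h0 hT0
  have h3 : (Real.exp (-(y / (80 * T))) * ((N.choose M : ℝ) * ((M : ℝ) * D) ^ m)) ^ T =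
      Real.exp (-(y / 80)) * ((N.choose M : ℝ) ^ T * (((M : ℝ) ^ (T * m)) * D ^ (T * m))) := by
    rw [mul_pow, mul_pow, ← Real.exp_nat_mul, ← pow_mul, mul_pow, Nat.mul_comm m T]
    have : (T : ℝ) * -(y / (80 * T)) = -(y / 80) := by
      field_simp
    rw [this]
  rw [h3] at h1
  have h4 : (M.factorial : ℝ) ^ T * (Real.exp (-(y / 80)) *
      ((N.choose M : ℝ) ^ T * (((M : ℝ) ^ (T * m)) * D ^ (T * m)))) <
      (((M.factorial * N.choose M : ℕ) : ℝ)) ^ (T - 1) *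
      ((N : ℝ) ^ M * ((M : ℝ) * N) ^ (T * m) * Real.exp (-y / 40)) := by
    calc (M.factorial : ℝ) ^ T * (Real.exp (-(y / 80)) *
      ((N.choose M : ℝ) ^ T * (((M : ℝ) ^ (T * m)) * D ^ (T * m))))
        < (M.factorial : ℝ) ^ T * (G : ℝ) ^ T := by
          exact mul_lt_mul_of_pos_left h1 (by positivity)
      _ = ((M.factorial : ℝ) * G) ^ T := by rw [mul_pow]
      _ ≤ _ := hGT
  -- N <= D exp(2M/N)
  have h5 : (N : ℝ) ≤ D * Real.exp (2 * (M : ℝ) / N) := by
    have ha : (M : ℝ) / D ≤ 2 * (M : ℝ) / N := by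
      rw [div_le_div_iff₀ hdpos hNr]
      have : (N : ℝ) ≤ 2 * D := by rw [hD]; linarith
      nlinarith
    have hb : 1 + (M : ℝ) / D ≤ Real.exp (2 * (M : ℝ) / N) := by
      have := Real.add_one_le_exp ((M : ℝ) / D)
      have h' := Real.exp_le_exp.2 ha
      linarith
    have hc : (N : ℝ) = D * (1 + (M : ℝ) / D) := by
      field_simp
      rw [hD]; ring
    calc (N : ℝ) = D * (1 + (M : ℝ) / D) := hc
      _ ≤ _ := mul_le_mul_of_nonneg_left hb hdpos.le
  have h6 : (N : ℝ) ^ (M + T * m) ≤ D ^ (M + T * m) * Real.exp (y / 80) := by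
    calc (N : ℝ) ^ (M + T * m) ≤ (D * Real.exp (2 * (M : ℝ) / N)) ^ (M + T * m) :=
          pow_le_pow_left₀ hNr.le h5 _
      _ = D ^ (M + T * m) * Real.exp (((M + T * m : ℕ) : ℝ) * (2 * (M : ℝ) / N)) := by
          rw [mul_pow, ← Real.exp_nat_mul]
      _ ≤ D ^ (M + T * m) * Real.exp (y / 80) := by
          apply mul_le_mul_of_nonneg_left _ (by positivity)
          apply Real.exp_le_exp.2
          rw [mul_comm]
          exact hexp
  have h7 : D ^ M ≤ ((M.factorial * N.choose M : ℕ) : ℝ) := by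
    have ha := Nat.pow_sub_le_descFactorial N M
    rw [Nat.descFactorial_eq_factorial_mul_choose] at ha
    have hb : (N - M) ^ M ≤ (N + 1 - M) ^ M := Nat.pow_le_pow_left (by omega) _
    have hc : ((N - M : ℕ) : ℝ) ^ M ≤ ((M.factorial * N.choose M : ℕ) : ℝ) := by
      exact_mod_cast hb.trans ha
    rwa [hNM] at hc
  set Q : ℝ := ((M.factorial * N.choose M : ℕ) : ℝ) with hQ
  have hQ' : Q = (M.factorial : ℝ) * N.choose M := by rw [hQ]; push_cast; ring
  have hQpos : 0 < Q := by rw [hQ']; positivity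
  have h8 : (M.factorial : ℝ) ^ T * (Real.exp (-(y / 80)) *
      ((N.choose M : ℝ) ^ T * (((M : ℝ) ^ (T * m)) * D ^ (T * m)))) =
      (Q ^ (T - 1) * (M : ℝ) ^ (T * m)) * (Q * D ^ (T * m) * Real.exp (-(y / 80))) := by
    have : Q ^ T = Q ^ (T - 1) * Q := by
      rw [← pow_succ]
      congr 1
      omega
    calc (M.factorial : ℝ) ^ T * (Real.exp (-(y / 80)) *
      ((N.choose M : ℝ) ^ T * (((M : ℝ) ^ (T * m)) * D ^ (T * m))))
        = ((M.factorial : ℝ) * N.choose M) ^ T * (Real.exp (-(y / 80)) *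
            (((M : ℝ) ^ (T * m)) * D ^ (T * m))) := by rw [mul_pow]; ring
      _ = Q ^ T * (Real.exp (-(y / 80)) * (((M : ℝ) ^ (T * m)) * D ^ (T * m))) := by rw [← hQ']
      _ = _ := by rw [this]; ring
  have h9 : Q ^ (T - 1) * ((N : ℝ) ^ M * ((M : ℝ) * N) ^ (T * m) * Real.exp (-y / 40)) =
      (Q ^ (T - 1) * (M : ℝ) ^ (T * m)) * ((N : ℝ) ^ (M + T * m) * Real.exp (-y / 40)) := by
    rw [mul_pow, pow_add]; ring
  rw [h8, h9] at h4
  have h10 : (N : ℝ) ^ (M + T * m) * Real.exp (-y / 40) ≤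
      Q * D ^ (T * m) * Real.exp (-(y / 80)) := by
    calc (N : ℝ) ^ (M + T * m) * Real.exp (-y / 40)
        ≤ (D ^ (M + T * m) * Real.exp (y / 80)) * Real.exp (-y / 40) :=
          mul_le_mul_of_nonneg_right h6 (Real.exp_pos _).le
      _ = D ^ M * D ^ (T * m) * Real.exp (-(y / 80)) := by
          rw [mul_assoc, ← Real.exp_add, pow_add]
          congr 2
          ring
      _ ≤ Q * D ^ (T * m) * Real.exp (-(y / 80)) := by
          apply mul_le_mul_of_nonneg_right _ (Real.exp_pos _).le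
          exact mul_le_mul_of_nonneg_right h7 (by positivity)
  have h11 := mul_le_mul_of_nonneg_left h10 (by positivity : 0 ≤ Q ^ (T - 1) * (M : ℝ) ^ (T * m))
  exact absurd h4 (not_lt.2 h11)

private theorem sd_comm {n : ℕ} (A B : Finset (Fin n)) : sd A B = sd B A := by
  unfold sd; omega

private theorem Gd_symm {n M : ℕ} (Φ : Om n M → Finset (Fin n)) (x h : ℝ) (ω ω' : Om n M)
    (H : Gd Φ x h ω ω') : Gd Φ x h ω' ω := by
  refine ⟨H.2.1, H.1, ?_⟩
  rw [sd_comm]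
  exact H.2.2

private theorem OK_of_Suc {n M : ℕ} (F : Finset (Pr n) → Finset (Fin n)) (x : ℝ) (ω : Om n M)
    (h1 : Function.Injective ω) (h2 : Suc F x (univ.image ω)) :
    OK (fun ω : Om n M => F (univ.image ω)) x ω := by
  refine ⟨h1, ?_, h2.2⟩
  intro i hi
  exact (Finset.disjoint_left.1 h2.1) (mem_image_of_mem _ (mem_univ i)) hi

open Classical in
theorem gap {ε : ℝ} (hε : 0 < ε) : ∃ k0 : ℕ, ∀ k : ℕ, k0 ≤ k → ∃ n0 : ℕ, ∀ n : ℕ, n0 ≤ n →
    ∀ (F : Finset (Pr n) → Finset (Fin n)) (m : ℕ), 1 ≤ m → m ≤ Mk ε k n →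
    ((univ.filter (fun w : Fin (m + 1) → Finset (Pr n) => JW (Mk ε k n) m w ∧
      (Suc F ((n : ℝ) / k) (w 0) ∧ Suc F ((n : ℝ) / k) (w (Fin.last m)) ∧
        (sd (F (w 0)) (F (w (Fin.last m))) : ℝ) ≤ cc ε * ((n : ℝ) / k)))).card : ℝ) ≤
      Real.exp (-(cc ε * m / k ^ 2)) *
        ((univ.filter (fun w : Fin (m + 1) → Finset (Pr n) => JW (Mk ε k n) m w)).card : ℝ) := by
  obtain ⟨kB, hB⟩ := numB hε
  obtain ⟨kC, hC⟩ := numC hε
  obtain ⟨kD, hD⟩ := numD hε
  refine ⟨max 3 (max kB (max kC kD)), fun k hk => ?_⟩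
  have hk3 : 3 ≤ k := le_trans (le_max_left _ _) hk
  have hkB : kB ≤ k := le_trans (le_trans (le_max_left _ _) (le_max_right _ _)) hk
  have hkC : kC ≤ k :=
    le_trans (le_trans (le_trans (le_max_left _ _) (le_max_right _ _)) (le_max_right _ _)) hk
  have hkD : kD ≤ k :=
    le_trans (le_trans (le_trans (le_max_right _ _) (le_max_right _ _)) (le_max_right _ _)) hk
  obtain ⟨nA, hA⟩ := numA hε hk3
  obtain ⟨nB, hB⟩ := hB k hkB
  obtain ⟨nC, hC⟩ := hC k hkC
  obtain ⟨nD, hD⟩ := hD k hkD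
  refine ⟨max nA (max nB (max nC nD)), fun n hn F m hm hmM => ?_⟩
  have hA := hA n (le_trans (le_max_left _ _) hn)
  have hB := hB n (le_trans (le_trans (le_max_left _ _) (le_max_right _ _)) hn)
  have hC := hC n
    (le_trans (le_trans (le_trans (le_max_left _ _) (le_max_right _ _)) (le_max_right _ _)) hn)
  have hD := hD n
    (le_trans (le_trans (le_trans (le_max_right _ _) (le_max_right _ _)) (le_max_right _ _)) hn)
  obtain ⟨hbe0, -, hKpos, -⟩ := be_pos hε
  set M := Mk ε k n with hMdef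
  set K := KK ε with hKdef
  set L := (4 * M + m - 1) / m with hLdef
  have hMpos : 0 < M := by omega
  have hL1 : 4 * M ≤ L * m := by
    have h := Nat.div_add_mod (4 * M + m - 1) m
    have h' := Nat.mod_lt (4 * M + m - 1) (by omega : 0 < m)
    rw [← hLdef] at h
    have : m * L = L * m := Nat.mul_comm _ _
    omega
  have hL2 : L * m ≤ 5 * M := by
    have h := Nat.div_mul_le_self (4 * M + m - 1) m
    rw [← hLdef] at h
    omega
  have hLpos : 0 < L := by
    rcases Nat.eq_zero_or_pos L with h | h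
    · rw [h] at hL1; omega
    · exact h
  set j := Nat.clog 2 (K * L) with hj
  have hT1 : 1 ≤ 2 ^ j := Nat.one_le_two_pow
  have hT2 : K * L ≤ 2 ^ j := Nat.le_pow_clog (by norm_num) _
  have hKL : 0 < K * L := Nat.mul_pos hKpos hLpos
  have hT3 : 2 ^ j ≤ 2 * (K * L) := by
    rcases Nat.lt_or_ge 1 (K * L) with h | h
    · have h' := Nat.pow_pred_clog_lt_self (by norm_num : 1 < 2) h
      rw [← hj] at h'
      have hjpos : 0 < j := Nat.clog_pos (by norm_num) h
      have : 2 ^ j = 2 * 2 ^ j.pred := by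
        have hjj : j.pred + 1 = j := Nat.succ_pred_eq_of_pos hjpos
        rw [← pow_succ', hjj]
      omega
    · have : K * L = 1 := by omega
      rw [hj, this]
      simp
  have hTm : 2 ^ j * m ≤ 10 * K * M := by
    calc 2 ^ j * m ≤ 2 * (K * L) * m := Nat.mul_le_mul_right _ hT3
      _ = 2 * K * (L * m) := by ring
      _ ≤ 2 * K * (5 * M) := Nat.mul_le_mul_left _ hL2
      _ = 10 * K * M := by ring
  -- the map
  set x : ℝ := (n : ℝ) / k with hx
  have hx0 : 0 ≤ x := by rw [hx]; positivity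
  let Φ : Om n M → Finset (Fin n) := fun ω => F (univ.image ω)
  let g : Om n M → Om n M → Prop := Gd Φ x (be ε * x)
  have hmain := main hε hA hB hC hD hm hL1 hT1 hT2 hTm Φ
  have hwalk := walk_ineq (m := m) g (fun a b h => Gd_symm Φ x _ a b h)
    (univ.filter (fun ω : Om n M => Function.Injective ω))
    (fun a b h => mem_filter.2 ⟨mem_univ _, h.1.1⟩) j
  rw [inj_count] at hwalk
  obtain ⟨P, hP⟩ : ∃ P : Finset (Pr n) → Finset (Pr n) → Prop, ∀ S S', P S S' ↔
      (Suc F x S ∧ Suc F x S' ∧ (sd (F S) (F S') : ℝ) ≤ cc ε * x) := ⟨_, fun _ _ => Iff.rfl⟩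
  have hlift := lift (n := n) M m P
  have hcc : cc ε ≤ be ε := min_le_left _ _
  set G := (univ.filter (fun w : Fin (m + 1) → Finset (Pr n) => JW M m w ∧
      (Suc F x (w 0) ∧ Suc F x (w (Fin.last m)) ∧
        (sd (F (w 0)) (F (w (Fin.last m))) : ℝ) ≤ cc ε * x))).card with hGdef
  have ha1 : M.factorial * G ≤
      (univ.filter (fun p : Om n M × (Fin m → Mv n M) => g p.1 (stf p.1 p.2 m))).card := by
    refine le_trans (Nat.mul_le_mul_left _ (card_le_card ?_)) (le_trans hlift (card_le_card ?_))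
    · intro w hw
      exact mem_filter.2 ⟨mem_univ _, (mem_filter.1 hw).2.1, (hP _ _).2 (mem_filter.1 hw).2.2⟩
    intro p hp
    rw [mem_filter] at hp ⊢
    refine ⟨mem_univ _, ?_⟩
    obtain ⟨-, i1, i2, s0⟩ := hp
    obtain ⟨s1, s2, s3⟩ := (hP _ _).1 s0
    refine ⟨OK_of_Suc F x _ i1 s1, OK_of_Suc F x _ i2 s2, le_trans s3 ?_⟩
    exact mul_le_mul_of_nonneg_right hcc hx0
  have hGT : ((M.factorial : ℝ) * G) ^ (2 ^ j) ≤
      (((M.factorial * (NN n).choose M : ℕ) : ℝ)) ^ (2 ^ j - 1) *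
      ((NN n : ℝ) ^ M * ((M : ℝ) * NN n) ^ (2 ^ j * m) * Real.exp (-yy k n / 40)) := by
    calc ((M.factorial : ℝ) * G) ^ (2 ^ j) ≤
        ((univ.filter (fun p : Om n M × (Fin m → Mv n M) =>
          g p.1 (stf p.1 p.2 m))).card : ℝ) ^ (2 ^ j) := by
          apply pow_le_pow_left₀ (by positivity)
          exact_mod_cast ha1
      _ ≤ _ := hwalk
      _ ≤ _ := mul_le_mul_of_nonneg_left hmain (by positivity)
  have hy0 := hA.y0
  have hexp : 2 * (M : ℝ) / NN n * ((M + 2 ^ j * m : ℕ) : ℝ) ≤ yy k n / 80 := by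
    refine le_trans ?_ hA.inj
    rw [← hMdef, ← hKdef]
    have h1 : M + 2 ^ j * m ≤ 11 * K * M := by
      have : 1 * M ≤ K * M := Nat.mul_le_mul_right _ hKpos
      nlinarith
    have h2 : ((M + 2 ^ j * m : ℕ) : ℝ) ≤ 11 * K * M := by exact_mod_cast h1
    calc 2 * (M : ℝ) / NN n * ((M + 2 ^ j * m : ℕ) : ℝ) ≤ 2 * (M : ℝ) / NN n * (11 * K * M) :=
          mul_le_mul_of_nonneg_left h2 (by positivity)
      _ = 22 * (K : ℝ) * (M : ℝ) ^ 2 / NN n := by ring
  have hfin := gap_num hGT hA.MN hMpos hT1 hexp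
  rw [jw_count]
  refine le_trans hfin ?_
  apply mul_le_mul_of_nonneg_right _ (Nat.cast_nonneg _)
  apply Real.exp_le_exp.2
  rw [neg_le_neg_iff]
  have hkr : (0 : ℝ) < k := by
    have : 0 < k := by omega
    exact_mod_cast this
  have hKr : (0 : ℝ) < K := by exact_mod_cast hKpos
  have hTr : (0 : ℝ) < ((2 ^ j : ℕ) : ℝ) := by positivity
  have hc0 : (0 : ℝ) < 800 * (K : ℝ) * (1 / 2 + ε) := by positivity
  have hc2 : cc ε ≤ 1 / (800 * K * (1 / 2 + ε)) := min_le_right _ _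
  calc cc ε * m / k ^ 2 ≤ 1 / (800 * K * (1 / 2 + ε)) * m / k ^ 2 := by
        apply div_le_div_of_nonneg_right _ (by positivity)
        exact mul_le_mul_of_nonneg_right hc2 (by positivity)
    _ ≤ yy k n / (80 * ((2 ^ j : ℕ) : ℝ)) := by
        rw [div_mul_eq_mul_div, one_mul, div_div, div_le_div_iff₀ (by positivity) (by positivity)]
        have h1 : ((2 ^ j : ℕ) : ℝ) * m ≤ 10 * K * M := by exact_mod_cast hTm
        have h2 := hA.My
        rw [← hMdef] at h2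
        have h3 : 10 * (K : ℝ) * M ≤ 10 * K * ((1 / 2 + ε) * k ^ 2 * yy k n) :=
          mul_le_mul_of_nonneg_left h2 (by positivity)
        nlinarith

end Pool.Agent.INS
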