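import Pool.Agent.INS.Defs

/-! INS/Times.  Selection of the times (deterministic).

PLAN.  Recursively: `t 0 = 0`; given `t 0, ..., t ℓ` with `t ℓ ≤ ℓ L`, let `U = ⋃_{j≤ℓ} Φ (t j)` and `D t = #(Φ t \ U)` for
`t ≥ t ℓ`.  `D (t ℓ) = 0`, `D (t+1) ≤ D t + #(Φ (t+1) \ Φ t) ≤ D t + h`, and `D (t ℓ + L) ≥ #Φ - #(Φ ∩ U) > x/2 ≥ h` by `hdec`.  Take
the first `t > t ℓ` with `h ≤ D t`; `t ≤ t ℓ + L` and `D t ≤ D (t-1) + h < 2 h`. -/

set_option autoImplicit false

open Finset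

namespace Pool.Agent.INS

private lemma tms_step {n : ℕ} (Φ : ℕ → Finset (Fin n)) (U : Finset (Fin n)) {T L s : ℕ}
    (hsT : s + L ≤ T) {h x : ℝ} (h0 : 0 < h) (hx : 2 * h ≤ x)
    (hcl : ∀ t < T, (sd (Φ t) (Φ (t + 1)) : ℝ) ≤ h) (hsz : ∀ t ≤ T, x ≤ (Φ t).card)
    (hU : Φ s ⊆ U) (hdec : 2 * ((Φ (s + L) ∩ U).card : ℝ) < x) :
    ∃ r, s ≤ r ∧ r ≤ s + L ∧ h ≤ ((Φ r \ U).card : ℝ) ∧ ((Φ r \ U).card : ℝ) < 2 * h := by
  classical
  have hend : h ≤ ((Φ (s + L) \ U).card : ℝ) := by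
    have h1 : ((Φ (s + L) \ U).card : ℝ) + ((Φ (s + L) ∩ U).card : ℝ) = (Φ (s + L)).card := by
      exact_mod_cast Finset.card_sdiff_add_card_inter _ _
    have h2 := hsz (s + L) hsT
    linarith
  have hex : ∃ r, s ≤ r ∧ h ≤ ((Φ r \ U).card : ℝ) := ⟨s + L, Nat.le_add_right _ _, hend⟩
  have hspec := Nat.find_spec hex
  have hmin : Nat.find hex ≤ s + L := Nat.find_min' hex ⟨Nat.le_add_right _ _, hend⟩
  have hne : Nat.find hex ≠ s := by
    intro he
    have h1 := hspec.2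
    rw [he, Finset.sdiff_eq_empty_iff_subset.2 hU, Finset.card_empty, Nat.cast_zero] at h1
    linarith
  have hpos : 1 ≤ Nat.find hex := by
    have := hspec.1
    omega
  have hlt : ¬ (s ≤ Nat.find hex - 1 ∧ h ≤ ((Φ (Nat.find hex - 1) \ U).card : ℝ)) :=
    Nat.find_min hex (by omega)
  have hge : s ≤ Nat.find hex - 1 := by
    have := hspec.1
    omega
  have hlt2 : ((Φ (Nat.find hex - 1) \ U).card : ℝ) < h := by
    by_contra hcon
    exact hlt ⟨hge, not_lt.1 hcon⟩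
  refine ⟨Nat.find hex, hspec.1, hmin, hspec.2, ?_⟩
  have hc := hcl (Nat.find hex - 1) (by omega)
  rw [Nat.sub_add_cancel hpos] at hc
  have hsub : Φ (Nat.find hex) \ U ⊆
      (Φ (Nat.find hex - 1) \ U) ∪ (Φ (Nat.find hex) \ Φ (Nat.find hex - 1)) := by
    intro v hv
    rw [Finset.mem_sdiff] at hv
    rw [Finset.mem_union, Finset.mem_sdiff, Finset.mem_sdiff]
    by_cases hvm : v ∈ Φ (Nat.find hex - 1)
    · exact Or.inl ⟨hvm, hv.2⟩
    · exact Or.inr ⟨hv.1, hvm⟩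
  have hcard : (Φ (Nat.find hex) \ U).card ≤ (Φ (Nat.find hex - 1) \ U).card +
      sd (Φ (Nat.find hex - 1)) (Φ (Nat.find hex)) := by
    refine (Finset.card_le_card hsub).trans ((Finset.card_union_le _ _).trans ?_)
    unfold sd
    omega
  have hcard' : ((Φ (Nat.find hex) \ U).card : ℝ) ≤ ((Φ (Nat.find hex - 1) \ U).card : ℝ) +
      (sd (Φ (Nat.find hex - 1)) (Φ (Nat.find hex)) : ℝ) := by
    exact_mod_cast hcard
  linarith

theorem times {n : ℕ} (Φ : ℕ → Finset (Fin n)) {T L K : ℕ} (hKL : K * L ≤ T) {h x : ℝ} (h0 : 0 < h)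
    (hx : 2 * h ≤ x) (hcl : ∀ t < T, (sd (Φ t) (Φ (t + 1)) : ℝ) ≤ h) (hsz : ∀ t ≤ T, x ≤ (Φ t).card)
    (hdec : ∀ (t : ℕ → ℕ) (ℓ : ℕ), ℓ < K → (∀ j < ℓ, t j ≤ t ℓ) → t ℓ + L ≤ T →
      2 * ((Φ (t ℓ + L) ∩ (range (ℓ + 1)).biUnion (fun j => Φ (t j))).card : ℝ) < x) :
    ∃ t : ℕ → ℕ, (∀ ℓ ≤ K, t ℓ ≤ T) ∧ ∀ ℓ < K,
      h ≤ ((Φ (t (ℓ + 1)) \ (range (ℓ + 1)).biUnion (fun j => Φ (t j))).card : ℝ) ∧
      ((Φ (t (ℓ + 1)) \ (range (ℓ + 1)).biUnion (fun j => Φ (t j))).card : ℝ) < 2 * h := by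
  classical
  have key : ∀ m ≤ K, ∃ t : ℕ → ℕ, (∀ ℓ ≤ m, t ℓ ≤ ℓ * L) ∧ (∀ i j, i ≤ j → j ≤ m → t i ≤ t j) ∧
      ∀ ℓ < m,
      h ≤ ((Φ (t (ℓ + 1)) \ (range (ℓ + 1)).biUnion (fun j => Φ (t j))).card : ℝ) ∧
      ((Φ (t (ℓ + 1)) \ (range (ℓ + 1)).biUnion (fun j => Φ (t j))).card : ℝ) < 2 * h := by
    intro m
    induction m with
    | zero =>
      intro _
      refine ⟨fun _ => 0, fun ℓ _ => Nat.zero_le _, fun _ _ _ _ => le_rfl, ?_⟩
      intro ℓ hℓ
      exact absurd hℓ (Nat.not_lt_zero _)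
    | succ m ih =>
      intro hm
      obtain ⟨t, ht1, ht2, ht3⟩ := ih (by omega)
      have hT : t m + L ≤ T := by
        have h1 := ht1 m le_rfl
        have h2 : (m + 1) * L ≤ K * L := Nat.mul_le_mul_right L hm
        have h3 : (m + 1) * L = m * L + L := Nat.succ_mul m L
        omega
      have hU : Φ (t m) ⊆ (range (m + 1)).biUnion (fun j => Φ (t j)) := by
        intro v hv
        exact Finset.mem_biUnion.2 ⟨m, Finset.mem_range.2 (Nat.lt_succ_self m), hv⟩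
      obtain ⟨r, hr1, hr2, hr3, hr4⟩ := tms_step Φ _ hT h0 hx hcl hsz hU
        (hdec t m (by omega) (fun j hj => ht2 j m hj.le le_rfl) hT)
      have hup : ∀ j ≤ m, Function.update t (m + 1) r j = t j := by
        intro j hj
        exact Function.update_of_ne (by omega) _ _
      have hun : ∀ ℓ ≤ m, (range (ℓ + 1)).biUnion (fun j => Φ (Function.update t (m + 1) r j)) =
          (range (ℓ + 1)).biUnion (fun j => Φ (t j)) := by
        intro ℓ hℓ
        refine Finset.biUnion_congr rfl ?_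
        intro j hj
        have := Finset.mem_range.1 hj
        rw [hup j (by omega)]
      refine ⟨Function.update t (m + 1) r, ?_, ?_, ?_⟩
      · intro ℓ hℓ
        rcases Nat.lt_or_ge ℓ (m + 1) with hlt | hge
        · rw [hup ℓ (by omega)]
          exact ht1 ℓ (by omega)
        · have he : ℓ = m + 1 := by omega
          subst he
          rw [Function.update_self, Nat.succ_mul]
          have h1 := ht1 m le_rfl
          omega
      · intro i j hij hj
        rcases Nat.lt_or_ge j (m + 1) with hlt | hge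
        · rw [hup j (by omega), hup i (by omega)]
          exact ht2 i j hij (by omega)
        · have he : j = m + 1 := by omega
          subst he
          rw [Function.update_self]
          rcases Nat.lt_or_ge i (m + 1) with hlt | hge'
          · rw [hup i (by omega)]
            exact (ht2 i m (by omega) le_rfl).trans hr1
          · have he' : i = m + 1 := by omega
            subst he'
            rw [Function.update_self]
      · intro ℓ hℓ
        rw [hun ℓ (by omega)]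
        rcases Nat.lt_or_ge ℓ m with hlt | hge
        · rw [hup (ℓ + 1) (by omega)]
          exact ht3 ℓ hlt
        · have he : ℓ = m := by omega
          subst he
          rw [Function.update_self]
          exact ⟨hr3, hr4⟩
  obtain ⟨t, ht1, ht2, ht3⟩ := key K le_rfl
  refine ⟨t, ?_, ht3⟩
  intro ℓ hℓ
  exact (ht1 ℓ hℓ).trans ((Nat.mul_le_mul_right L hℓ).trans hKL)

end Pool.Agent.INS
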