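import Pool.Agent.INS.Defs

/-! INS/Typ.  In `4 M` moves at least half of the samples are changed, up to an exceptional fraction `(τ + 1) 2^(-3M)`.

For fixed `s` and a fixed set `S` of less than `M / 2` samples the fraction of the sequences which stay in `S` during `4 M` moves is
at most `2^(-4M)`; there are at most `2^M` sets `S`.
-/

set_option autoImplicit false

open Finset

namespace Pool.Agent.INS

private lemma typ_card {τ s w : ℕ} (h : s + w ≤ τ) :
    (univ.filter (fun r : Fin τ => s ≤ r.1 ∧ r.1 < s + w)).card = w := by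
  have h1 : (univ.filter (fun r : Fin τ => s ≤ r.1 ∧ r.1 < s + w)).image (fun r => r.1) =
      Ico s (s + w) := by
    ext x
    simp only [mem_image, mem_filter, mem_univ, true_and, mem_Ico]
    constructor
    · rintro ⟨r, hr, rfl⟩
      exact hr
    · intro hx
      exact ⟨⟨x, by omega⟩, hx, rfl⟩
  rw [← card_image_of_injective _ Fin.val_injective, h1, Nat.card_Ico]
  omega

private lemma typ_one {M τ s : ℕ} (h : s + 4 * M ≤ τ) {S : Finset (Fin M)}
    (hS : 2 * S.card < M) :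
    ((univ.filter (fun idx : Fin τ → Fin M =>
      ∀ r : Fin τ, s ≤ r.1 ∧ r.1 < s + 4 * M → idx r ∈ S)).card : ℝ) ≤
      (M : ℝ) ^ τ * (1 / 2) ^ (4 * M) := by
  have h1 : (univ.filter (fun idx : Fin τ → Fin M =>
      ∀ r : Fin τ, s ≤ r.1 ∧ r.1 < s + 4 * M → idx r ∈ S)) ⊆
      Fintype.piFinset (fun r : Fin τ =>
        if s ≤ r.1 ∧ r.1 < s + 4 * M then S else (univ : Finset (Fin M))) := by
    intro idx hidx
    rw [mem_filter] at hidx
    rw [Fintype.mem_piFinset]
    intro r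
    by_cases hr : s ≤ r.1 ∧ r.1 < s + 4 * M
    · rw [if_pos hr]
      exact hidx.2 r hr
    · rw [if_neg hr]
      exact mem_univ _
  have h2 : ((Fintype.piFinset (fun r : Fin τ =>
        if s ≤ r.1 ∧ r.1 < s + 4 * M then S else (univ : Finset (Fin M)))).card : ℝ) ≤
      ∏ r : Fin τ, (M : ℝ) * (if s ≤ r.1 ∧ r.1 < s + 4 * M then 1 / 2 else 1) := by
    rw [Fintype.card_piFinset]
    push_cast
    refine prod_le_prod (fun r _ => Nat.cast_nonneg _) fun r _ => ?_
    by_cases hr : s ≤ r.1 ∧ r.1 < s + 4 * M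
    · rw [if_pos hr, if_pos hr]
      have h3 : (2 : ℝ) * S.card ≤ M := by exact_mod_cast hS.le
      linarith
    · rw [if_neg hr, if_neg hr, card_univ, Fintype.card_fin, mul_one]
  have h3 : ∏ r : Fin τ, (M : ℝ) * (if s ≤ r.1 ∧ r.1 < s + 4 * M then 1 / 2 else 1) =
      (M : ℝ) ^ τ * (1 / 2) ^ (4 * M) := by
    rw [prod_mul_distrib, prod_const, card_univ, Fintype.card_fin, prod_ite, prod_const,
      prod_const_one, mul_one, typ_card h]
  rw [h3] at h2
  refine le_trans ?_ h2
  exact_mod_cast card_le_card h1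

open Classical in
theorem typ {M τ : ℕ} (hM : 0 < M) :
    ((univ.filter (fun idx : Fin τ → Fin M =>
      ∃ s, s + 4 * M ≤ τ ∧ 2 * (upd idx s (4 * M)).card < M)).card : ℝ) ≤
      (M : ℝ) ^ τ * ((τ + 1) * (1 / 2) ^ (3 * M)) := by
  have hsub : (univ.filter (fun idx : Fin τ → Fin M =>
      ∃ s, s + 4 * M ≤ τ ∧ 2 * (upd idx s (4 * M)).card < M)) ⊆
      ((range (τ + 1)).filter (fun s => s + 4 * M ≤ τ)).biUnion (fun s =>
        ((univ : Finset (Finset (Fin M))).filter (fun S => 2 * S.card < M)).biUnion (fun S =>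
          univ.filter (fun idx : Fin τ → Fin M =>
            ∀ r : Fin τ, s ≤ r.1 ∧ r.1 < s + 4 * M → idx r ∈ S))) := by
    intro idx hidx
    rw [mem_filter] at hidx
    obtain ⟨-, s, hs1, hs2⟩ := hidx
    rw [mem_biUnion]
    refine ⟨s, mem_filter.2 ⟨mem_range.2 (by omega), hs1⟩, ?_⟩
    rw [mem_biUnion]
    refine ⟨upd idx s (4 * M), mem_filter.2 ⟨mem_univ _, hs2⟩, ?_⟩
    rw [mem_filter]
    refine ⟨mem_univ _, fun r hr => ?_⟩
    exact mem_image_of_mem _ (mem_filter.2 ⟨mem_univ _, hr⟩)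
  have hb : ∀ s ∈ (range (τ + 1)).filter (fun s => s + 4 * M ≤ τ),
      ((((univ : Finset (Finset (Fin M))).filter (fun S => 2 * S.card < M)).biUnion (fun S =>
          univ.filter (fun idx : Fin τ → Fin M =>
            ∀ r : Fin τ, s ≤ r.1 ∧ r.1 < s + 4 * M → idx r ∈ S))).card : ℝ) ≤
        (M : ℝ) ^ τ * (1 / 2) ^ (3 * M) := by
    intro s hs
    have hs1 := (mem_filter.1 hs).2
    refine le_trans (Nat.cast_le.2 card_biUnion_le) ?_
    push_cast
    refine le_trans (sum_le_sum fun S hS => typ_one hs1 (mem_filter.1 hS).2) ?_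
    rw [sum_const, nsmul_eq_mul]
    have h4 : ((((univ : Finset (Finset (Fin M))).filter (fun S => 2 * S.card < M)).card : ℕ) : ℝ) ≤
        2 ^ M := by
      have h5 := card_filter_le (univ : Finset (Finset (Fin M))) (fun S => 2 * S.card < M)
      rw [card_univ, Fintype.card_finset, Fintype.card_fin] at h5
      exact_mod_cast h5
    calc ((((univ : Finset (Finset (Fin M))).filter (fun S => 2 * S.card < M)).card : ℕ) : ℝ) *
          ((M : ℝ) ^ τ * (1 / 2) ^ (4 * M))
        ≤ 2 ^ M * ((M : ℝ) ^ τ * (1 / 2) ^ (4 * M)) :=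
          mul_le_mul_of_nonneg_right h4 (by positivity)
      _ = (M : ℝ) ^ τ * (1 / 2) ^ (3 * M) := by
        have h6 : (1 / 2 : ℝ) ^ (4 * M) = (1 / 2) ^ (3 * M) * (1 / 2) ^ M := by
          rw [← pow_add]
          congr 1
          ring
        have h7 : (2 : ℝ) ^ M * (1 / 2) ^ M = 1 := by
          rw [← mul_pow]
          norm_num
        rw [h6]
        calc (2 : ℝ) ^ M * ((M : ℝ) ^ τ * ((1 / 2) ^ (3 * M) * (1 / 2) ^ M))
            = (M : ℝ) ^ τ * (1 / 2) ^ (3 * M) * (2 ^ M * (1 / 2) ^ M) := by ring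
          _ = _ := by rw [h7, mul_one]
  refine le_trans (Nat.cast_le.2 (card_le_card hsub)) ?_
  refine le_trans (Nat.cast_le.2 card_biUnion_le) ?_
  push_cast
  refine le_trans (sum_le_sum hb) ?_
  rw [sum_const, nsmul_eq_mul]
  have h8 : ((((range (τ + 1)).filter (fun s => s + 4 * M ≤ τ)).card : ℕ) : ℝ) ≤ τ + 1 := by
    have h9 := card_filter_le (range (τ + 1)) (fun s => s + 4 * M ≤ τ)
    rw [card_range] at h9
    exact_mod_cast h9
  calc _ ≤ ((τ : ℝ) + 1) * ((M : ℝ) ^ τ * (1 / 2) ^ (3 * M)) :=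
        mul_le_mul_of_nonneg_right h8 (by positivity)
    _ = _ := by ring

end Pool.Agent.INS
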