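import Pool.Agent.INS.EvB
import Pool.Agent.INS.EvC
import Pool.Agent.INS.Typ
import Pool.Agent.INS.Times
import Pool.Agent.INS.CurL

/-! INS/Main.  Good paths are exponentially rare.

PLAN.  `x = n/k`, `h = be ε x`, `K = KK ε`, `τ = T m`, `M = Mk ε k n`.  By `rep` (CurL) count the pairs `(idx, X)` with `Gd` at all steps; then `OK` for
all `t ≤ T` (`T ≥ 1`).  Put `F t = FF Φ m idx X t`.  If the path is good, `idx` is not exceptional and neither `EvB` nor `EvC` holds, then all `#(F t) ≤ 3x`,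
so `≤ ⌊3x⌋`, and `times` (with `hdec` from `¬ EvC`; the unions have at most `(ℓ+1) ⌊3x⌋ ≤ K ⌊3x⌋` elements) gives `EvD`.  Sum up `typ`, `evB`, `evC`, `evD` with `ND`
(`T ≤ T m`).  `M^τ NN^(M+τ) = NN^M (M NN)^τ`. -/

set_option autoImplicit false

open Finset

namespace Pool.Agent.INS

/-- the deterministic part -/
private theorem determ {ε : ℝ} (hε : 0 < ε) {k n : ℕ} (hA : NA ε k n) {m L T : ℕ} (hT1 : 1 ≤ T)
    (hT : KK ε * L ≤ T) {M τ : ℕ} (Φ : Om n M → Finset (Fin n)) (idx : Fin τ → Fin M)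
    (X : Val n M τ)
    (hG : ∀ t < T, Gd Φ ((n : ℝ) / k) (be ε * ((n : ℝ) / k)) (vs idx X (t * m))
        (vs idx X ((t + 1) * m)))
    (hnB : ¬ EvB k m T idx X) (hnC : ¬ EvC Φ k m L T (KK ε) idx X) :
    EvD Φ k m T (KK ε) (be ε * ((n : ℝ) / k)) idx X := by
  obtain ⟨hb0, hb1, hK0, hK6⟩ := be_pos hε
  have hx4 := hA.x4
  have hx0 : (0 : ℝ) < (n : ℝ) / k := by linarith
  have hOK : ∀ t ≤ T, OK Φ ((n : ℝ) / k) (vs idx X (t * m)) := by
    intro t ht
    rcases Nat.lt_or_ge t T with h | h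
    · exact (hG t h).1
    · have hh : t = T := le_antisymm ht h
      subst hh
      obtain ⟨s, rfl⟩ : ∃ s, t = s + 1 := ⟨t - 1, by omega⟩
      exact (hG s (by omega)).2.1
  have hcard : ∀ t ≤ T, (FF Φ m idx X t).card ≤ ⌊3 * ((n : ℝ) / k)⌋₊ := by
    intro t ht
    apply Nat.le_floor
    by_contra hcon
    push Not at hcon
    exact hnB ⟨t, ht, _, hcon, (hOK t ht).2.1⟩
  have hx : ∀ t ≤ T, (n : ℝ) / k ≤ ((FF Φ m idx X t).card : ℝ) := fun t ht => (hOK t ht).2.2
  obtain ⟨t, ht1, ht2⟩ := times (fun t => FF Φ m idx X t) hT (h := be ε * ((n : ℝ) / k))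
    (x := (n : ℝ) / k) (by positivity) (by nlinarith) (fun t ht => (hG t ht).2.2) hx (by
      intro t ℓ hℓ htj htL
      by_contra hcon
      push Not at hcon
      apply hnC
      refine ⟨t, ℓ, hℓ, htj, htL, ?_, hcon, (hOK _ htL).2.1⟩
      have h1 : ((range (ℓ + 1)).biUnion (fun j => FF Φ m idx X (t j))).card ≤
          (range (ℓ + 1)).card * ⌊3 * ((n : ℝ) / k)⌋₊ := by
        apply Finset.card_biUnion_le_card_mul
        intro j hj
        rw [Finset.mem_range] at hj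
        apply hcard
        rcases Nat.lt_or_ge j ℓ with h | h
        · have := htj j h
          omega
        · have : j = ℓ := by omega
          subst this
          omega
      refine h1.trans ?_
      rw [Finset.card_range]
      exact Nat.mul_le_mul_right _ hℓ)
  exact ⟨t, fun ℓ hℓ => ⟨ht1 ℓ hℓ, hcard _ (ht1 ℓ hℓ), hx _ (ht1 ℓ hℓ), (hOK _ (ht1 ℓ hℓ)).2.1⟩, ht2⟩

open Classical in
private theorem count {n M τ : ℕ} (G : (Fin τ → Fin M) → Val n M τ → Prop)
    (E : Finset (Fin τ → Fin M)) {e q : ℝ} (hE : (E.card : ℝ) ≤ (M : ℝ) ^ τ * e) (hq : 0 ≤ q)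
    (hgood : ∀ idx : Fin τ → Fin M, idx ∉ E →
      ((univ.filter (fun X : Val n M τ => G idx X)).card : ℝ) ≤ (NN n : ℝ) ^ (M + τ) * q) :
    ((univ.filter (fun p : (Fin τ → Fin M) × Val n M τ => G p.1 p.2)).card : ℝ) ≤
      (M : ℝ) ^ τ * (NN n : ℝ) ^ (M + τ) * (e + q) := by
  have hcard : (univ.filter (fun p : (Fin τ → Fin M) × Val n M τ => G p.1 p.2)).card =
      ∑ idx : Fin τ → Fin M, (univ.filter (fun X : Val n M τ => G idx X)).card := by
    rw [Finset.card_filter, Fintype.sum_prod_type]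
    refine Finset.sum_congr rfl (fun idx _ => ?_)
    rw [Finset.card_filter]
  have hVal : Fintype.card (Val n M τ) = NN n ^ (M + τ) := by
    rw [Fintype.card_fun, Fintype.card_sum, Fintype.card_fin, Fintype.card_fin]
  have hbad : ∀ idx : Fin τ → Fin M,
      ((univ.filter (fun X : Val n M τ => G idx X)).card : ℝ) ≤ (NN n : ℝ) ^ (M + τ) := by
    intro idx
    have h1 : (univ.filter (fun X : Val n M τ => G idx X)).card ≤ Fintype.card (Val n M τ) :=
      Finset.card_le_univ _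
    rw [hVal] at h1
    exact_mod_cast h1
  have hNN0 : (0 : ℝ) ≤ (NN n : ℝ) ^ (M + τ) := by positivity
  have hidxcard : ((univ : Finset (Fin τ → Fin M)).card : ℝ) = (M : ℝ) ^ τ := by
    rw [Finset.card_univ, Fintype.card_fun, Fintype.card_fin, Fintype.card_fin]
    push_cast
    rfl
  rw [hcard]
  push_cast
  have hsplit : ∑ idx : Fin τ → Fin M, ((univ.filter (fun X : Val n M τ => G idx X)).card : ℝ) ≤
      ∑ idx : Fin τ → Fin M, ((if idx ∈ E then (NN n : ℝ) ^ (M + τ) else 0) +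
        (NN n : ℝ) ^ (M + τ) * q) := by
    refine Finset.sum_le_sum (fun idx _ => ?_)
    by_cases h : idx ∈ E
    · rw [if_pos h]
      have := hbad idx
      have h2 : 0 ≤ (NN n : ℝ) ^ (M + τ) * q := mul_nonneg hNN0 hq
      linarith
    · rw [if_neg h, zero_add]
      exact hgood idx h
  refine hsplit.trans ?_
  rw [Finset.sum_add_distrib, Finset.sum_const, nsmul_eq_mul, hidxcard, ← Finset.sum_filter,
    Finset.sum_const, nsmul_eq_mul]
  have hfil : (univ.filter (fun idx : Fin τ → Fin M => idx ∈ E)) = E := by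
    ext idx
    simp
  rw [hfil]
  calc (E.card : ℝ) * (NN n : ℝ) ^ (M + τ) + (M : ℝ) ^ τ * ((NN n : ℝ) ^ (M + τ) * q) ≤
      ((M : ℝ) ^ τ * e) * (NN n : ℝ) ^ (M + τ) + (M : ℝ) ^ τ * ((NN n : ℝ) ^ (M + τ) * q) := by
        have := mul_le_mul_of_nonneg_right hE hNN0
        linarith
    _ = (M : ℝ) ^ τ * (NN n : ℝ) ^ (M + τ) * (e + q) := by ring

open Classical in
private theorem three {A : Type} [Fintype A] (P B C D : A → Prop)
    (h : ∀ X, P X → ¬ B X → ¬ C X → D X) {N b c d : ℝ}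
    (hB : ((univ.filter (fun X : A => B X)).card : ℝ) ≤ N * b)
    (hC : ((univ.filter (fun X : A => C X)).card : ℝ) ≤ N * c)
    (hD : ((univ.filter (fun X : A => D X)).card : ℝ) ≤ N * d) :
    ((univ.filter (fun X : A => P X)).card : ℝ) ≤ N * (b + c + d) := by
  have hsub : (univ.filter (fun X : A => P X)) ⊆
      ((univ.filter (fun X : A => B X)) ∪ (univ.filter (fun X : A => C X))) ∪
      (univ.filter (fun X : A => D X)) := by
    intro X hX
    rw [Finset.mem_filter] at hX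
    rw [Finset.mem_union, Finset.mem_union, Finset.mem_filter, Finset.mem_filter,
      Finset.mem_filter]
    by_cases h1 : B X
    · exact Or.inl (Or.inl ⟨Finset.mem_univ _, h1⟩)
    by_cases h2 : C X
    · exact Or.inl (Or.inr ⟨Finset.mem_univ _, h2⟩)
    exact Or.inr ⟨Finset.mem_univ _, h X hX.2 h1 h2⟩
  have hle := (Finset.card_le_card hsub).trans ((Finset.card_union_le _ _).trans
    (Nat.add_le_add_right (Finset.card_union_le _ _) _))
  have hle' : ((univ.filter (fun X : A => P X)).card : ℝ) ≤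
      ((univ.filter (fun X : A => B X)).card : ℝ) + ((univ.filter (fun X : A => C X)).card : ℝ) +
      ((univ.filter (fun X : A => D X)).card : ℝ) := by
    exact_mod_cast hle
  calc _ ≤ _ := hle'
    _ ≤ N * b + N * c + N * d := add_le_add (add_le_add hB hC) hD
    _ = N * (b + c + d) := by ring

open Classical in
theorem main {ε : ℝ} (hε : 0 < ε) {k n : ℕ} (hA : NA ε k n) (hB : NB ε k n) (hC : NC ε k n)
    (hD : ND ε k n) {m L T : ℕ} (hm : 1 ≤ m) (hL : 4 * Mk ε k n ≤ L * m) (hT1 : 1 ≤ T)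
    (hT : KK ε * L ≤ T) (hTm : T * m ≤ 10 * KK ε * Mk ε k n)
    (Φ : Om n (Mk ε k n) → Finset (Fin n)) :
    ((univ.filter (fun p : Om n (Mk ε k n) × (Fin (T * m) → Mv n (Mk ε k n)) =>
      ∀ t < T, Gd Φ ((n : ℝ) / k) (be ε * ((n : ℝ) / k)) (stf p.1 p.2 (t * m))
        (stf p.1 p.2 ((t + 1) * m)))).card : ℝ) ≤
      (NN n : ℝ) ^ (Mk ε k n) * ((Mk ε k n : ℝ) * NN n) ^ (T * m) * Real.exp (-yy k n / 40) := by
  have hrep := rep (n := n) (M := Mk ε k n) (τ := T * m) (fun f => ∀ t < T,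
    Gd Φ ((n : ℝ) / k) (be ε * ((n : ℝ) / k)) (f (t * m)) (f ((t + 1) * m)))
  rw [hrep]
  have hMpos : 0 < Mk ε k n := by
    have h1 := hA.M1
    have h2 := hA.k2
    have h3 : (3 : ℝ) ≤ k := by exact_mod_cast h2
    have h4 : (0 : ℝ) < Mk ε k n := by linarith
    exact_mod_cast h4
  have hTle : T ≤ 10 * KK ε * Mk ε k n := by
    refine le_trans ?_ hTm
    exact Nat.le_mul_of_pos_right _ hm
  have hND := hD T (T * m) hTle hTm
  have hty := typ (M := Mk ε k n) (τ := T * m) hMpos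
  have hcnt := count (n := n) (fun (idx : Fin (T * m) → Fin (Mk ε k n)) (X : Val n (Mk ε k n) (T * m)) =>
      ∀ t < T, Gd Φ ((n : ℝ) / k) (be ε * ((n : ℝ) / k)) (vs idx X (t * m))
          (vs idx X ((t + 1) * m))) _ hty
      (q := (((T : ℝ) + 1) * Real.exp (-yy k n) +
        (KK ε * ((T : ℝ) + 1) ^ (KK ε) * Real.exp (-yy k n / 32)) +
        (((T : ℝ) + 1) ^ (KK ε + 1) * (((n : ℝ) + 1) * Real.exp (3 * yy k n) *
        ((2 : ℝ) ^ (KK ε * ⌊3 * ((n : ℝ) / k)⌋₊) * ((n + 1) *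
          Real.exp (-(be ε * ε) * yy k n))) ^ (KK ε))))) (by positivity) (by
      intro idx hidx
      have hidx' : ¬ ∃ s, s + 4 * Mk ε k n ≤ T * m ∧
          2 * (upd idx s (4 * Mk ε k n)).card < Mk ε k n := by
        intro h
        exact hidx (by rw [Finset.mem_filter]; exact ⟨Finset.mem_univ _, h⟩)
      exact three _ _ _ _ (fun X h1 h2 h3 => determ hε hA hT1 hT Φ idx X h1 h2 h3)
        (evB hC m T (T * m) idx) (evC hC rfl hL Φ idx hidx') (evD hB hC m T (T * m) Φ idx))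
  refine le_trans (le_of_eq (by congr!)) (hcnt.trans ?_)
  have hM0 : (0 : ℝ) ≤ (Mk ε k n : ℝ) ^ (T * m) * (NN n : ℝ) ^ (Mk ε k n + T * m) := by positivity
  have h5 : (Mk ε k n : ℝ) ^ (T * m) * (NN n : ℝ) ^ (Mk ε k n + T * m) *
      Real.exp (-yy k n / 40) =
      (NN n : ℝ) ^ (Mk ε k n) * ((Mk ε k n : ℝ) * NN n) ^ (T * m) * Real.exp (-yy k n / 40) := by
    rw [mul_pow, pow_add]
    ring
  rw [← h5]
  apply mul_le_mul_of_nonneg_left _ hM0
  have h6 := hND
  linarith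

end Pool.Agent.INS
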