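import Mathlib

/-! INS/MinH.  Consistent choice (random priorities): from finite sets `A x` one can choose elements `f x` such that
`f x ≠ f y` happens, in the mean over the pairs `x, y` with weights `w x y`, at most as often as
`#(A x \ A y) / #(A x) + #(A y \ A x) / #(A y)`. -/

set_option autoImplicit false

open Finset

namespace Pool.Agent.INS

variable {T : Type} [Fintype T] [DecidableEq T]

/-- rankings -/
abbrev Rk (T : Type) [Fintype T] : Type := T ≃ Fin (Fintype.card T)

/-- the element of `B` of the least rank -/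
noncomputable def am (σ : Rk T) (B : Finset T) (h : B.Nonempty) : T :=
  Classical.choose (exists_min_image B σ h)

omit [DecidableEq T] in
theorem am_mem (σ : Rk T) (B : Finset T) (h : B.Nonempty) : am σ B h ∈ B :=
  (Classical.choose_spec (exists_min_image B σ h)).1

omit [DecidableEq T] in
theorem am_le (σ : Rk T) (B : Finset T) (h : B.Nonempty) (y : T) (hy : y ∈ B) :
    σ (am σ B h) ≤ σ y :=
  (Classical.choose_spec (exists_min_image B σ h)).2 y hy

omit [DecidableEq T] in
theorem am_unique (σ : Rk T) (B : Finset T) (h : B.Nonempty) (x : T) (hx : x ∈ B)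
    (hm : ∀ y ∈ B, σ x ≤ σ y) : am σ B h = x := by
  apply σ.injective
  exact le_antisymm (am_le σ B h x hx) (hm _ (am_mem σ B h))

theorem am_swap (B : Finset T) (h : B.Nonempty) (x y : T) (hx : x ∈ B) (hy : y ∈ B) (σ : Rk T)
    (hσ : am σ B h = x) : am ((Equiv.swap x y).trans σ) B h = y := by
  apply am_unique _ _ _ _ hy
  intro z hz
  simp only [Equiv.trans_apply, Equiv.swap_apply_right]
  rw [← hσ]
  apply am_le
  rw [hσ]
  rcases eq_or_ne z x with rfl | h1
  · simpa using hy
  rcases eq_or_ne z y with rfl | h2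
  · simpa using hx
  · rw [Equiv.swap_apply_of_ne_of_ne h1 h2]
    exact hz

theorem am_card (B : Finset T) (h : B.Nonempty) (x y : T) (hx : x ∈ B) (hy : y ∈ B) :
    (univ.filter (fun σ : Rk T => am σ B h = x)).card ≤
      (univ.filter (fun σ : Rk T => am σ B h = y)).card := by
  refine card_le_card_of_injOn (fun σ => (Equiv.swap x y).trans σ) ?_ ?_
  · intro σ hσ
    simp only [coe_filter, mem_univ, true_and, Set.mem_ofPred_eq] at hσ ⊢
    exact am_swap B h x y hx hy σ hσ
  · intro σ _ τ _ hst
    have h1 := congrArg (fun ρ => (Equiv.swap x y).trans ρ) hst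
    simp only [← Equiv.trans_assoc] at h1
    have h2 : (Equiv.swap x y).trans (Equiv.swap x y) = Equiv.refl T := by
      ext z
      simp
    rw [h2] at h1
    simpa using h1

theorem am_count (B : Finset T) (h : B.Nonempty) (C : Finset T) (hC : C ⊆ B) :
    (univ.filter (fun σ : Rk T => am σ B h ∈ C)).card * B.card =
      C.card * Fintype.card (Rk T) := by
  obtain ⟨x0, hx0⟩ := h
  set N := (univ.filter (fun σ : Rk T => am σ B ⟨x0, hx0⟩ = x0)).card with hN
  have h1 : ∀ x ∈ B, (univ.filter (fun σ : Rk T => am σ B ⟨x0, hx0⟩ = x)).card = N :=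
    fun x hx => le_antisymm (am_card B _ x x0 hx hx0) (am_card B _ x0 x hx0 hx)
  have h2 : ∀ D : Finset T, D ⊆ B →
      (univ.filter (fun σ : Rk T => am σ B ⟨x0, hx0⟩ ∈ D)).card = D.card * N := by
    intro D hD
    rw [card_eq_sum_card_fiberwise (f := fun σ : Rk T => am σ B ⟨x0, hx0⟩) (t := D)
      (fun σ hσ => by simpa using hσ)]
    rw [← smul_eq_mul, ← sum_const]
    refine sum_congr rfl fun x hx => ?_
    rw [← h1 x (hD hx), filter_filter]
    congr 1
    ext σ
    simp only [mem_filter, mem_univ, true_and, and_iff_right_iff_imp]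
    rintro rfl
    exact hx
  have h3 : Fintype.card (Rk T) = B.card * N := by
    rw [← h2 B subset_rfl, ← card_univ]
    congr 1
    ext σ
    simp only [mem_filter, mem_univ, true_and, true_iff]
    exact am_mem _ _ _
  rw [h2 C hC, h3]
  ring

variable {X : Type} [Fintype X] [DecidableEq X]

open Classical in
/-- the choice -/
noncomputable def ff (A : X → Finset T) (σ : Rk T) (x : X) : Option T :=
  if h : (A x).Nonempty then some (am σ (A x) h) else none

omit [Fintype X] [DecidableEq X] in
open Classical in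
theorem ff_ne (A : X → Finset T) (x y : X) :
    ((univ.filter (fun σ : Rk T => ff A σ x ≠ ff A σ y)).card : ℝ) ≤
      Fintype.card (Rk T) * (((A x \ A y).card : ℝ) / (A x).card +
        ((A y \ A x).card : ℝ) / (A y).card) := by
  by_cases h : (A x ∪ A y).Nonempty
  · have h1 : (univ.filter (fun σ : Rk T => ff A σ x ≠ ff A σ y)).card ≤
        (univ.filter (fun σ : Rk T => am σ (A x ∪ A y) h ∈ (A x \ A y) ∪ (A y \ A x))).card := by
      refine card_le_card fun σ hσ => ?_
      simp only [mem_filter, mem_univ, true_and] at hσ ⊢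
      by_contra h2
      apply hσ
      have h3 := am_mem σ (A x ∪ A y) h
      simp only [mem_union, mem_sdiff] at h2 h3
      have h4 : am σ (A x ∪ A y) h ∈ A x := by tauto
      have h5 : am σ (A x ∪ A y) h ∈ A y := by tauto
      have h6 : (A x).Nonempty := ⟨_, h4⟩
      have h7 : (A y).Nonempty := ⟨_, h5⟩
      have h8 : am σ (A x) h6 = am σ (A x ∪ A y) h :=
        am_unique σ (A x) h6 _ h4 (fun z hz => am_le _ _ _ _ (mem_union_left _ hz))
      have h9 : am σ (A y) h7 = am σ (A x ∪ A y) h :=
        am_unique σ (A y) h7 _ h5 (fun z hz => am_le _ _ _ _ (mem_union_right _ hz))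
      unfold ff
      rw [dif_pos h6, dif_pos h7, h8, h9]
    have h2 := am_count (A x ∪ A y) h ((A x \ A y) ∪ (A y \ A x)) (by
      intro z hz
      simp only [mem_union, mem_sdiff] at hz ⊢
      tauto)
    have h3 : ((A x \ A y) ∪ (A y \ A x)).card ≤ (A x \ A y).card + (A y \ A x).card :=
      card_union_le _ _
    have hU : (0 : ℝ) < (A x ∪ A y).card := by exact_mod_cast h.card_pos
    have h4 : ((univ.filter (fun σ : Rk T => ff A σ x ≠ ff A σ y)).card : ℝ) *
        (A x ∪ A y).card ≤ Fintype.card (Rk T) *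
          ((A x \ A y).card + (A y \ A x).card) := by
      have h5 : (univ.filter (fun σ : Rk T => ff A σ x ≠ ff A σ y)).card *
          (A x ∪ A y).card ≤ Fintype.card (Rk T) * ((A x \ A y).card + (A y \ A x).card) := by
        calc _ ≤ _ := Nat.mul_le_mul_right _ h1
          _ = ((A x \ A y) ∪ (A y \ A x)).card * Fintype.card (Rk T) := h2
          _ ≤ _ := by rw [mul_comm]; exact Nat.mul_le_mul_left _ h3
      exact_mod_cast h5
    have h6 : ∀ B C : Finset T, C ⊆ B → B ⊆ (A x ∪ A y) →
        (C.card : ℝ) / (A x ∪ A y).card ≤ (C.card : ℝ) / B.card := by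
      intro B C hCB hB
      rcases B.eq_empty_or_nonempty with h7 | h7
      · rw [h7] at hCB
        rw [subset_empty.mp hCB]
        simp
      · have h8 : (0 : ℝ) < B.card := by exact_mod_cast h7.card_pos
        apply div_le_div_of_nonneg_left (Nat.cast_nonneg _) h8
        exact_mod_cast card_le_card hB
    have h7 := h6 (A x) (A x \ A y) sdiff_subset subset_union_left
    have h8 := h6 (A y) (A y \ A x) sdiff_subset subset_union_right
    calc _ ≤ Fintype.card (Rk T) * (((A x \ A y).card : ℝ) + (A y \ A x).card) /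
          (A x ∪ A y).card := (le_div_iff₀ hU).mpr h4
      _ = Fintype.card (Rk T) * (((A x \ A y).card : ℝ) / (A x ∪ A y).card +
          ((A y \ A x).card : ℝ) / (A x ∪ A y).card) := by ring
      _ ≤ _ := by gcongr
  · rw [not_nonempty_iff_eq_empty, union_eq_empty] at h
    have h1 : (univ.filter (fun σ : Rk T => ff A σ x ≠ ff A σ y)) = ∅ := by
      refine filter_false_of_mem fun σ _ => ?_
      unfold ff
      simp [h.1, h.2]
    rw [h1]
    simp only [card_empty, Nat.cast_zero]
    positivity

omit [DecidableEq X] in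
open Classical in
theorem choice (A : X → Finset T) (w : X → X → ℝ) (hw : ∀ x y, 0 ≤ w x y) :
    ∃ f : X → Option T, (∀ x, (A x).Nonempty → ∃ t ∈ A x, f x = some t) ∧
      (∀ x, A x = ∅ → f x = none) ∧
      ∑ x, ∑ y, (if f x ≠ f y then w x y else 0) ≤
        ∑ x, ∑ y, w x y * (((A x \ A y).card : ℝ) / (A x).card +
          ((A y \ A x).card : ℝ) / (A y).card) := by
  have : Nonempty (Rk T) := ⟨Fintype.equivFin T⟩
  have h1 : ∑ σ : Rk T, ∑ x, ∑ y, (if ff A σ x ≠ ff A σ y then w x y else 0) ≤
      ∑ _σ : Rk T, ∑ x, ∑ y, w x y * (((A x \ A y).card : ℝ) / (A x).card +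
          ((A y \ A x).card : ℝ) / (A y).card) := by
    rw [sum_const, card_univ, nsmul_eq_mul, sum_comm, mul_sum]
    refine sum_le_sum fun x _ => ?_
    rw [sum_comm, mul_sum]
    refine sum_le_sum fun y _ => ?_
    rw [← sum_filter, sum_const, nsmul_eq_mul]
    calc _ ≤ (Fintype.card (Rk T) * (((A x \ A y).card : ℝ) / (A x).card +
        ((A y \ A x).card : ℝ) / (A y).card)) * w x y :=
          mul_le_mul_of_nonneg_right (ff_ne A x y) (hw x y)
      _ = _ := by ring
  obtain ⟨σ, -, hσ⟩ := exists_le_of_sum_le univ_nonempty h1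
  refine ⟨ff A σ, fun x hx => ⟨am σ (A x) hx, am_mem _ _ _, ?_⟩, fun x hx => ?_, hσ⟩
  · unfold ff
    rw [dif_pos hx]
  · unfold ff
    rw [dif_neg]
    rw [hx]
    simp

end Pool.Agent.INS
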