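import Mathlib

/-! INS/Reg.  Walks on a finite regular (symmetric) relation: number, positivity, distance. -/

set_option autoImplicit false

open Finset

namespace Pool.Agent.INS

variable {X : Type} [Fintype X]

open Classical in
/-- the transfer operator -/
noncomputable def op (R : X → X → Prop) (f : X → ℝ) : X → ℝ :=
  fun x => ∑ y, if R x y then f y else 0

/-- walks for the relation `R` -/
def IsW (R : X → X → Prop) (m : ℕ) (w : Fin (m + 1) → X) : Prop :=
  ∀ i : Fin m, R (w i.castSucc) (w i.succ)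

omit [Fintype X] in
theorem isW_cons (R : X → X → Prop) (m : ℕ) (x : X) (w : Fin (m + 1) → X) :
    IsW R (m + 1) (Fin.cons x w : Fin (m + 2) → X) ↔ R x (w 0) ∧ IsW R m w := by
  unfold IsW
  constructor
  · intro h
    refine ⟨by simpa using h 0, fun i => ?_⟩
    have h1 := h i.succ
    rw [← Fin.succ_castSucc] at h1
    simpa using h1
  · rintro ⟨h1, h2⟩ i
    refine Fin.cases ?_ (fun j => ?_) i
    · simpa using h1
    · rw [← Fin.succ_castSucc]
      simpa using h2 j

open Classical in
theorem op_symm (R : X → X → Prop) (hR : ∀ x y, R x y → R y x) (f g : X → ℝ) :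
    ∑ x, f x * op R g x = ∑ x, op R f x * g x := by
  unfold op
  simp_rw [mul_sum, sum_mul]
  rw [sum_comm]
  refine sum_congr rfl fun y _ => sum_congr rfl fun x _ => ?_
  by_cases h : R x y
  · simp [h, hR x y h]
  · have h' : ¬ R y x := fun h2 => h (hR _ _ h2)
    simp [h, h']

open Classical in
theorem sum_walk (R : X → X → Prop) (m : ℕ) (u v : X → ℝ) :
    ∑ w : Fin (m + 1) → X with IsW R m w, u (w 0) * v (w (Fin.last m)) =
      ∑ x, u x * ((op R)^[m] v) x := by
  induction m generalizing u with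
  | zero =>
    simp only [Function.iterate_zero, id_eq]
    rw [show (univ.filter fun w : Fin 1 → X => IsW R 0 w) = univ from
      filter_true_of_mem (fun w _ => fun i => i.elim0)]
    exact (Equiv.funUnique (Fin 1) X).symm.sum_comp (fun w => u (w 0) * v (w (Fin.last 0))) |>.symm
  | succ m ih =>
    have e0 : ∀ (x : X) (w : Fin (m + 1) → X), (Fin.consEquiv (fun _ : Fin (m + 2) => X)) (x, w) =
      (Fin.cons x w : Fin (m + 2) → X) := fun _ _ => rfl
    rw [sum_filter, ← (Fin.consEquiv (fun _ : Fin (m + 2) => X)).sum_comp, Fintype.sum_prod_type,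
      sum_comm]
    have e1 : ∀ w : Fin (m + 1) → X, (∑ x : X,
        if IsW R (m + 1) ((Fin.consEquiv (fun _ : Fin (m + 2) => X)) (x, w)) then
          u (((Fin.consEquiv (fun _ : Fin (m + 2) => X)) (x, w)) 0) *
            v (((Fin.consEquiv (fun _ : Fin (m + 2) => X)) (x, w)) (Fin.last (m + 1))) else 0) =
        if IsW R m w then (∑ x, if R x (w 0) then u x else 0) * v (w (Fin.last m)) else 0 := by
      intro w
      rw [sum_mul]
      have e2 : ∀ x : X, v ((Fin.cons x w : Fin (m + 2) → X) (Fin.last (m + 1))) =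
          v (w (Fin.last m)) := fun x => by rw [← Fin.succ_last, Fin.cons_succ]
      split_ifs with h
      · refine sum_congr rfl fun x _ => ?_
        rw [e0, e2, Fin.cons_zero]
        by_cases h3 : R x (w 0)
        · rw [if_pos ((isW_cons R m x w).mpr ⟨h3, h⟩), if_pos h3]
        · rw [if_neg (fun h4 => h3 ((isW_cons R m x w).mp h4).1), if_neg h3, zero_mul]
      · refine sum_eq_zero fun x _ => ?_
        rw [e0, if_neg (fun h4 => h ((isW_cons R m x w).mp h4).2)]
    rw [sum_congr rfl fun w _ => e1 w, ← sum_filter,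
      ih (fun y => ∑ x, if R x y then u x else 0)]
    rw [Function.iterate_succ_apply' (f := op R)]
    unfold op
    simp_rw [sum_mul, mul_sum]
    rw [sum_comm]
    refine sum_congr rfl fun x _ => sum_congr rfl fun y _ => ?_
    by_cases h : R x y <;> simp [h]

variable {R : X → X → Prop} {V : Finset X} {D : ℕ}

open Classical in
/-- the sum is multiplied by `D` -/
theorem sum_op (hR : ∀ x y, R x y → R y x)
    (hD : ∀ x ∈ V, (univ.filter (fun y => R x y)).card = D) (f : X → ℝ)
    (hf : ∀ x, x ∉ V → f x = 0) : ∑ x, op R f x = D * ∑ x, f x := by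
  have h1 := op_symm R hR (fun _ => 1) f
  simp only [one_mul] at h1
  rw [h1, mul_sum]
  refine sum_congr rfl fun x _ => ?_
  by_cases hx : x ∈ V
  · congr 1
    unfold op
    rw [← sum_filter]
    simp [hD x hx]
  · rw [hf x hx]; simp

open Classical in
theorem op_supp (hV : ∀ x y, R x y → x ∈ V) (f : X → ℝ) (x : X) (hx : x ∉ V) : op R f x = 0 := by
  unfold op
  refine sum_eq_zero fun y _ => ?_
  rw [if_neg (fun h => hx (hV _ _ h))]

theorem iter_supp (hV : ∀ x y, R x y → x ∈ V) (f : X → ℝ) (hf : ∀ x, x ∉ V → f x = 0) (m : ℕ) :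
    ∀ x, x ∉ V → ((op R)^[m] f) x = 0 := by
  cases m with
  | zero => simpa using hf
  | succ m =>
    intro x hx
    rw [Function.iterate_succ_apply']
    exact op_supp hV _ x hx

open Classical in
theorem sum_iter (hR : ∀ x y, R x y → R y x) (hV : ∀ x y, R x y → x ∈ V)
    (hD : ∀ x ∈ V, (univ.filter (fun y => R x y)).card = D) (f : X → ℝ)
    (hf : ∀ x, x ∉ V → f x = 0) (m : ℕ) : ∑ x, ((op R)^[m] f) x = D ^ m * ∑ x, f x := by
  induction m with
  | zero => simp
  | succ m ih =>
    simp_rw [Function.iterate_succ_apply']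
    rw [sum_op hR hD _ (iter_supp hV f hf m), ih]
    ring

open Classical in
theorem iter_symm (hR : ∀ x y, R x y → R y x) (f g : X → ℝ) (m : ℕ) :
    ∑ x, f x * ((op R)^[m] g) x = ∑ x, ((op R)^[m] f) x * g x := by
  induction m generalizing f with
  | zero => simp
  | succ m ih =>
    simp_rw [Function.iterate_succ_apply']
    rw [op_symm R hR, ih (op R f), ← Function.iterate_succ_apply]
    simp_rw [Function.iterate_succ_apply']

open Classical in
/-- positivity: for an even number of steps both ends are in `A` at least as often as for independent ends -/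
theorem pos (hR : ∀ x y, R x y → R y x) (hV : ∀ x y, R x y → x ∈ V)
    (hD : ∀ x ∈ V, (univ.filter (fun y => R x y)).card = D) (A : Finset X) (hA : A ⊆ V) (s : ℕ) :
    (A.card : ℝ) ^ 2 * (D : ℝ) ^ (s + s) ≤ V.card *
      ((univ.filter (fun w : Fin (s + s + 1) → X => IsW R (s + s) w ∧ w 0 ∈ A ∧
        w (Fin.last (s + s)) ∈ A)).card : ℝ) := by
  set f : X → ℝ := fun x => if x ∈ A then 1 else 0 with hf
  have hf0 : ∀ x, x ∉ V → f x = 0 := fun x hx => by
    rw [hf]
    simp only
    rw [if_neg (fun h => hx (hA h))]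
  have h1 : ((univ.filter (fun w : Fin (s + s + 1) → X => IsW R (s + s) w ∧ w 0 ∈ A ∧
        w (Fin.last (s + s)) ∈ A)).card : ℝ) = ∑ x, ((op R)^[s] f) x ^ 2 := by
    have h2 := sum_walk R (s + s) f f
    rw [Function.iterate_add_apply, iter_symm hR] at h2
    simp_rw [← sq] at h2
    rw [← h2, ← filter_filter, card_filter]
    push_cast
    refine sum_congr rfl fun w _ => ?_
    rw [hf]
    by_cases h3 : w 0 ∈ A <;> by_cases h4 : w (Fin.last (s + s)) ∈ A <;> simp [h3, h4]
  have h5 : ∑ x ∈ V, ((op R)^[s] f) x = ∑ x, ((op R)^[s] f) x :=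
    sum_subset (subset_univ _) fun x _ hx => iter_supp hV f hf0 s x hx
  have h6 : ∑ x ∈ V, ((op R)^[s] f) x ^ 2 ≤ ∑ x, ((op R)^[s] f) x ^ 2 :=
    sum_le_univ_sum_of_nonneg fun x => sq_nonneg _
  have h7 := sq_sum_le_card_mul_sum_sq (s := V) (f := (op R)^[s] f)
  rw [h1]
  calc (A.card : ℝ) ^ 2 * (D : ℝ) ^ (s + s) = (∑ x, ((op R)^[s] f) x) ^ 2 := by
        rw [sum_iter hR hV hD f hf0 s, pow_add]
        have h8 : ∑ x, f x = A.card := by rw [hf]; simp
        rw [h8]
        ring
    _ = (∑ x ∈ V, ((op R)^[s] f) x) ^ 2 := by rw [h5]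
    _ ≤ V.card * ∑ x ∈ V, ((op R)^[s] f) x ^ 2 := h7
    _ ≤ _ := mul_le_mul_of_nonneg_left h6 (Nat.cast_nonneg _)

open Classical in
/-- the number of all walks -/
theorem tot (hR : ∀ x y, R x y → R y x) (hV : ∀ x y, R x y → x ∈ V)
    (hD : ∀ x ∈ V, (univ.filter (fun y => R x y)).card = D) (m : ℕ) :
    ((univ.filter (fun w : Fin (m + 1) → X => IsW R m w ∧ w 0 ∈ V ∧ w (Fin.last m) ∈ V)).card : ℝ) =
      V.card * (D : ℝ) ^ m := by
  set f : X → ℝ := fun x => if x ∈ V then 1 else 0 with hf
  have hf0 : ∀ x, x ∉ V → f x = 0 := fun x hx => by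
    rw [hf]
    simp only
    rw [if_neg hx]
  have h2 := sum_walk R m f f
  have h3 : ∑ x, f x * ((op R)^[m] f) x = ∑ x, ((op R)^[m] f) x := by
    refine sum_congr rfl fun x _ => ?_
    by_cases hx : x ∈ V
    · rw [hf]; simp only; rw [if_pos hx, one_mul]
    · rw [iter_supp hV f hf0 m x hx, mul_zero]
  rw [h3, sum_iter hR hV hD f hf0 m] at h2
  have h8 : ∑ x, f x = V.card := by rw [hf]; simp
  rw [h8] at h2
  rw [mul_comm (V.card : ℝ), ← h2, ← filter_filter, card_filter]
  push_cast
  refine sum_congr rfl fun w _ => ?_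
  rw [hf]
  by_cases h3 : w 0 ∈ V <;> by_cases h4 : w (Fin.last m) ∈ V <;> simp [h3, h4]

open Classical in
private theorem sum_e (hR : ∀ x y, R x y → R y x) (hV : ∀ x y, R x y → x ∈ V)
    (hD : ∀ x ∈ V, (univ.filter (fun y => R x y)).card = D) (e : X → ℝ)
    (he : ∀ x, x ∉ V → e x = 0) (m : ℕ) :
    ∑ w : Fin (m + 1) → X with IsW R m w ∧ w 0 ∈ V ∧ w (Fin.last m) ∈ V, e (w 0) =
      (D : ℝ) ^ m * ∑ x, e x := by
  have h2 := sum_walk R m e (fun x => if x ∈ V then 1 else 0)
  rw [iter_symm hR] at h2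
  have h3 : ∑ x, ((op R)^[m] e) x * (if x ∈ V then 1 else 0) = ∑ x, ((op R)^[m] e) x := by
    refine sum_congr rfl fun x _ => ?_
    by_cases hx : x ∈ V
    · rw [if_pos hx, mul_one]
    · rw [iter_supp hV e he m x hx, zero_mul]
  rw [h3, sum_iter hR hV hD e he m] at h2
  rw [← h2, ← filter_filter, sum_filter]
  refine sum_congr rfl fun w _ => ?_
  by_cases h3 : w 0 ∈ V <;> by_cases h4 : w (Fin.last m) ∈ V <;> simp [h3, h4, he _]

open Classical in
/-- the distance of the ends of a walk is at most the sum of the distances of its steps -/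
theorem walk_dist (hR : ∀ x y, R x y → R y x) (hV : ∀ x y, R x y → x ∈ V)
    (hD : ∀ x ∈ V, (univ.filter (fun y => R x y)).card = D) (d : X → X → ℝ)
    (hd : ∀ x y z, d x z ≤ d x y + d y z) (hd0 : ∀ x, d x x = 0) (m : ℕ) :
    (∑ w : Fin (m + 1) → X with IsW R m w ∧ w 0 ∈ V ∧ w (Fin.last m) ∈ V,
        d (w 0) (w (Fin.last m))) * D ≤
      m * (D : ℝ) ^ m * ∑ x, ∑ y, if R x y then d x y else 0 := by
  induction m with
  | zero =>
    have h1 : ∀ w : Fin 1 → X, d (w 0) (w (Fin.last 0)) = 0 := fun w => hd0 _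
    simp only [h1, sum_const_zero, zero_mul, Nat.cast_zero, le_refl]
  | succ m ih =>
    set e : X → ℝ := fun y => ∑ x, if R x y then d x y else 0 with he
    have he0 : ∀ y, y ∉ V → e y = 0 := by
      intro y hy
      rw [he]
      refine sum_eq_zero fun x _ => ?_
      rw [if_neg (fun h => hy (hV _ _ (hR _ _ h)))]
    have hse : ∑ x, e x = ∑ x, ∑ y, if R x y then d x y else 0 := by
      rw [he, sum_comm]
    have e0 : ∀ (x : X) (w : Fin (m + 1) → X), (Fin.consEquiv (fun _ : Fin (m + 2) => X)) (x, w) =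
      (Fin.cons x w : Fin (m + 2) → X) := fun _ _ => rfl
    have key : (∑ w : Fin (m + 2) → X with IsW R (m + 1) w ∧ w 0 ∈ V ∧ w (Fin.last (m + 1)) ∈ V,
        d (w 0) (w (Fin.last (m + 1)))) ≤
        (D : ℝ) ^ m * ∑ x, e x + D * ∑ w : Fin (m + 1) → X with IsW R m w ∧ w 0 ∈ V ∧
          w (Fin.last m) ∈ V, d (w 0) (w (Fin.last m)) := by
      rw [sum_filter, ← (Fin.consEquiv (fun _ : Fin (m + 2) => X)).sum_comp,
        Fintype.sum_prod_type, sum_comm, ← sum_e hR hV hD e he0 m, mul_sum, ← sum_add_distrib,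
        sum_filter]
      refine sum_le_sum fun w _ => ?_
      have e2 : ∀ x : X, (Fin.cons x w : Fin (m + 2) → X) (Fin.last (m + 1)) =
          w (Fin.last m) := fun x => by rw [← Fin.succ_last, Fin.cons_succ]
      split_ifs with h
      · have h5 := hD (w 0) h.2.1
        have h6 : (univ.filter (fun x => R x (w 0))).card = D := by
          rw [← h5]
          congr 1
          ext x
          simp only [mem_filter, mem_univ, true_and]
          exact ⟨hR _ _, hR _ _⟩
        calc _ ≤ ∑ x, ((if R x (w 0) then d x (w 0) else 0) +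
              (if R x (w 0) then d (w 0) (w (Fin.last m)) else 0)) := by
              refine sum_le_sum fun x _ => ?_
              rw [e0, e2, Fin.cons_zero]
              by_cases h3 : R x (w 0)
              · rw [if_pos ⟨(isW_cons R m x w).mpr ⟨h3, h.1⟩, hV _ _ h3, h.2.2⟩, if_pos h3,
                  if_pos h3]
                exact hd _ _ _
              · rw [if_neg (fun h4 => h3 ((isW_cons R m x w).mp h4.1).1), if_neg h3, if_neg h3]
                simp
          _ = _ := by
              rw [sum_add_distrib]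
              congr 1
              rw [← sum_filter, sum_const, h6, nsmul_eq_mul]
      · refine le_of_eq (sum_eq_zero fun x _ => ?_)
        rw [e0, e2, Fin.cons_zero, if_neg]
        rintro ⟨h4, h5, h6⟩
        have h7 := (isW_cons R m x w).mp h4
        exact h ⟨h7.2, hV _ _ (hR _ _ h7.1), h6⟩
    rw [← hse] at ih ⊢
    have hD0 : (0 : ℝ) ≤ D := Nat.cast_nonneg _
    calc _ ≤ ((D : ℝ) ^ m * ∑ x, e x + D * ∑ w : Fin (m + 1) → X with IsW R m w ∧ w 0 ∈ V ∧
          w (Fin.last m) ∈ V, d (w 0) (w (Fin.last m))) * D := mul_le_mul_of_nonneg_right key hD0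
      _ = (D : ℝ) ^ (m + 1) * ∑ x, e x + D * ((∑ w : Fin (m + 1) → X with IsW R m w ∧ w 0 ∈ V ∧
          w (Fin.last m) ∈ V, d (w 0) (w (Fin.last m))) * D) := by ring
      _ ≤ (D : ℝ) ^ (m + 1) * ∑ x, e x + D * (m * (D : ℝ) ^ m * ∑ x, e x) := by
          gcongr
      _ = _ := by push_cast; ring

end Pool.Agent.INS
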