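import Pool.Agent.INS.CertF
import Pool.Agent.INS.MinH

/-! INS/Sharp.  The most stable choice: `4 C(s,2)/(N-M)`. -/

set_option autoImplicit false

open Finset

namespace Pool.Agent.INS

variable {n M : ℕ}

open Classical in
/-- the stable sets with `s` elements -/
noncomputable def As (s : ℕ) (G : SimpleGraph (Fin n)) : Finset (Finset (Fin n)) :=
  univ.filter fun S => S.card = s ∧ ∀ u ∈ S, ∀ v ∈ S, ¬ G.Adj u v

theorem mem_As (s : ℕ) (G : SimpleGraph (Fin n)) (S : Finset (Fin n)) :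
    S ∈ As s G ↔ S.card = s ∧ ∀ u ∈ S, ∀ v ∈ S, ¬ G.Adj u v := by
  simp [As]

open Classical in
theorem lost (s : ℕ) (G : SimpleGraph (Fin n)) (hG : G.edgeSet.ncard = M) (S : Finset (Fin n))
    (hS : S ∈ As s G) :
    (univ.filter (fun G' : SimpleGraph (Fin n) => Rn M G G' ∧ S ∉ As s G')).card ≤
      s.choose 2 * M := by
  rw [mem_As] at hS
  have h1 := cnt_add hG (((S.offDiag.image (fun p => s(p.1, p.2)) : Finset (Sym2 (Fin n)))) : Set (Sym2 (Fin n)))
  have h2 : ((((S.offDiag.image (fun p => s(p.1, p.2)) : Finset (Sym2 (Fin n)))) : Set (Sym2 (Fin n))) \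
      G.edgeSet).ncard ≤ s.choose 2 := by
    refine (Set.ncard_le_ncard Set.sdiff_subset (Set.toFinite _)).trans ?_
    have h3 := Sym2.card_image_offDiag S
    rw [hS.1] at h3
    rw [Set.ncard_coe_finset, ← h3]
    exact le_of_eq rfl
  refine le_trans ?_ (h1.trans (Nat.mul_le_mul_right _ h2))
  rw [← Set.ncard_coe_finset]
  refine Set.ncard_le_ncard ?_ (Set.toFinite _)
  intro G' hG'
  simp only [coe_filter, mem_univ, true_and, Set.mem_ofPred_eq] at hG'
  refine ⟨hG'.1, ?_⟩
  have h3 := hG'.2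
  rw [mem_As] at h3
  push Not at h3
  obtain ⟨u, hu, v, hv, huv⟩ := h3 hS.1
  refine ⟨s(u, v), ?_, ?_, ?_⟩
  · rw [mem_coe, mem_image]
    exact ⟨(u, v), mem_offDiag.mpr ⟨hu, hv, huv.ne⟩, rfl⟩
  · rw [SimpleGraph.mem_edgeSet]
    exact hS.2 u hu v hv
  · rw [SimpleGraph.mem_edgeSet]
    exact huv

open Classical in
theorem lost_sum (s : ℕ) :
    ∑ G : SimpleGraph (Fin n), ∑ G' : SimpleGraph (Fin n), (if Rn M G G' then (1 : ℝ) else 0) *
      (((As s G \ As s G').card : ℝ) / (As s G).card) ≤ (Vn n M).card * (s.choose 2 * M : ℕ) := by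
  have h1 : ∀ G : SimpleGraph (Fin n), ∑ G' : SimpleGraph (Fin n),
      (if Rn M G G' then (1 : ℝ) else 0) * (((As s G \ As s G').card : ℝ) / (As s G).card) ≤
      if G ∈ Vn n M then ((s.choose 2 * M : ℕ) : ℝ) else 0 := by
    intro G
    by_cases hG : G ∈ Vn n M
    · rw [if_pos hG]
      simp_rw [← mul_div_assoc]
      rw [← sum_div]
      have h2 : ∑ G' : SimpleGraph (Fin n), (if Rn M G G' then (1 : ℝ) else 0) *
          ((As s G \ As s G').card : ℝ) ≤ ((s.choose 2 * M : ℕ) : ℝ) * (As s G).card := by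
        have h3 : ∑ G' : SimpleGraph (Fin n), (if Rn M G G' then 1 else 0) *
            (As s G \ As s G').card = ∑ S ∈ As s G,
              (univ.filter (fun G' : SimpleGraph (Fin n) => Rn M G G' ∧ S ∉ As s G')).card := by
          simp_rw [card_filter]
          rw [sum_comm]
          refine sum_congr rfl fun G' _ => ?_
          by_cases h : Rn M G G'
          · simp only [h, if_true, one_mul, true_and]
            rw [← card_filter, sdiff_eq_filter]
          · simp [h]
        have h4 : ∑ G' : SimpleGraph (Fin n), (if Rn M G G' then 1 else 0) *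
            (As s G \ As s G').card ≤ (s.choose 2 * M) * (As s G).card := by
          rw [h3, mul_comm, ← smul_eq_mul, ← sum_const]
          exact sum_le_sum fun S hS => lost s G ((mem_Vn G).mp hG) S hS
        exact_mod_cast h4
      rcases Nat.eq_zero_or_pos (As s G).card with h5 | h5
      · rw [h5]
        simp only [Nat.cast_zero, div_zero]
        positivity
      · have h6 : (0 : ℝ) < (As s G).card := by exact_mod_cast h5
        exact (div_le_iff₀ h6).mpr h2
    · rw [if_neg hG]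
      refine le_of_eq (sum_eq_zero fun G' _ => ?_)
      rw [if_neg (fun h => hG (Rn_left _ _ h)), zero_mul]
  calc _ ≤ ∑ G : SimpleGraph (Fin n), (if G ∈ Vn n M then ((s.choose 2 * M : ℕ) : ℝ) else 0) :=
        sum_le_sum fun G _ => h1 G
    _ = _ := by
        rw [← sum_filter, sum_const, nsmul_eq_mul, filter_mem_eq_inter, univ_inter]

open Classical in
theorem lost_sum' (s : ℕ) :
    ∑ G : SimpleGraph (Fin n), ∑ G' : SimpleGraph (Fin n), (if Rn M G G' then (1 : ℝ) else 0) *
      (((As s G' \ As s G).card : ℝ) / (As s G').card) ≤ (Vn n M).card * (s.choose 2 * M : ℕ) := by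
  refine le_trans (le_of_eq ?_) (lost_sum (n := n) (M := M) s)
  rw [sum_comm]
  refine sum_congr rfl fun G _ => sum_congr rfl fun G' _ => ?_
  congr 1
  by_cases h : Rn M G G'
  · rw [if_pos h, if_pos (Rn_symm _ _ h)]
  · rw [if_neg h, if_neg (fun h2 => h (Rn_symm _ _ h2))]

open Classical in
/-- a map which finds stable sets with `s` vertices whenever there are any, of small average sensitivity -/
theorem best (n M s : ℕ) : ∃ F : SimpleGraph (Fin n) → Finset (Fin n),
    (∀ G : SimpleGraph (Fin n), (As s G).Nonempty → F G ∈ As s G) ∧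
    ∑ x : SimpleGraph (Fin n), ∑ y : SimpleGraph (Fin n),
      (if Rn M x y then (sd (F x) (F y) : ℝ) else 0) ≤
      4 * s * ((Vn n M).card * (s.choose 2 * M : ℕ)) := by
  obtain ⟨f, h1, h2, h3⟩ := choice (X := SimpleGraph (Fin n)) (T := Finset (Fin n)) (As s)
    (fun G G' => if Rn M G G' then (1 : ℝ) else 0) (fun G G' => by positivity)
  refine ⟨fun G => (f G).getD ∅, ?_, ?_⟩
  · intro G hG
    obtain ⟨S, hS, hf⟩ := h1 G hG
    simp only [hf, Option.getD_some]
    exact hS
  · have hcard : ∀ G, ((f G).getD ∅).card ≤ s := by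
      intro G
      rcases (As s G).eq_empty_or_nonempty with h | h
      · rw [h2 G h]
        simp
      · obtain ⟨S, hS, hf⟩ := h1 G h
        rw [hf, Option.getD_some, ((mem_As s G S).mp hS).1]
    have h4 : ∀ x y, (if Rn M x y then (sd ((f x).getD ∅) ((f y).getD ∅) : ℝ) else 0) ≤
        2 * s * (if f x ≠ f y then (if Rn M x y then (1 : ℝ) else 0) else 0) := by
      intro x y
      by_cases h : Rn M x y
      · rw [if_pos h, if_pos h]
        by_cases h5 : f x = f y
        · rw [h5, sd_self]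
          simp
        · rw [if_pos h5, mul_one]
          have h6 : sd ((f x).getD ∅) ((f y).getD ∅) ≤ 2 * s := by
            unfold sd
            have e1 := card_le_card (sdiff_subset (s := (f x).getD ∅) (t := (f y).getD ∅))
            have e2 := card_le_card (sdiff_subset (s := (f y).getD ∅) (t := (f x).getD ∅))
            have e3 := hcard x
            have e4 := hcard y
            omega
          exact_mod_cast h6
      · rw [if_neg h, if_neg h]
        simp
    calc _ ≤ ∑ x : SimpleGraph (Fin n), ∑ y : SimpleGraph (Fin n),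
          2 * s * (if f x ≠ f y then (if Rn M x y then (1 : ℝ) else 0) else 0) :=
          sum_le_sum fun x _ => sum_le_sum fun y _ => h4 x y
      _ = 2 * s * ∑ x : SimpleGraph (Fin n), ∑ y : SimpleGraph (Fin n),
          (if f x ≠ f y then (if Rn M x y then (1 : ℝ) else 0) else 0) := by
          simp_rw [mul_sum]
      _ ≤ 2 * s * ((Vn n M).card * (s.choose 2 * M : ℕ) + (Vn n M).card * (s.choose 2 * M : ℕ)) := by
          refine mul_le_mul_of_nonneg_left (h3.trans ?_) (by positivity)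
          simp_rw [mul_add, sum_add_distrib]
          exact add_le_add (lost_sum s) (lost_sum' s)
      _ = _ := by ring

open Classical in
/-- sharpness -/
theorem sharp {ε : ℝ} (hε : 0 < ε) {k : ℕ} (hk : 3 ≤ k) : ∃ n0 : ℕ, ∀ n : ℕ, n0 ≤ n →
    ∃ F : SimpleGraph (Fin n) → Finset (Fin n),
      (∀ G : SimpleGraph (Fin n), (∃ S : Finset (Fin n), (∀ u ∈ S, ∀ v ∈ S, ¬ G.Adj u v) ∧
        (n : ℝ) / k ≤ S.card) → Finds F k G) ∧
      ∑ g ∈ (univ : Finset (Fin (1 + 1) → SimpleGraph (Fin n))).filter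
        (fun g => g ∈ Walks n (Mk ε k n) 1), (sd (F (g 0)) (F (g 1)) : ℝ) ≤
        24 * (n / (k : ℝ) ^ 3) * (Walks n (Mk ε k n) 1).ncard := by
  obtain ⟨n0, h0⟩ := numA hε hk
  refine ⟨n0, fun n hn => ?_⟩
  have hA := h0 n hn
  obtain ⟨F, h1, h2⟩ := best n (Mk ε k n) ⌈(n : ℝ) / k⌉₊
  refine ⟨F, ?_, ?_⟩
  · rintro G ⟨S, hS, hS2⟩
    have h3 : ⌈(n : ℝ) / k⌉₊ ≤ S.card := Nat.ceil_le.mpr hS2
    obtain ⟨S', hS', hc⟩ := exists_subset_card_eq h3
    have h4 : S' ∈ As ⌈(n : ℝ) / k⌉₊ G :=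
      (mem_As _ _ _).mpr ⟨hc, fun u hu v hv => hS u (hS' hu) v (hS' hv)⟩
    have h5 := (mem_As _ _ _).mp (h1 G ⟨S', h4⟩)
    refine ⟨h5.2, ?_⟩
    rw [h5.1]
    exact Nat.le_ceil _
  · rw [← steps_sum, walks_ncard, pow_one]
    refine h2.trans ?_
    set s := ⌈(n : ℝ) / k⌉₊ with hs
    have hx : (4 : ℝ) ≤ (n : ℝ) / k := hA.x4
    have hs1 : (s : ℝ) ≤ 5 / 4 * ((n : ℝ) / k) := by
      have := Nat.ceil_lt_add_one (show (0 : ℝ) ≤ (n : ℝ) / k by positivity)
      rw [← hs] at this
      linarith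
    have hc2 : ((s.choose 2 : ℕ) : ℝ) ≤ s ^ 2 / 2 := by
      rw [Nat.cast_choose_two]
      have : (0 : ℝ) ≤ s := Nat.cast_nonneg _
      nlinarith
    have hkp : (0 : ℝ) < k := by
      have : 0 < k := by omega
      exact_mod_cast this
    have hn3 : (3 : ℝ) ≤ n := by exact_mod_cast hA.n2
    have hNM : (n : ℝ) ^ 2 / 6 ≤ ((NN n - Mk ε k n : ℕ) : ℝ) := by
      have e1 := hA.MN
      have e2 : NN n ≤ 2 * (NN n - Mk ε k n) := by omega
      have e3 : (NN n : ℝ) ≤ 2 * ((NN n - Mk ε k n : ℕ) : ℝ) := by exact_mod_cast e2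
      rw [NN_eq, Nat.cast_choose_two] at e3
      rw [NN_eq]
      nlinarith
    have hsn : (0 : ℝ) ≤ s := Nat.cast_nonneg _
    have h6 : 4 * (s : ℝ) * (s.choose 2 : ℕ) ≤ 24 * (n / (k : ℝ) ^ 3) * ((NN n - Mk ε k n : ℕ) : ℝ) := by
      have e1 : 4 * (s : ℝ) * (s.choose 2 : ℕ) ≤ 2 * (5 / 4 * ((n : ℝ) / k)) ^ 3 := by
        calc 4 * (s : ℝ) * (s.choose 2 : ℕ) ≤ 4 * (s : ℝ) * (s ^ 2 / 2) :=
              mul_le_mul_of_nonneg_left hc2 (by positivity)
          _ = 2 * (s : ℝ) ^ 3 := by ring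
          _ ≤ _ := by gcongr
      have e2 : 24 * (n / (k : ℝ) ^ 3) * ((n : ℝ) ^ 2 / 6) ≤
          24 * (n / (k : ℝ) ^ 3) * ((NN n - Mk ε k n : ℕ) : ℝ) :=
        mul_le_mul_of_nonneg_left hNM (by positivity)
      refine e1.trans (le_trans ?_ e2)
      have e3 : 2 * (5 / 4 * ((n : ℝ) / k)) ^ 3 = 125 / 32 * (n ^ 3 / (k : ℝ) ^ 3) := by
        field_simp
        norm_num
      have e4 : 24 * (n / (k : ℝ) ^ 3) * ((n : ℝ) ^ 2 / 6) = 4 * (n ^ 3 / (k : ℝ) ^ 3) := by
        field_simp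
        norm_num
      rw [e3, e4]
      have : (0 : ℝ) ≤ n ^ 3 / (k : ℝ) ^ 3 := by positivity
      linarith
    have h7 := mul_le_mul_of_nonneg_left h6 (show (0 : ℝ) ≤ (Vn n (Mk ε k n)).card * Mk ε k n by
      positivity)
    push_cast at h7 ⊢
    linarith

end Pool.Agent.INS
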