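import Pool.Agent.INS.Cert
import Pool.Agent.INS.Reg

/-! INS/Strong.  Instability for every success probability. -/

set_option autoImplicit false

open Finset

namespace Pool.Agent.INS

variable {n M : ℕ}

/-- one edge is replaced by another one, both graphs have `M` edges -/
def Rn (M : ℕ) (G G' : SimpleGraph (Fin n)) : Prop :=
  G.edgeSet.ncard = M ∧ G'.edgeSet.ncard = M ∧ (G.edgeSet \ G'.edgeSet).ncard = 1

open Classical in
/-- the graphs with `M` edges -/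
noncomputable def Vn (n M : ℕ) : Finset (SimpleGraph (Fin n)) :=
  univ.filter fun G => G.edgeSet.ncard = M

theorem mem_Vn (G : SimpleGraph (Fin n)) : G ∈ Vn n M ↔ G.edgeSet.ncard = M := by
  simp [Vn]

theorem Rn_symm (G G' : SimpleGraph (Fin n)) (h : Rn M G G') : Rn M G' G := by
  classical
  refine ⟨h.2.1, h.1, ?_⟩
  have h3 := h.2.2
  rw [eE_sdiff] at h3 ⊢
  rw [← h3]
  apply card_sdiff_comm
  rw [← eE_card, ← eE_card, h.1, h.2.1]

theorem Rn_left (G G' : SimpleGraph (Fin n)) (h : Rn M G G') : G ∈ Vn n M := (mem_Vn G).mpr h.1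

theorem walks_isW (m : ℕ) (g : Fin (m + 1) → SimpleGraph (Fin n)) :
    g ∈ Walks n M m ↔ IsW (Rn M) m g ∧ g 0 ∈ Vn n M ∧ g (Fin.last m) ∈ Vn n M := by
  simp only [mem_Vn]
  constructor
  · rintro ⟨h1, h2⟩
    exact ⟨fun i => ⟨h1 _, h1 _, h2 i⟩, h1 _, h1 _⟩
  · rintro ⟨h1, h2, h3⟩
    refine ⟨fun i => ?_, fun i => (h1 i).2.2⟩
    refine Fin.lastCases h3 (fun j => ?_) i
    exact (h1 j).1

open Classical in
theorem degree (G : SimpleGraph (Fin n)) (hG : G ∈ Vn n M) :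
    (univ.filter (fun G' => Rn M G G')).card = M * (NN n - M) := by
  rw [← (walks_one G ((mem_Vn G).mp hG)).1, ← Set.ncard_coe_finset]
  symm
  refine Set.ncard_congr (fun g _ => g 1) ?_ ?_ ?_
  · rintro g ⟨hg, h0⟩
    simp only [coe_filter, mem_univ, true_and, Set.mem_ofPred_eq]
    have h1 := hg.1
    have h2 := hg.2 0
    refine ⟨(mem_Vn G).mp hG, h1 1, ?_⟩
    rw [← h0]
    exact h2
  · rintro g g' ⟨_, h0⟩ ⟨_, h0'⟩ h
    funext i
    fin_cases i
    · exact h0.trans h0'.symm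
    · exact h
  · intro G' hG'
    simp only [coe_filter, mem_univ, true_and, Set.mem_ofPred_eq] at hG'
    refine ⟨![G, G'], ⟨⟨?_, ?_⟩, rfl⟩, rfl⟩
    · intro i
      fin_cases i
      · exact hG'.1
      · exact hG'.2.1
    · intro i
      fin_cases i
      exact hG'.2.2

open Classical in
theorem walks_ncard (m : ℕ) : ((Walks n M m).ncard : ℝ) = (Vn n M).card * ((M * (NN n - M) : ℕ) : ℝ) ^ m := by
  rw [← tot (R := Rn M) Rn_symm Rn_left degree m]
  norm_cast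
  rw [← Set.ncard_coe_finset]
  congr 1
  ext g
  simp only [walks_isW, coe_filter, mem_univ, true_and, Set.mem_ofPred_eq]

open Classical in
theorem both (s : ℕ) (A : Set (SimpleGraph (Fin n))) (hA : ∀ G ∈ A, G.edgeSet.ncard = M) :
    ((A.ncard : ℝ) / {G : SimpleGraph (Fin n) | G.edgeSet.ncard = M}.ncard) ^ 2 *
        (Walks n M (s + s)).ncard ≤
      ({g | g ∈ Walks n M (s + s) ∧ g 0 ∈ A ∧ g (Fin.last (s + s)) ∈ A}.ncard : ℝ) := by
  have h1 := pos (R := Rn M) Rn_symm Rn_left degree (univ.filter (fun G => G ∈ A))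
    (fun G hG => (mem_Vn G).mpr (hA G (by simpa using hG))) s
  have h2 : {G : SimpleGraph (Fin n) | G.edgeSet.ncard = M}.ncard = (Vn n M).card := by
    rw [← Set.ncard_coe_finset]
    congr 1
    ext G
    simp [Vn]
  have h3 : A.ncard = (univ.filter (fun G => G ∈ A)).card := by
    rw [← Set.ncard_coe_finset]
    congr 1
    ext G
    simp
  have h4 : {g | g ∈ Walks n M (s + s) ∧ g 0 ∈ A ∧ g (Fin.last (s + s)) ∈ A}.ncard =
      (univ.filter (fun w : Fin (s + s + 1) → SimpleGraph (Fin n) => IsW (Rn M) (s + s) w ∧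
        w 0 ∈ (univ.filter (fun G => G ∈ A)) ∧
        w (Fin.last (s + s)) ∈ (univ.filter (fun G => G ∈ A)))).card := by
    rw [← Set.ncard_coe_finset]
    congr 1
    ext g
    simp only [walks_isW, coe_filter, mem_univ, true_and, Set.mem_ofPred_eq, mem_filter]
    constructor
    · rintro ⟨⟨h, _⟩, h5, h6⟩
      exact ⟨h, h5, h6⟩
    · rintro ⟨h, h5, h6⟩
      exact ⟨⟨h, (mem_Vn _).mpr (hA _ h5), (mem_Vn _).mpr (hA _ h6)⟩, h5, h6⟩
  rw [h2, h3, h4, walks_ncard]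
  rcases Nat.eq_zero_or_pos (Vn n M).card with h5 | h5
  · rw [h5]
    simp
  · have h6 : (0 : ℝ) < (Vn n M).card := by exact_mod_cast h5
    rw [div_pow, div_mul_eq_mul_div, div_le_iff₀ (by positivity)]
    nlinarith

open Classical in
/-- for every success probability `p`: after `m` replacements (`m` even) both outputs are correct and far from
each other with probability at least `p² - exp (- cc m/k²)` -/
theorem far {ε : ℝ} (hε : 0 < ε) : ∃ k0 : ℕ, ∀ k : ℕ, k0 ≤ k → ∃ n0 : ℕ, ∀ n : ℕ, n0 ≤ n →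
    ∀ (F : SimpleGraph (Fin n) → Finset (Fin n)) (m : ℕ), Even m → 1 ≤ m → m ≤ Mk ε k n →
    ((({G : SimpleGraph (Fin n) | G.edgeSet.ncard = Mk ε k n ∧ Finds F k G}.ncard : ℝ) /
        {G : SimpleGraph (Fin n) | G.edgeSet.ncard = Mk ε k n}.ncard) ^ 2 -
      Real.exp (-(cc ε * m / k ^ 2))) * (Walks n (Mk ε k n) m).ncard ≤
    ({g | g ∈ Walks n (Mk ε k n) m ∧ Finds F k (g 0) ∧ Finds F k (g (Fin.last m)) ∧
        cc ε * ((n : ℝ) / k) < (sd (F (g 0)) (F (g (Fin.last m))) : ℝ)}.ncard : ℝ) := by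
  obtain ⟨k0, h⟩ := graph_gap hε
  refine ⟨k0, fun k hk => ?_⟩
  obtain ⟨n0, h1⟩ := h k hk
  refine ⟨n0, fun n hn F m hm hm1 hmM => ?_⟩
  have h2 := h1 n hn F m hm1 hmM
  obtain ⟨s, rfl⟩ := hm
  have h3 := both (n := n) (M := Mk ε k n) s {G | G.edgeSet.ncard = Mk ε k n ∧ Finds F k G}
    (fun G hG => hG.1)
  have h4 : {g | g ∈ Walks n (Mk ε k n) (s + s) ∧
      g 0 ∈ {G : SimpleGraph (Fin n) | G.edgeSet.ncard = Mk ε k n ∧ Finds F k G} ∧
      g (Fin.last (s + s)) ∈ {G | G.edgeSet.ncard = Mk ε k n ∧ Finds F k G}} ⊆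
    {g | g ∈ Walks n (Mk ε k n) (s + s) ∧ Finds F k (g 0) ∧ Finds F k (g (Fin.last (s + s))) ∧
        (sd (F (g 0)) (F (g (Fin.last (s + s)))) : ℝ) ≤ cc ε * ((n : ℝ) / k)} ∪
    {g | g ∈ Walks n (Mk ε k n) (s + s) ∧ Finds F k (g 0) ∧ Finds F k (g (Fin.last (s + s))) ∧
        cc ε * ((n : ℝ) / k) < (sd (F (g 0)) (F (g (Fin.last (s + s)))) : ℝ)} := by
    rintro g ⟨hg, h5, h6⟩
    rcases le_or_gt (sd (F (g 0)) (F (g (Fin.last (s + s)))) : ℝ) (cc ε * ((n : ℝ) / k)) with h7 | h7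
    · left
      exact ⟨hg, h5.2, h6.2, h7⟩
    · right
      exact ⟨hg, h5.2, h6.2, h7⟩
  have h5 := (Set.ncard_le_ncard h4 (Set.toFinite _)).trans (Set.ncard_union_le _ _)
  have h6 : (({g | g ∈ Walks n (Mk ε k n) (s + s) ∧
      g 0 ∈ {G : SimpleGraph (Fin n) | G.edgeSet.ncard = Mk ε k n ∧ Finds F k G} ∧
      g (Fin.last (s + s)) ∈ {G | G.edgeSet.ncard = Mk ε k n ∧ Finds F k G}}).ncard : ℝ) ≤
    (({g | g ∈ Walks n (Mk ε k n) (s + s) ∧ Finds F k (g 0) ∧ Finds F k (g (Fin.last (s + s))) ∧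
        (sd (F (g 0)) (F (g (Fin.last (s + s)))) : ℝ) ≤ cc ε * ((n : ℝ) / k)}).ncard : ℝ) +
    (({g | g ∈ Walks n (Mk ε k n) (s + s) ∧ Finds F k (g 0) ∧ Finds F k (g (Fin.last (s + s))) ∧
        cc ε * ((n : ℝ) / k) < (sd (F (g 0)) (F (g (Fin.last (s + s)))) : ℝ)}).ncard : ℝ) := by
    exact_mod_cast h5
  rw [sub_mul]
  linarith

end Pool.Agent.INS
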